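import Mathlib

set_option autoImplicit false

/-! # Module ABS: abstract assembly.
A surjective bounded linear map `r` between Hilbert spaces has a bounded linear right inverse (`(ker r)ᗮ → Y` is bijective,
`ContinuousLinearEquiv.ofBijective`).  Let `e k` be a right inverse of `r k`, `Z k = ker (dD k)`, `R k : Z (k+1) → D k` a right inverse of
`dD k : D k → Z (k+1)`.  `E 0 = e 0 ∘ R 0 ∘ dD 0`, `E (k+1) = e (k+1) ∘ R (k+1) ∘ dD (k+1) + dX k ∘ e k ∘ R k ∘ (1 - R (k+1) ∘ dD (k+1))`. -/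

namespace Pool.Agent.CochExt

theorem exists_right_inverse {X Y : Type*} [NormedAddCommGroup X] [InnerProductSpace ℝ X]
    [CompleteSpace X] [NormedAddCommGroup Y] [NormedSpace ℝ Y] [CompleteSpace Y]
    (r : X →L[ℝ] Y) (hr : Function.Surjective r) : ∃ e : Y →L[ℝ] X, ∀ y, r (e y) = y := by
  classical
  set K : Submodule ℝ X := LinearMap.ker (r : X →ₗ[ℝ] Y) with hK
  have hKc : IsClosed (K : Set X) := by
    have : (K : Set X) = r ⁻¹' {0} := by ext x; simp [hK]
    rw [this]
    exact isClosed_singleton.preimage r.continuous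
  have : CompleteSpace K := hKc.completeSpace_coe
  let s : Kᗮ →L[ℝ] Y := r.comp Kᗮ.subtypeL
  have hinj : Function.Injective s := by
    rw [injective_iff_map_eq_zero]
    intro x hx
    have h1 : (x : X) ∈ K := by
      simpa [s, hK] using hx
    have h2 : (x : X) ∈ Kᗮ := x.2
    have h3 : (x : X) = 0 := by
      have := Submodule.mem_orthogonal' K (x : X) |>.mp h2 x h1
      simpa using this
    exact Subtype.ext h3
  have hsurj : Function.Surjective s := by
    intro y
    obtain ⟨x, hx⟩ := hr y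
    refine ⟨⟨x - K.starProjection x, K.sub_starProjection_mem_orthogonal x⟩, ?_⟩
    have h1 : K.starProjection x ∈ K := K.starProjection_apply_mem x
    have h2 : r (K.starProjection x) = 0 := LinearMap.mem_ker.mp h1
    show r (x - K.starProjection x) = y
    rw [map_sub, h2, sub_zero, hx]
  let S : Kᗮ ≃L[ℝ] Y := ContinuousLinearEquiv.ofBijective s
    (LinearMap.ker_eq_bot.mpr hinj) (LinearMap.range_eq_top.mpr hsurj)
  refine ⟨Kᗮ.subtypeL.comp (S.symm : Y →L[ℝ] Kᗮ), ?_⟩
  intro y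
  have h := S.apply_symm_apply y
  exact h

theorem abs_assembly (D Y X : ℕ → Type)
    [∀ k, NormedAddCommGroup (D k)] [∀ k, InnerProductSpace ℝ (D k)] [∀ k, CompleteSpace (D k)]
    [∀ k, NormedAddCommGroup (Y k)] [∀ k, InnerProductSpace ℝ (Y k)] [∀ k, CompleteSpace (Y k)]
    [∀ k, NormedAddCommGroup (X k)] [∀ k, InnerProductSpace ℝ (X k)] [∀ k, CompleteSpace (X k)]
    (dD : ∀ k, D k →L[ℝ] D (k + 1)) (dY : ∀ k, Y k →L[ℝ] Y (k + 1))
    (dX : ∀ k, X k →L[ℝ] X (k + 1)) (ι : ∀ k, D k →L[ℝ] Y k) (r : ∀ k, X k →L[ℝ] Y k)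
    (hdd : ∀ k x, dD (k + 1) (dD k x) = 0) (hddX : ∀ k x, dX (k + 1) (dX k x) = 0)
    (hι : ∀ k x, ι (k + 1) (dD k x) = dY k (ι k x))
    (hr : ∀ k x, r (k + 1) (dX k x) = dY k (r k x))
    (hsurj : ∀ k, Function.Surjective (r k))
    (hex : ∀ k (z : D (k + 1)), dD (k + 1) z = 0 → ∃ x, dD k x = z)
    (h0 : ∀ z : D 0, dD 0 z = 0 → z = 0) :
    ∃ E : ∀ k, D k →L[ℝ] X k, (∀ k x, r k (E k x) = ι k x) ∧
      ∀ k x, dX k (E k x) = E (k + 1) (dD k x) := by
  classical
  -- right inverses of `r`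
  choose e he using fun k => exists_right_inverse (r k) (hsurj k)
  -- right inverses of `dD`
  have hR : ∀ k, ∃ R : (LinearMap.ker (dD (k + 1) : D (k + 1) →ₗ[ℝ] D (k + 2))) →L[ℝ] D k,
      ∀ z, dD k (R z) = (z : D (k + 1)) := by
    intro k
    have hZc : IsClosed ((LinearMap.ker (dD (k + 1) : D (k + 1) →ₗ[ℝ] D (k + 2)) :
        Submodule ℝ (D (k + 1))) : Set (D (k + 1))) := by
      have : ((LinearMap.ker (dD (k + 1) : D (k + 1) →ₗ[ℝ] D (k + 2)) :
        Submodule ℝ (D (k + 1))) : Set (D (k + 1))) = (dD (k + 1)) ⁻¹' {0} := by ext x; simp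
      rw [this]
      exact isClosed_singleton.preimage (dD (k + 1)).continuous
    have : CompleteSpace (LinearMap.ker (dD (k + 1) : D (k + 1) →ₗ[ℝ] D (k + 2))) :=
      hZc.completeSpace_coe
    let d' : D k →L[ℝ] (LinearMap.ker (dD (k + 1) : D (k + 1) →ₗ[ℝ] D (k + 2))) :=
      (dD k).codRestrict _ (fun x => LinearMap.mem_ker.mpr (hdd k x))
    have hs : Function.Surjective d' := by
      intro z
      obtain ⟨x, hx⟩ := hex k z (LinearMap.mem_ker.mp z.2)
      exact ⟨x, Subtype.ext hx⟩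
    obtain ⟨R, hR⟩ := exists_right_inverse d' hs
    refine ⟨R, fun z => ?_⟩
    exact congrArg Subtype.val (hR z)
  choose R hR' using hR
  -- `c k x = dD k x` as an element of the kernel
  let c : ∀ k, D k →L[ℝ] (LinearMap.ker (dD (k + 1) : D (k + 1) →ₗ[ℝ] D (k + 2))) :=
    fun k => (dD k).codRestrict _ (fun x => LinearMap.mem_ker.mpr (hdd k x))
  let π : ∀ k, D k →L[ℝ] D k := fun k => (R k).comp (c k)
  have hπ : ∀ k x, dD k (π k x) = dD k x := fun k x => hR' k (c k x)
  have hc0 : ∀ k x, c (k + 1) (dD k x) = 0 := fun k x => Subtype.ext (hdd k x)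
  have hπ0 : ∀ k x, π (k + 1) (dD k x) = 0 := by
    intro k x
    show R (k + 1) (c (k + 1) (dD k x)) = 0
    rw [hc0, map_zero]
  let q : ∀ k, D (k + 1) →L[ℝ] (LinearMap.ker (dD (k + 1) : D (k + 1) →ₗ[ℝ] D (k + 2))) :=
    fun k => (ContinuousLinearMap.id ℝ (D (k + 1)) - π (k + 1)).codRestrict _ (fun x => by
      rw [LinearMap.mem_ker]
      show dD (k + 1) (x - π (k + 1) x) = 0
      rw [map_sub, hπ, sub_self])
  have hq : ∀ k x, (q k x : D (k + 1)) = x - π (k + 1) x := fun k x => rfl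
  let W : ∀ k, D k →L[ℝ] X k := fun k => (e k).comp ((ι k).comp (π k))
  let V : ∀ k, D (k + 1) →L[ℝ] X (k + 1) := fun k =>
    (dX k).comp ((e k).comp ((ι k).comp ((R k).comp (q k))))
  have hW : ∀ k x, W k x = e k (ι k (π k x)) := fun k x => rfl
  have hV : ∀ k x, V k x = dX k (e k (ι k (R k (q k x)))) := fun k x => rfl
  let E : ∀ k, D k →L[ℝ] X k := fun k => match k with
    | 0 => W 0
    | (k + 1) => W (k + 1) + V k
  have hE0 : ∀ x, E 0 x = W 0 x := fun x => rfl
  have hE1 : ∀ k x, E (k + 1) x = W (k + 1) x + V k x := fun k x => rfl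
  refine ⟨E, ?_, ?_⟩
  · intro k x
    cases k with
    | zero =>
      rw [hE0, hW, he]
      have h1 : dD 0 (x - π 0 x) = 0 := by rw [map_sub, hπ, sub_self]
      have h2 := h0 _ h1
      rw [← sub_eq_zero.mp h2]
    | succ k =>
      rw [hE1, map_add, hW, he, hV, hr, he, ← hι, hR', hq, ← map_add]
      congr 1
      abel
  · intro k x
    have key : dX k (E k x) = dX k (W k x) := by
      cases k with
      | zero => rw [hE0]
      | succ k => rw [hE1, map_add, hV, hddX, add_zero]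
    rw [key, hE1, hW (k + 1), hπ0, map_zero, map_zero, zero_add, hV, hW]
    have h3 : q k (dD k x) = c k x := by
      apply Subtype.ext
      rw [hq, hπ0, sub_zero]
      rfl
    rw [h3]
    rfl

end Pool.Agent.CochExt
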