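import Pool.Agent.CochExt.Ops

set_option autoImplicit false

/-! # Module BAS: test functions, weak partial derivatives (raw functions and `H n`) -/

open MeasureTheory
open scoped ContDiff

namespace Pool.Agent.CochExt

variable {n : ℕ}

theorem Test.ccs {U : Set (Eu n)} {φ : Eu n → ℝ} (h : Test U φ) : CCS φ :=
  ⟨h.1.continuous, h.2.1⟩

theorem Test.mono {U V : Set (Eu n)} (hUV : U ⊆ V) {φ : Eu n → ℝ} (h : Test U φ) : Test V φ :=
  ⟨h.1, h.2.1, h.2.2.trans hUV⟩

theorem contDiff_pd {φ : Eu n → ℝ} (h : ContDiff ℝ ∞ φ) (j : Fin n) : ContDiff ℝ ∞ (pd j φ) := by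
  have h1 : ContDiff ℝ ∞ (fderiv ℝ φ) := h.fderiv_right (m := ∞) (by simp)
  exact h1.clm_apply contDiff_const

theorem tsupport_pd (φ : Eu n → ℝ) (j : Fin n) : tsupport (pd j φ) ⊆ tsupport φ :=
  tsupport_fderiv_apply_subset ℝ _

theorem Test.pd {U : Set (Eu n)} {φ : Eu n → ℝ} (h : Test U φ) (j : Fin n) :
    Test U (pd j φ) :=
  ⟨contDiff_pd h.1 j, h.2.1.of_isClosed_subset (isClosed_tsupport _) (tsupport_pd φ j),
    (tsupport_pd φ j).trans h.2.2⟩

theorem pd_mul {χ φ : Eu n → ℝ} (hχ : ContDiff ℝ ∞ χ) (hφ : ContDiff ℝ ∞ φ) (j : Fin n) (x : Eu n) :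
    pd j (fun y => χ y * φ y) x = χ x * pd j φ x + pd j χ x * φ x := by
  unfold Pool.Agent.CochExt.pd
  rw [fderiv_fun_mul (hχ.differentiable (by simp) x) (hφ.differentiable (by simp) x)]
  simp [mul_comm]

theorem pd_comm {φ : Eu n → ℝ} (hφ : ContDiff ℝ ∞ φ) (i j : Fin n) :
    pd i (pd j φ) = pd j (pd i φ) := by
  funext x
  have hd : DifferentiableAt ℝ (fderiv ℝ φ) x :=
    (hφ.fderiv_right (m := ∞) (by simp)).differentiable (by simp) x
  have key : ∀ a b : Fin n, pd a (pd b φ) x =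
      fderiv ℝ (fderiv ℝ φ) x (EuclideanSpace.single a 1) (EuclideanSpace.single b 1) := by
    intro a b
    have : pd b φ = fun y => (fderiv ℝ φ y) (EuclideanSpace.single b 1) := rfl
    rw [this]
    unfold Pool.Agent.CochExt.pd
    rw [fderiv_clm_apply hd (differentiableAt_const _)]
    simp
  rw [key, key]
  have hs : IsSymmSndFDerivAt ℝ φ x := (hφ.contDiffAt).isSymmSndFDerivAt (by
    simp only [minSmoothness_of_isRCLikeNormedField]
    exact WithTop.coe_le_coe.mpr le_top)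
  exact hs.eq _ _

/-- `χ φ` is a test function in `U` if `φ` is one in `V` and `V ∩ tsupport χ ⊆ U` -/
theorem Test.mul {U V : Set (Eu n)} {χ φ : Eu n → ℝ} (hχ : ContDiff ℝ ∞ χ)
    (hag : ∀ x ∈ tsupport χ, x ∈ V → x ∈ U) (h : Test V φ) : Test U (fun x => χ x * φ x) := by
  refine ⟨hχ.mul h.1, h.2.1.mul_left, ?_⟩
  intro x hx
  have h1 : x ∈ tsupport χ := tsupport_mul_subset_left hx
  have h2 : x ∈ tsupport φ := tsupport_mul_subset_right hx
  exact hag x h1 (h.2.2 h2)

/-- integrability against a continuous compactly supported function, for elements of `L²(ℝⁿ)` -/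
theorem int_H (f : H n) {φ : Eu n → ℝ} (hφ : CCS φ) :
    Integrable (fun x => (f : Eu n → ℝ) x * φ x) := by
  have hm : MemLp φ 2 (volume : Measure (Eu n)) := hφ.1.memLp_of_hasCompactSupport hφ.2
  exact (Lp.memLp f).integrable_mul hm

/-- the same for `L²(U)`, for `φ` supported in `U` -/
theorem int_LL {U : Set (Eu n)} (hU : MeasurableSet U) (f : LL U) {φ : Eu n → ℝ} (hφ : CCS φ)
    (hs : tsupport φ ⊆ U) : Integrable (fun x => (f : Eu n → ℝ) x * φ x) := by
  have hm : MemLp φ 2 (volume : Measure (Eu n)) := hφ.1.memLp_of_hasCompactSupport hφ.2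
  have h1 : Integrable (fun x => (f : Eu n → ℝ) x * φ x) (volume.restrict U) :=
    (Lp.memLp f).integrable_mul (hm.restrict U)
  refine (integrableOn_iff_integrable_of_support_subset ?_).mp h1
  intro x hx
  apply hs
  apply subset_tsupport
  intro h0
  apply hx
  simp [h0]

theorem bas_setInt {U : Set (Eu n)} (f : Eu n → ℝ) {φ : Eu n → ℝ}
    (hs : tsupport φ ⊆ U) : ∫ x, f x * φ x = ∫ x in U, f x * φ x := by
  refine (setIntegral_eq_integral_of_forall_compl_eq_zero ?_).symm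
  intro x hx
  have : φ x = 0 := by
    by_contra h0
    exact hx (hs (subset_tsupport _ h0))
  simp [this]

/-- weak derivatives on `U` only depend on the functions on `U` -/
theorem WD_congr {U : Set (Eu n)} (hU : MeasurableSet U) {j : Fin n} {f f' g g' : Eu n → ℝ}
    (hf : f =ᵐ[volume.restrict U] f') (hg : g =ᵐ[volume.restrict U] g') (h : WD U j f g) :
    WD U j f' g' := by
  intro φ hφ
  have h1 := h φ hφ
  have hp : tsupport (pd j φ) ⊆ U := (tsupport_pd φ j).trans hφ.2.2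
  rw [bas_setInt f hp, bas_setInt g hφ.2.2] at h1
  rw [bas_setInt f' hp, bas_setInt g' hφ.2.2]
  rw [integral_congr_ae (g := fun x => f x * pd j φ x), h1,
    integral_congr_ae (g := fun x => g' x * φ x)]
  · filter_upwards [hg] with x hx
    rw [hx]
  · filter_upwards [hf] with x hx
    rw [hx]

theorem WD.mono {U V : Set (Eu n)} (hUV : U ⊆ V) {j : Fin n} {f g : Eu n → ℝ} (h : WD V j f g) :
    WD U j f g := fun φ hφ => h φ (hφ.mono hUV)

theorem WD_zero (U : Set (Eu n)) (j : Fin n) : WD U j ((0 : H n) : Eu n → ℝ) ((0 : H n) : Eu n → ℝ) := by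
  intro φ _
  have h0 : ∀ ψ : Eu n → ℝ, ∫ x, ((0 : H n) : Eu n → ℝ) x * ψ x = 0 := by
    intro ψ
    rw [integral_congr_ae (g := fun _ => (0 : ℝ))]
    · simp
    · filter_upwards [Lp.coeFn_zero ℝ 2 (volume : Measure (Eu n))] with x hx
      rw [hx]; simp
  rw [h0, h0]; simp

theorem bas_int_add (f f' : H n) {φ : Eu n → ℝ} (hφ : CCS φ) :
    ∫ x, ((f + f' : H n) : Eu n → ℝ) x * φ x =
      (∫ x, (f : Eu n → ℝ) x * φ x) + ∫ x, (f' : Eu n → ℝ) x * φ x := by
  rw [← integral_add (int_H f hφ) (int_H f' hφ)]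
  refine integral_congr_ae ?_
  filter_upwards [Lp.coeFn_add f f'] with x hx
  rw [hx]; simp [add_mul]

theorem bas_int_smul (c : ℝ) (f : H n) (φ : Eu n → ℝ) :
    ∫ x, ((c • f : H n) : Eu n → ℝ) x * φ x = c * ∫ x, (f : Eu n → ℝ) x * φ x := by
  rw [← integral_const_mul]
  refine integral_congr_ae ?_
  filter_upwards [Lp.coeFn_smul c f] with x hx
  rw [hx]; simp [mul_assoc]

theorem WD_add {U : Set (Eu n)} {j : Fin n} {f f' g g' : H n}
    (h : WD U j (f : Eu n → ℝ) (g : Eu n → ℝ)) (h' : WD U j (f' : Eu n → ℝ) (g' : Eu n → ℝ)) :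
    WD U j ((f + f' : H n) : Eu n → ℝ) ((g + g' : H n) : Eu n → ℝ) := by
  intro φ hφ
  rw [bas_int_add _ _ (hφ.pd j).ccs, bas_int_add _ _ hφ.ccs, h φ hφ, h' φ hφ]
  ring

theorem WD_smul {U : Set (Eu n)} {j : Fin n} {f g : H n} (c : ℝ)
    (h : WD U j (f : Eu n → ℝ) (g : Eu n → ℝ)) :
    WD U j ((c • f : H n) : Eu n → ℝ) ((c • g : H n) : Eu n → ℝ) := by
  intro φ hφ
  rw [bas_int_smul, bas_int_smul, h φ hφ]
  ring

theorem bas_int_continuous {φ : Eu n → ℝ} (hφ : CCS φ) :
    Continuous (fun f : H n => ∫ x, (f : Eu n → ℝ) x * φ x) := by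
  have hm : MemLp φ 2 (volume : Measure (Eu n)) := hφ.1.memLp_of_hasCompactSupport hφ.2
  have : (fun f : H n => ∫ x, (f : Eu n → ℝ) x * φ x) = fun f : H n => inner ℝ (hm.toLp φ) f := by
    funext f
    rw [L2.inner_def]
    refine integral_congr_ae ?_
    filter_upwards [hm.coeFn_toLp] with x hx
    rw [hx]
    simp
  rw [this]
  exact continuous_const.inner continuous_id

/-- two elements of `L²(ℝⁿ)` with the same integrals against test functions in the open set `U`
agree a.e. on `U` (`IsOpen.ae_eq_zero_of_integral_contDiff_smul_eq_zero`) -/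
theorem ae_eq_of_test {U : Set (Eu n)} (hU : IsOpen U) (f g : H n)
    (h : ∀ φ : Eu n → ℝ, Test U φ → ∫ x, (f : Eu n → ℝ) x * φ x = ∫ x, (g : Eu n → ℝ) x * φ x) :
    (f : Eu n → ℝ) =ᵐ[volume.restrict U] g := by
  have hl : LocallyIntegrableOn (fun x => (f : Eu n → ℝ) x - (g : Eu n → ℝ) x) U volume := by
    have h1 : LocallyIntegrable (f : Eu n → ℝ) volume := (Lp.memLp f).locallyIntegrable (by norm_num)
    have h2 : LocallyIntegrable (g : Eu n → ℝ) volume := (Lp.memLp g).locallyIntegrable (by norm_num)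
    exact (h1.sub h2).locallyIntegrableOn U
  have h3 := hU.ae_eq_zero_of_integral_contDiff_smul_eq_zero hl (by
    intro φ h1 h2 h3
    have hT : Test U φ := ⟨h1, h2, h3⟩
    have e : (fun x => φ x • ((f : Eu n → ℝ) x - (g : Eu n → ℝ) x)) =
        fun x => (f : Eu n → ℝ) x * φ x - (g : Eu n → ℝ) x * φ x := by
      funext x; simp; ring
    rw [e, integral_sub (int_H f hT.ccs) (int_H g hT.ccs), h φ hT, sub_self])
  rw [Filter.EventuallyEq, ae_restrict_iff' hU.measurableSet]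
  filter_upwards [h3] with x hx hxU
  exact sub_eq_zero.mp (hx hxU)

theorem WD_unique {U : Set (Eu n)} (hU : IsOpen U) {j : Fin n} {f : Eu n → ℝ} {g g' : H n}
    (h : WD U j f (g : Eu n → ℝ)) (h' : WD U j f (g' : Eu n → ℝ)) :
    (g : Eu n → ℝ) =ᵐ[volume.restrict U] g' := by
  refine ae_eq_of_test hU g g' ?_
  intro φ hφ
  have h1 := h φ hφ
  have h2 := h' φ hφ
  linarith

/-- weak differentiation is a closed relation in `L²(ℝⁿ)` -/
theorem WD_closed (U : Set (Eu n)) (j : Fin n) :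
    IsClosed {p : H n × H n | WD U j (p.1 : Eu n → ℝ) (p.2 : Eu n → ℝ)} := by
  have : {p : H n × H n | WD U j (p.1 : Eu n → ℝ) (p.2 : Eu n → ℝ)} =
      ⋂ (φ : Eu n → ℝ) (_ : Test U φ), {p : H n × H n |
        ∫ x, (p.1 : Eu n → ℝ) x * pd j φ x = - ∫ x, (p.2 : Eu n → ℝ) x * φ x} := by
    ext p
    simp [WD]
  rw [this]
  refine isClosed_iInter fun φ => isClosed_iInter fun hφ => ?_
  refine isClosed_eq ?_ ?_
  · exact (bas_int_continuous (hφ.pd j).ccs).comp continuous_fst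
  · exact ((bas_int_continuous hφ.ccs).comp continuous_snd).neg

end Pool.Agent.CochExt
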