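import Pool.Agent.CochExt.Wdf

set_option autoImplicit false

/-! # Module BR: zero extension and restriction between `L²(U)` and `L²(ℝⁿ)` -/

open MeasureTheory
open scoped ContDiff

namespace Pool.Agent.CochExt

variable {n : ℕ}

/-- the zero extension of one function -/
noncomputable def brZ {U : Set (Eu n)} (hU : MeasurableSet U) (f : LL U) : H n :=
  ((memLp_indicator_iff_restrict hU).2 (Lp.memLp f)).toLp (U.indicator (f : Eu n → ℝ))

theorem brZ_ae {U : Set (Eu n)} (hU : MeasurableSet U) (f : LL U) :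
    (brZ hU f : Eu n → ℝ) =ᵐ[volume] U.indicator (f : Eu n → ℝ) :=
  MemLp.coeFn_toLp _

theorem br_ind {U : Set (Eu n)} (hU : MeasurableSet U) {f g : Eu n → ℝ}
    (h : f =ᵐ[volume.restrict U] g) : U.indicator f =ᵐ[volume] U.indicator g := by
  rw [Filter.EventuallyEq, ae_restrict_iff' hU] at h
  filter_upwards [h] with x hx
  by_cases hxU : x ∈ U
  · simp [hxU, hx hxU]
  · simp [hxU]

theorem brZ_add {U : Set (Eu n)} (hU : MeasurableSet U) (f g : LL U) :
    brZ hU (f + g) = brZ hU f + brZ hU g := by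
  apply Lp.ext
  filter_upwards [brZ_ae hU (f + g), brZ_ae hU f, brZ_ae hU g, Lp.coeFn_add (brZ hU f) (brZ hU g),
    br_ind hU (Lp.coeFn_add f g)] with x h1 h2 h3 h4 h5
  rw [h1, h4, Pi.add_apply, h2, h3, h5]
  by_cases hx : x ∈ U <;> simp [hx]

theorem brZ_smul {U : Set (Eu n)} (hU : MeasurableSet U) (c : ℝ) (f : LL U) :
    brZ hU (c • f) = c • brZ hU f := by
  apply Lp.ext
  filter_upwards [brZ_ae hU (c • f), brZ_ae hU f, Lp.coeFn_smul c (brZ hU f),
    br_ind hU (Lp.coeFn_smul c f)] with x h1 h2 h4 h5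
  rw [h1, h4, Pi.smul_apply, h2, h5]
  by_cases hx : x ∈ U <;> simp [hx]

theorem brZ_norm {U : Set (Eu n)} (hU : MeasurableSet U) (f : LL U) : ‖brZ hU f‖ = ‖f‖ := by
  rw [Lp.norm_def, Lp.norm_def, eLpNorm_congr_ae (brZ_ae hU f),
    eLpNorm_indicator_eq_eLpNorm_restrict hU]

/-- zero extension exists (`MemLp.toLp` of the indicator) -/
theorem exists_zx {U : Set (Eu n)} (hU : MeasurableSet U) : ∃ Z : LL U →L[ℝ] H n, ∀ f : LL U,
    (Z f : Eu n → ℝ) =ᵐ[volume.restrict U] f ∧ (Z f : Eu n → ℝ) =ᵐ[volume.restrict Uᶜ] 0 := by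
  let L : LL U →ₗ[ℝ] H n :=
    { toFun := brZ hU
      map_add' := brZ_add hU
      map_smul' := brZ_smul hU }
  refine ⟨L.mkContinuous 1 (fun f => ?_), fun f => ⟨?_, ?_⟩⟩
  · rw [one_mul]
    exact (brZ_norm hU f).le
  · change (brZ hU f : Eu n → ℝ) =ᵐ[volume.restrict U] f
    rw [Filter.EventuallyEq, ae_restrict_iff' hU]
    filter_upwards [brZ_ae hU f] with x hx hxU
    rw [hx, Set.indicator_of_mem hxU]
  · change (brZ hU f : Eu n → ℝ) =ᵐ[volume.restrict Uᶜ] 0
    rw [Filter.EventuallyEq, ae_restrict_iff' hU.compl]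
    filter_upwards [brZ_ae hU f] with x hx hxU
    rw [hx, Set.indicator_of_notMem hxU]
    rfl

open Classical in
/-- zero extension -/
noncomputable def zx (U : Set (Eu n)) : LL U →L[ℝ] H n :=
  if h : MeasurableSet U then (exists_zx h).choose else 0

theorem zx_ae {U : Set (Eu n)} (hU : MeasurableSet U) (f : LL U) :
    (zx U f : Eu n → ℝ) =ᵐ[volume.restrict U] f := by
  rw [zx, dif_pos hU]
  exact ((exists_zx hU).choose_spec f).1

theorem zx_compl {U : Set (Eu n)} (hU : MeasurableSet U) (f : LL U) :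
    (zx U f : Eu n → ℝ) =ᵐ[volume.restrict Uᶜ] 0 := by
  rw [zx, dif_pos hU]
  exact ((exists_zx hU).choose_spec f).2

/-- restriction -/
noncomputable def rs (U : Set (Eu n)) : H n →L[ℝ] LL U := LpToLpRestrictCLM (Eu n) ℝ ℝ volume 2 U

theorem rs_ae (U : Set (Eu n)) (f : H n) : (rs U f : Eu n → ℝ) =ᵐ[volume.restrict U] f :=
  LpToLpRestrictCLM_coeFn ℝ U f

theorem rs_zx {U : Set (Eu n)} (hU : MeasurableSet U) (f : LL U) : rs U (zx U f) = f := by
  apply Lp.ext
  exact (rs_ae U (zx U f)).trans (zx_ae hU f)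

theorem rs_eq_iff {U : Set (Eu n)} (f g : H n) :
    rs U f = rs U g ↔ (f : Eu n → ℝ) =ᵐ[volume.restrict U] g := by
  constructor
  · intro h
    exact (rs_ae U f).symm.trans ((h ▸ Filter.EventuallyEq.refl _ _ :
      (rs U f : Eu n → ℝ) =ᵐ[volume.restrict U] rs U g).trans (rs_ae U g))
  · intro h
    apply Lp.ext
    exact (rs_ae U f).trans (h.trans (rs_ae U g).symm)

theorem ll_eq_iff {U : Set (Eu n)} (f g : LL U) :
    f = g ↔ (f : Eu n → ℝ) =ᵐ[volume.restrict U] g := by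
  constructor
  · intro h
    rw [h]
  · intro h
    exact Lp.ext h

theorem br_zx_ind {U : Set (Eu n)} (hU : MeasurableSet U) (f : LL U) :
    (zx U f : Eu n → ℝ) =ᵐ[volume] U.indicator (f : Eu n → ℝ) := by
  have h1 := zx_ae hU f
  have h2 := zx_compl hU f
  rw [Filter.EventuallyEq, ae_restrict_iff' hU] at h1
  rw [Filter.EventuallyEq, ae_restrict_iff' hU.compl] at h2
  filter_upwards [h1, h2] with x hx1 hx2
  by_cases hx : x ∈ U
  · rw [Set.indicator_of_mem hx, hx1 hx]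
  · rw [Set.indicator_of_notMem hx, hx2 hx]
    rfl

theorem inner_zx {U : Set (Eu n)} (hU : MeasurableSet U) (f g : LL U) :
    inner ℝ (zx U f) (zx U g) = (inner ℝ f g : ℝ) := by
  rw [L2.inner_def, L2.inner_def, ← integral_indicator hU]
  apply integral_congr_ae
  filter_upwards [br_zx_ind hU f, br_zx_ind hU g] with x h1 h2
  rw [h1, h2]
  by_cases hx : x ∈ U <;> simp [hx]

/-- integrals against functions vanishing outside `U` -/
theorem br_int {U : Set (Eu n)} (hU : MeasurableSet U) {f g ψ : Eu n → ℝ}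
    (h : f =ᵐ[volume.restrict U] g) (hψ : ∀ x, x ∉ U → ψ x = 0) :
    ∫ x, f x * ψ x = ∫ x, g x * ψ x := by
  apply integral_congr_ae
  rw [Filter.EventuallyEq, ae_restrict_iff' hU] at h
  filter_upwards [h] with x hx
  by_cases hxU : x ∈ U
  · rw [hx hxU]
  · rw [hψ x hxU, mul_zero, mul_zero]

theorem br_test_zero {U : Set (Eu n)} {φ : Eu n → ℝ} (hφ : Test U φ) :
    ∀ x, x ∉ U → φ x = 0 := fun x hx => by
  by_contra h
  exact hx (hφ.2.2 (subset_tsupport φ h))

theorem br_pd_zero {U : Set (Eu n)} {φ : Eu n → ℝ} (hφ : Test U φ) (j : Fin n) :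
    ∀ x, x ∉ U → pd j φ x = 0 := fun x hx => by
  have h0 : x ∉ tsupport φ := fun h => hx (hφ.2.2 h)
  have h1 : fderiv ℝ φ x = 0 := by
    by_contra h
    exact h0 (tsupport_fderiv_subset ℝ (subset_tsupport _ h))
  simp [pd, h1]

theorem br_WD {U : Set (Eu n)} (hU : MeasurableSet U) {j : Fin n} {f f' g g' : Eu n → ℝ}
    (hf : f =ᵐ[volume.restrict U] f') (hg : g =ᵐ[volume.restrict U] g') :
    WD U j f g ↔ WD U j f' g' := by
  constructor
  · intro h φ hφ
    rw [← br_int hU hf (br_pd_zero hφ j), ← br_int hU hg (br_test_zero hφ)]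
    exact h φ hφ
  · intro h φ hφ
    rw [br_int hU hf (br_pd_zero hφ j), br_int hU hg (br_test_zero hφ)]
    exact h φ hφ

theorem br_WDF {U : Set (Eu n)} (hU : MeasurableSet U) {w w' u u' : Finset (Fin n) → Eu n → ℝ}
    (hw : ∀ S, w S =ᵐ[volume.restrict U] w' S) (hu : ∀ S, u S =ᵐ[volume.restrict U] u' S) :
    WDF U w u ↔ WDF U w' u' := by
  have key : ∀ φ : Eu n → ℝ, Test U φ → ∀ S : Finset (Fin n),
      (∑ i ∈ S, sg i S * ∫ x, w (S.erase i) x * pd i φ x =
        ∑ i ∈ S, sg i S * ∫ x, w' (S.erase i) x * pd i φ x) ∧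
      (∫ x, u S x * φ x = ∫ x, u' S x * φ x) := by
    intro φ hφ S
    refine ⟨Finset.sum_congr rfl (fun i _ => ?_), br_int hU (hu S) (br_test_zero hφ)⟩
    rw [br_int hU (hw (S.erase i)) (br_pd_zero hφ i)]
  constructor
  · intro h φ hφ S
    rw [← (key φ hφ S).1, ← (key φ hφ S).2]
    exact h φ hφ S
  · intro h φ hφ S
    rw [(key φ hφ S).1, (key φ hφ S).2]
    exact h φ hφ S

theorem WD_zx {U : Set (Eu n)} (hU : MeasurableSet U) {j : Fin n} (f g : LL U) :
    WD U j (zx U f : Eu n → ℝ) (zx U g : Eu n → ℝ) ↔ WD U j (f : Eu n → ℝ) (g : Eu n → ℝ) :=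
  br_WD hU (zx_ae hU f) (zx_ae hU g)

theorem WD_rs {U : Set (Eu n)} (hU : MeasurableSet U) {j : Fin n} (f g : H n) :
    WD U j (rs U f : Eu n → ℝ) (rs U g : Eu n → ℝ) ↔ WD U j (f : Eu n → ℝ) (g : Eu n → ℝ) :=
  br_WD hU (rs_ae U f) (rs_ae U g)

/-- forms -/
theorem WDF_zx {U : Set (Eu n)} (hU : MeasurableSet U) (w u : Finset (Fin n) → LL U) :
    WDH U (fun S => zx U (w S)) (fun S => zx U (u S)) ↔
      WDF U (fun S => (w S : Eu n → ℝ)) (fun S => (u S : Eu n → ℝ)) :=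
  br_WDF hU (fun S => zx_ae hU (w S)) (fun S => zx_ae hU (u S))

theorem WDF_rs {U : Set (Eu n)} (hU : MeasurableSet U) (w u : FH n) :
    WDF U (fun S => (rs U (w S) : Eu n → ℝ)) (fun S => (rs U (u S) : Eu n → ℝ)) ↔ WDH U w u :=
  br_WDF hU (fun S => rs_ae U (w S)) (fun S => rs_ae U (u S))

/-- restriction from `V` to `U` -/
noncomputable def re (V U : Set (Eu n)) : LL V →L[ℝ] LL U := (rs U).comp (zx V)

theorem re_ae {V U : Set (Eu n)} (hV : MeasurableSet V) (hUV : U ⊆ V) (f : LL V) :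
    (re V U f : Eu n → ℝ) =ᵐ[volume.restrict U] f := by
  have h1 : (re V U f : Eu n → ℝ) =ᵐ[volume.restrict U] (zx V f : Eu n → ℝ) := rs_ae U (zx V f)
  have h2 : (zx V f : Eu n → ℝ) =ᵐ[volume.restrict U] f :=
    (zx_ae hV f).filter_mono (ae_mono (Measure.restrict_mono hUV le_rfl))
  exact h1.trans h2

end Pool.Agent.CochExt
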