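import Pool.Agent.CochExt.Bas

set_option autoImplicit false

/-! # Module CCT: convolution with test functions.
`cc k φ = k ⋆[ContinuousLinearMap.mul ℝ ℝ] φ`; use `HasCompactSupport.contDiff_convolution_right`,
`HasCompactSupport.hasFDerivAt_convolution_right` (or `..._left`). -/

open MeasureTheory
open scoped ContDiff Pointwise

namespace Pool.Agent.CochExt

variable {n : ℕ}

theorem cct_eq (k φ : Eu n → ℝ) :
    cc k φ = convolution k φ (ContinuousLinearMap.mul ℝ ℝ) volume := by
  ext1 x
  rfl

theorem cct_comm (k φ : Eu n → ℝ) : cc k φ = cc φ k := by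
  ext1 x
  unfold cc
  rw [← integral_sub_left_eq_self (fun z => φ z * k (x - z)) volume x]
  congr 1
  ext1 z
  rw [sub_sub_cancel, mul_comm]

theorem cc_contDiff {k φ : Eu n → ℝ} (hk : Integrable k) (hφ : Test Set.univ φ) :
    ContDiff ℝ ∞ (cc k φ) := by
  rw [cct_eq]
  exact hφ.2.1.contDiff_convolution_right _ hk.locallyIntegrable hφ.1

theorem pd_cc {k φ : Eu n → ℝ} (hk : Integrable k) (hφ : Test Set.univ φ) (j : Fin n) :
    pd j (cc k φ) = cc k (pd j φ) := by
  ext1 x
  have h1 : ContDiff ℝ 1 φ := hφ.1.of_le (by exact_mod_cast le_top)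
  have h := hφ.2.1.hasFDerivAt_convolution_right (μ := volume) (ContinuousLinearMap.mul ℝ ℝ)
    hk.locallyIntegrable h1 x
  unfold pd
  rw [cct_eq, h.fderiv, convolution_precompR_apply _ hk.locallyIntegrable (hφ.2.1.fderiv ℝ)
    (h1.continuous_fderiv (by norm_num)), cct_eq]

theorem pd_cc_left {k φ : Eu n → ℝ} (hk : Test Set.univ k) (hφ : Test Set.univ φ) (j : Fin n) :
    cc k (pd j φ) = cc (pd j k) φ := by
  have hki : Integrable k := hk.1.continuous.integrable_of_hasCompactSupport hk.2.1
  have hφi : Integrable φ := hφ.1.continuous.integrable_of_hasCompactSupport hφ.2.1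
  rw [← pd_cc hki hφ, cct_comm k φ, pd_cc hφi hk, cct_comm]

/-- if `V + tsupport k ⊆ D` then `cc k` maps test functions in `V` to test functions in `D` -/
theorem cc_test {k φ : Eu n → ℝ} {D V : Set (Eu n)} (hk : Integrable k)
    (hkc : HasCompactSupport k) (hD : ∀ x ∈ V, ∀ z ∈ tsupport k, x + z ∈ D) (hφ : Test V φ) :
    Test D (cc k φ) := by
  have hK : IsCompact (tsupport k + tsupport φ) := hkc.isCompact.add hφ.2.1.isCompact
  have hs : Function.support (cc k φ) ⊆ tsupport k + tsupport φ := by
    rw [cct_eq]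
    refine (support_convolution_subset (μ := volume) (ContinuousLinearMap.mul ℝ ℝ)).trans ?_
    exact Set.add_subset_add subset_closure subset_closure
  have hts : tsupport (cc k φ) ⊆ tsupport k + tsupport φ :=
    closure_minimal hs hK.isClosed
  refine ⟨cc_contDiff hk (hφ.mono (Set.subset_univ _)), ?_, ?_⟩
  · exact HasCompactSupport.of_support_subset_isCompact hK hs
  · intro x hx
    obtain ⟨z, hz, y, hy, rfl⟩ := Set.mem_add.mp (hts hx)
    rw [add_comm]
    exact hD y (hφ.2.2 hy) z hz

/-- `cc` is linear in the function -/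
theorem cc_sub_left {k k' φ : Eu n → ℝ} (hk : Integrable k) (hk' : Integrable k')
    (hφ : CCS φ) (x : Eu n) : cc (fun z => k z - k' z) φ x = cc k φ x - cc k' φ x := by
  have h1 : ∀ {l : Eu n → ℝ}, Integrable l → Integrable (fun z => l z * φ (x - z)) := by
    intro l hl
    exact hφ.2.convolutionExists_right (μ := volume) (ContinuousLinearMap.mul ℝ ℝ)
      hl.locallyIntegrable hφ.1 x
  unfold cc
  rw [← integral_sub (h1 hk) (h1 hk')]
  congr 1
  ext1 z
  ring

end Pool.Agent.CochExt
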