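import Mathlib

set_option autoImplicit false

/-! # Module CR: abstract closed range.
`K` maps `Z` to `Z`.  `K = F + G` on `Z` with `F` of finite rank and `‖G‖ < 1` (project onto the span of a finite `1/2`-net of the
image of the unit ball).  `(1 - K)(1 - G)⁻¹ = 1 - F (1 - G)⁻¹`, so the range of `1 - K` contains the kernel of
the finite rank operator `F (1 - G)⁻¹`, a closed subspace of finite codimension of `Z`.  A subspace of `Z` containing a closed
subspace of finite codimension is closed. -/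

namespace Pool.Agent.CochExt

theorem closed_of_finite_codim {Z : Type*} [NormedAddCommGroup Z] [NormedSpace ℝ Z]
    (R W : Submodule ℝ Z) (hW : IsClosed (W : Set Z)) (hWR : W ≤ R)
    [FiniteDimensional ℝ (Z ⧸ W)] : IsClosed (R : Set Z) := by
  have : IsClosed (W : Set Z) := hW
  have h1 : IsClosed ((R.map W.mkQ : Submodule ℝ (Z ⧸ W)) : Set (Z ⧸ W)) :=
    Submodule.closed_of_finiteDimensional _
  have h2 : (R : Set Z) = W.mkQ ⁻¹' ((R.map W.mkQ : Submodule ℝ (Z ⧸ W)) : Set (Z ⧸ W)) := by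
    have h3 : (R.map W.mkQ).comap W.mkQ = R := by
      rw [Submodule.comap_map_mkQ]
      exact sup_eq_right.2 hWR
    rw [← Submodule.comap_coe, h3]
  rw [h2]
  exact h1.preimage W.mkQL.continuous

theorem cr_split {Y : Type*} [NormedAddCommGroup Y] [InnerProductSpace ℝ Y]
    (K : Y →L[ℝ] Y) (hK : IsCompactOperator K) :
    ∃ V : Submodule ℝ Y, ∃ _ : FiniteDimensional ℝ V,
      ‖K - (V.subtypeL.comp V.orthogonalProjectionOnto).comp K‖ ≤ 1 / 2 := by
  have hc : IsCompact (closure (K '' Metric.closedBall 0 1)) :=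
    hK.isCompact_closure_image_closedBall (f := (K : Y →ₗ[ℝ] Y)) 1
  obtain ⟨t, -, htf, hcov⟩ := hc.finite_cover_balls (e := 1 / 2) (by norm_num)
  have : FiniteDimensional ℝ (Submodule.span ℝ t) := FiniteDimensional.span_of_finite ℝ htf
  refine ⟨Submodule.span ℝ t, inferInstance, ?_⟩
  set V := Submodule.span ℝ t
  apply ContinuousLinearMap.opNorm_le_of_unit_norm (by norm_num)
  intro x hx
  have hxm : K x ∈ closure (K '' Metric.closedBall 0 1) :=
    subset_closure ⟨x, by simp [hx], rfl⟩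
  obtain ⟨v, hv, hvx⟩ := Set.mem_iUnion₂.1 (hcov hxm)
  have hvV : v ∈ V := Submodule.subset_span hv
  have hmin := Submodule.starProjection_minimal (U := V) (K x)
  rw [Submodule.starProjection_apply] at hmin
  have h1 : ‖K x - (V.orthogonalProjectionOnto (K x) : Y)‖ ≤ ‖K x - v‖ := by
    rw [hmin]
    apply ciInf_le (f := fun w : V => ‖K x - (w : Y)‖) ⟨0, by rintro _ ⟨w, rfl⟩; positivity⟩ ⟨v, hvV⟩
  have h2 : ‖K x - v‖ < 1 / 2 := by rwa [← dist_eq_norm]
  simpa using (h1.trans h2.le)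

theorem cr_range {Y : Type*} [NormedAddCommGroup Y] [InnerProductSpace ℝ Y] [CompleteSpace Y]
    (K : Y →L[ℝ] Y) (hK : IsCompactOperator K) :
    ∃ W : Submodule ℝ Y, IsClosed (W : Set Y) ∧ FiniteDimensional ℝ (Y ⧸ W) ∧
      ∀ w ∈ W, ∃ z : Y, z - K z = w := by
  obtain ⟨V, hV, hn⟩ := cr_split K hK
  set F : Y →L[ℝ] Y := (V.subtypeL.comp V.orthogonalProjectionOnto).comp K with hF
  set G : Y →L[ℝ] Y := K - F with hG
  have hG1 : ‖G‖ < 1 := lt_of_le_of_lt hn (by norm_num)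
  set U : (Y →L[ℝ] Y)ˣ := Units.oneSub G hG1 with hU
  have hUv : (U : Y →L[ℝ] Y) = 1 - G := Units.val_oneSub G hG1
  set E : Y →L[ℝ] V := (V.orthogonalProjectionOnto.comp K).comp (↑U⁻¹ : Y →L[ℝ] Y) with hE
  refine ⟨LinearMap.ker (E : Y →ₗ[ℝ] V), E.isClosed_ker, ?_, ?_⟩
  · exact (LinearMap.quotKerEquivRange (E : Y →ₗ[ℝ] V)).symm.finiteDimensional
  · intro w hw
    refine ⟨(↑U⁻¹ : Y →L[ℝ] Y) w, ?_⟩
    have h1 : (U : Y →L[ℝ] Y) ((↑U⁻¹ : Y →L[ℝ] Y) w) = w := by
      have h0 : ((U : Y →L[ℝ] Y) * (↑U⁻¹ : Y →L[ℝ] Y)) w = w := by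
        rw [Units.mul_inv]; rfl
      exact h0
    have h2 : V.orthogonalProjectionOnto (K ((↑U⁻¹ : Y →L[ℝ] Y) w)) = 0 := by
      have := LinearMap.mem_ker.1 hw
      simpa [hE] using this
    have h3 : F ((↑U⁻¹ : Y →L[ℝ] Y) w) = 0 := by
      simp [hF, h2]
    have h4 : K ((↑U⁻¹ : Y →L[ℝ] Y) w) = G ((↑U⁻¹ : Y →L[ℝ] Y) w) := by
      rw [hG, sub_apply, h3, sub_zero]
    rw [h4]
    rw [hUv, sub_apply, one_apply_eq_self] at h1
    exact h1

theorem closed_of_compact {X : Type*} [NormedAddCommGroup X] [InnerProductSpace ℝ X]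
    [CompleteSpace X] (K : X →L[ℝ] X) (hK : IsCompactOperator K) (Z R : Submodule ℝ X)
    (hZ : IsClosed (Z : Set X)) (hRZ : R ≤ Z) (h : ∀ z ∈ Z, z - K z ∈ R) :
    IsClosed (R : Set X) := by
  have : CompleteSpace Z := hZ.completeSpace_coe
  have hKZ : ∀ z ∈ Z, K z ∈ Z := by
    intro z hz
    have h1 := hRZ (h z hz)
    have h2 := Z.sub_mem hz h1
    simpa using h2
  set K' : Z →L[ℝ] Z := (K.comp Z.subtypeL).codRestrict Z (fun z => hKZ z z.2) with hK'
  have hKc : IsCompactOperator K' := by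
    have h1 : IsCompactOperator (K.comp Z.subtypeL) := hK.comp_clm Z.subtypeL
    exact h1.codRestrict (V := Z) (fun z => hKZ z z.2) hZ
  obtain ⟨W, hW, hfin, hr⟩ := cr_range K' hKc
  have h1 : IsClosed ((R.comap Z.subtype : Submodule ℝ Z) : Set Z) := by
    apply closed_of_finite_codim _ W hW
    intro w hw
    obtain ⟨z, hz⟩ := hr w hw
    rw [Submodule.mem_comap, ← hz]
    exact h z z.2
  have h2 : (R : Set X) = (fun z : Z => (z : X)) '' ((R.comap Z.subtype : Submodule ℝ Z) : Set Z) := by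
    ext x
    constructor
    · intro hx
      exact ⟨⟨x, hRZ hx⟩, hx, rfl⟩
    · rintro ⟨z, hz, rfl⟩
      exact hz
  rw [h2]
  exact hZ.isClosedEmbedding_subtypeVal.isClosedMap _ h1

end Pool.Agent.CochExt
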