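import Pool.Agent.CochExt.Kg
import Pool.Agent.CochExt.Cct

set_option autoImplicit false

/-! # Module KID: the divergence identity.
`cc (kap ρ a) φ (x) = - ∫_0^1 ∫ v_a ρ(v) φ(x - t v)` (`cc_KK`), `pd a` goes on `φ` (`pd_cc`),
`∑_a v_a ∂_a φ (x - t v) = - d/dt φ(x - t v)`, fundamental theorem of calculus. -/

open MeasureTheory
open scoped ContDiff

namespace Pool.Agent.CochExt

variable {n : ℕ}

theorem kap_ccs {ρ : Eu n → ℝ} (hρ : CCS ρ) (a : Fin n) : CCS (fun v : Eu n => - (v a * ρ v)) := by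
  have hc : Continuous (fun v : Eu n => v a) := by fun_prop
  refine ⟨(hc.mul hρ.1).neg, ?_⟩
  have h := (HasCompactSupport.mul_left (f := fun v : Eu n => - v a) hρ.2)
  refine h.mono ?_
  intro v hv
  simp only [Function.mem_support, ne_eq] at hv ⊢
  intro h0
  apply hv
  have : -(v a) * ρ v = 0 := h0
  linarith

theorem kap_integrable {ρ : Eu n → ℝ} (hρ : CCS ρ) (a : Fin n) : Integrable (kap ρ a) :=
  KK_integrable (kap_ccs hρ a)

theorem kap_compact {ρ : Eu n → ℝ} (hρ : CCS ρ) (a : Fin n) : HasCompactSupport (kap ρ a) :=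
  KK_compact (kap_ccs hρ a)

/-- the support of the kernel -/
theorem kap_cone {ρ : Eu n → ℝ} (hρ : CCS ρ) {D : Set (Eu n)}
    (hcone : ∀ x ∈ D, ∀ v ∈ tsupport ρ, ∀ t ∈ Set.Icc (0 : ℝ) 1, x + t • v ∈ D) (a : Fin n) :
    ∀ x ∈ D, ∀ z ∈ tsupport (kap ρ a), x + z ∈ D := by
  intro x hx z hz
  obtain ⟨t, ht, v, hv, rfl⟩ := KK_tsupport (kap_ccs hρ a) hz
  refine hcone x hx v ?_ t ht
  refine closure_mono ?_ hv
  intro w hw h0
  apply hw
  simp [h0]

theorem kid_sum (φ : Eu n → ℝ) (y v : Eu n) : ∑ a, v a * pd a φ y = fderiv ℝ φ y v := by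
  have h : v = ∑ a, v a • EuclideanSpace.single a (1 : ℝ) := by
    have := (EuclideanSpace.basisFun (Fin n) ℝ).sum_repr v
    simpa using this.symm
  conv_rhs => rw [h]
  rw [map_sum]
  refine Finset.sum_congr rfl fun a _ => ?_
  rw [map_smul, smul_eq_mul]
  rfl

theorem kid_int {g ψ : Eu n → ℝ} (hg : CCS g) (hψ : CCS ψ) (x : Eu n) :
    Integrable (fun p : ℝ × Eu n => g p.2 * ψ (x - p.1 • p.2))
      ((volume.restrict (Set.Ioo (0 : ℝ) 1)).prod volume) := by
  obtain ⟨C, hC⟩ := hψ.2.exists_bound_of_continuous hψ.1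
  have hgi : Integrable g := hg.1.integrable_of_hasCompactSupport hg.2
  have h1 : Integrable (fun p : ℝ × Eu n => g p.2 * C)
      ((volume.restrict (Set.Ioo (0 : ℝ) 1)).prod volume) :=
    (hgi.comp_snd (μ := volume.restrict (Set.Ioo (0 : ℝ) 1))).mul_const C
  refine h1.mono ?_ ?_
  · refine Continuous.aestronglyMeasurable ?_
    refine (hg.1.comp continuous_snd).mul (hψ.1.comp ?_)
    exact continuous_const.sub (continuous_fst.smul continuous_snd)
  · refine Filter.Eventually.of_forall fun p => ?_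
    rw [norm_mul, norm_mul]
    refine mul_le_mul_of_nonneg_left ?_ (norm_nonneg _)
    exact (hC _).trans (Real.le_norm_self C)

theorem kid_ftc {φ : Eu n → ℝ} (hφ : ContDiff ℝ ∞ φ) (x v : Eu n) :
    ∫ t in Set.Ioo (0 : ℝ) 1, -(fderiv ℝ φ (x - t • v) v) = φ (x - v) - φ x := by
  rw [← integral_Ioc_eq_integral_Ioo, ← intervalIntegral.integral_of_le zero_le_one]
  have hd : ∀ t : ℝ, HasDerivAt (fun t : ℝ => φ (x - t • v)) (-(fderiv ℝ φ (x - t • v) v)) t := by
    intro t
    have h1 : HasFDerivAt φ (fderiv ℝ φ (x - t • v)) (x - t • v) :=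
      (hφ.differentiable (by simp) _).hasFDerivAt
    have h2 : HasDerivAt (fun t : ℝ => x - t • v) (-v) t := by
      have := ((hasDerivAt_id t).smul_const v).const_sub x
      simpa using this
    have h3 := h1.comp_hasDerivAt t h2
    rw [map_neg] at h3
    exact h3
  have hc : Continuous (fun t : ℝ => -(fderiv ℝ φ (x - t • v) v)) := by
    have h1 : Continuous (fderiv ℝ φ) := hφ.continuous_fderiv (by simp)
    have h2 : Continuous (fun t : ℝ => x - t • v) :=
      continuous_const.sub (continuous_id.smul continuous_const)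
    exact ((h1.comp h2).clm_apply continuous_const).neg
  rw [intervalIntegral.integral_eq_sub_of_hasDerivAt (fun t _ => hd t) (hc.intervalIntegrable 0 1)]
  simp

theorem kap_id {ρ φ : Eu n → ℝ} (hρ : Test Set.univ ρ) (h1 : ∫ x, ρ x = 1)
    (hφ : Test Set.univ φ) (x : Eu n) :
    ∑ a, pd a (cc (kap ρ a) φ) x = cc ρ φ x - φ x := by
  have hρc := hρ.ccs
  set M : Measure (ℝ × Eu n) := (volume.restrict (Set.Ioo (0 : ℝ) 1)).prod volume with hM
  have step1 : ∀ a : Fin n, pd a (cc (kap ρ a) φ) x =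
      ∫ p, (-(p.2 a * ρ p.2)) * pd a φ (x - p.1 • p.2) ∂M := by
    intro a
    rw [pd_cc (kap_integrable hρc a) hφ a]
    unfold kap
    rw [cc_KK (kap_ccs hρc a) (hφ.pd a).ccs x, hM,
      integral_prod _ (kid_int (kap_ccs hρc a) (hφ.pd a).ccs x)]
  have hint : ∀ a ∈ (Finset.univ : Finset (Fin n)),
      Integrable (fun p : ℝ × Eu n => (-(p.2 a * ρ p.2)) * pd a φ (x - p.1 • p.2)) M :=
    fun a _ => kid_int (kap_ccs hρc a) (hφ.pd a).ccs x
  have hsum : ∀ p : ℝ × Eu n, ∑ a, (-(p.2 a * ρ p.2)) * pd a φ (x - p.1 • p.2) =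
      ρ p.2 * (-(fderiv ℝ φ (x - p.1 • p.2) p.2)) := by
    intro p
    rw [← kid_sum, ← Finset.sum_neg_distrib, Finset.mul_sum]
    refine Finset.sum_congr rfl fun a _ => ?_
    ring
  have hH : Integrable (fun p : ℝ × Eu n => ρ p.2 * (-(fderiv ℝ φ (x - p.1 • p.2) p.2))) M := by
    have := integrable_finsetSum _ hint
    refine this.congr (Filter.Eventually.of_forall fun p => ?_)
    exact hsum p
  rw [Finset.sum_congr rfl (fun a _ => step1 a), ← integral_finsetSum _ hint]
  rw [integral_congr_ae (Filter.Eventually.of_forall hsum), hM, integral_prod_symm _ (hM ▸ hH)]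
  have hin : ∀ v : Eu n, ∫ t in Set.Ioo (0 : ℝ) 1, ρ v * (-(fderiv ℝ φ (x - t • v) v)) =
      ρ v * φ (x - v) - ρ v * φ x := by
    intro v
    rw [integral_const_mul, kid_ftc hφ.1]
    ring
  simp only [hin]
  have hi1 : Integrable (fun v => ρ v * φ (x - v)) := by
    have hc : CCS (fun v => ρ v * φ (x - v)) := by
      refine ⟨hρc.1.mul (hφ.ccs.1.comp (continuous_const.sub continuous_id)), hρc.2.mul_right⟩
    exact hc.1.integrable_of_hasCompactSupport hc.2
  have hi2 : Integrable (fun v => ρ v * φ x) :=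
    (hρc.1.integrable_of_hasCompactSupport hρc.2).mul_const _
  rw [integral_sub hi1 hi2, integral_mul_const, h1, one_mul]
  rfl

end Pool.Agent.CochExt
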