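import Pool.Agent.CochExt.Cpt
import Pool.Agent.CochExt.Kid

set_option autoImplicit false

/-! # Module KCPT: the global smoothing operator is compact.
An operator into a finite product is compact if its components are; each component of `Kt P` is a finite sum of
`mu ψ' ∘ cv k ∘ mu χ' ∘ proj`. -/

open MeasureTheory
open scoped ContDiff

namespace Pool.Agent.CochExt

variable {n : ℕ}

theorem kcpt_sum {E F : Type*} [NormedAddCommGroup E] [NormedSpace ℝ E] [NormedAddCommGroup F]
    [NormedSpace ℝ F] {ι : Type*} (s : Finset ι) (T : ι → E →L[ℝ] F)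
    (h : ∀ i ∈ s, IsCompactOperator (T i)) : IsCompactOperator (∑ i ∈ s, T i : E →L[ℝ] F) := by
  classical
  induction s using Finset.induction_on with
  | empty =>
    simpa using (isCompactOperator_zero : IsCompactOperator (0 : E → F))
  | insert a s ha ih =>
    rw [Finset.sum_insert ha]
    have h1 : IsCompactOperator (T a) := h a (Finset.mem_insert_self a s)
    have h2 : IsCompactOperator (∑ i ∈ s, T i : E →L[ℝ] F) :=
      ih (fun i hi => h i (Finset.mem_insert_of_mem hi))
    exact h1.add h2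

/-- an operator into `FH n` is compact if its components are -/
theorem kcpt_pi {E : Type*} [NormedAddCommGroup E] [NormedSpace ℝ E]
    (T : E →L[ℝ] FH n)
    (h : ∀ S, IsCompactOperator ((ContinuousLinearMap.proj S).comp T : E →L[ℝ] H n)) :
    IsCompactOperator T := by
  classical
  have key : T = ∑ S : Finset (Fin n), (ContinuousLinearMap.single ℝ (fun _ : Finset (Fin n) => H n) S).comp
      ((ContinuousLinearMap.proj S).comp T) := by
    ext1 x
    funext S'
    simp [Finset.sum_apply, Pi.single_apply]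
  rw [key]
  refine kcpt_sum _ _ (fun S _ => ?_)
  have h1 : IsCompactOperator (⇑(ContinuousLinearMap.single ℝ (fun _ : Finset (Fin n) => H n) S) ∘
      ⇑((ContinuousLinearMap.proj S).comp T : E →L[ℝ] H n)) :=
    IsCompactOperator.clm_comp (h S) _
  exact h1

theorem kcpt_smul {E F : Type*} [NormedAddCommGroup E] [NormedSpace ℝ E] [NormedAddCommGroup F]
    [NormedSpace ℝ F] (c : ℝ) (T : E →L[ℝ] F)
    (h : IsCompactOperator T) : IsCompactOperator (c • T : E →L[ℝ] F) := by
  have h1 : IsCompactOperator (c • (T : E → F)) := IsCompactOperator.smul h c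
  exact h1

theorem kcpt_one {k ψ χ : Eu n → ℝ} (hk : Integrable k) (hψ : CCS ψ) (hχ : CCS χ)
    (S : Finset (Fin n)) (A : FH n →L[ℝ] H n)
    (hA : A = ((mu ψ).comp ((cv k).comp (mu χ))).comp
      (ContinuousLinearMap.proj S : FH n →L[ℝ] H n)) :
    IsCompactOperator A := by
  rw [hA]
  exact (cpt hk hψ hχ).comp_clm _

theorem kcpt_pd {φ : Eu n → ℝ} (h : ContDiff ℝ ∞ φ) (hc : HasCompactSupport φ) (j : Fin n) :
    CCS (pd j φ) := by
  have hT : Test Set.univ φ := ⟨h, hc, Set.subset_univ _⟩
  exact (hT.pd j).ccs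

theorem Kt_compact {Ω : Set (Eu n)} {N : ℕ} (P : Fin N → Patch Ω) :
    IsCompactOperator (Kt P : FH n →L[ℝ] FH n) := by
  classical
  unfold Kt
  refine kcpt_sum _ _ (fun i _ => ?_)
  have hψ : CCS (P i).ψ := ⟨(P i).hψ.continuous, (P i).hψc⟩
  have hχ : CCS (P i).χ := ⟨(P i).hχ.continuous, (P i).hχc⟩
  have hρ : CCS (P i).ρ := ⟨(P i).hρ.continuous, (P i).hρc⟩
  have hρi : Integrable (P i).ρ := hρ.1.integrable_of_hasCompactSupport hρ.2
  have hpψ : ∀ j, CCS (pd j (P i).ψ) := fun j => kcpt_pd (P i).hψ (P i).hψc j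
  have hpχ : ∀ j, CCS (pd j (P i).χ) := fun j => kcpt_pd (P i).hχ (P i).hχc j
  have h1 : IsCompactOperator ((muF (P i).ψ).comp ((SF (P i).ρ).comp (muF (P i).χ)) :
      FH n →L[ℝ] FH n) := by
    refine kcpt_pi _ (fun S => ?_)
    refine kcpt_one hρi hψ hχ S _ ?_
    ext1 w
    simp [muF_apply, SF_apply]
  have h2 : IsCompactOperator ((muF (P i).ψ).comp ((TF (P i).ρ).comp (wdF (P i).χ)) :
      FH n →L[ℝ] FH n) := by
    refine kcpt_pi _ (fun S => ?_)
    have e : ((ContinuousLinearMap.proj S).comp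
        ((muF (P i).ψ).comp ((TF (P i).ρ).comp (wdF (P i).χ))) : FH n →L[ℝ] H n) =
        ∑ a ∈ Sᶜ, ∑ b ∈ insert a S, (sg a (insert a S) * sg b (insert a S)) •
          (((mu (P i).ψ).comp ((cv (kap (P i).ρ a)).comp (mu (pd b (P i).χ)))).comp
            (ContinuousLinearMap.proj ((insert a S).erase b) : FH n →L[ℝ] H n)) := by
      ext1 w
      simp only [ContinuousLinearMap.comp_apply, ContinuousLinearMap.proj_apply, muF_apply,
        TF_apply, wdF_apply, map_sum, map_smul, _root_.sum_apply,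
        _root_.smul_apply, Finset.smul_sum, smul_smul]
    rw [e]
    refine kcpt_sum _ _ (fun a _ => kcpt_sum _ _ (fun b _ => ?_))
    exact kcpt_smul _ _ (kcpt_one (kap_integrable hρ a) hψ (hpχ b) ((insert a S).erase b) _ rfl)
  have h3 : IsCompactOperator ((wdF (P i).ψ).comp ((TF (P i).ρ).comp (muF (P i).χ)) :
      FH n →L[ℝ] FH n) := by
    refine kcpt_pi _ (fun S => ?_)
    have e : ((ContinuousLinearMap.proj S).comp
        ((wdF (P i).ψ).comp ((TF (P i).ρ).comp (muF (P i).χ))) : FH n →L[ℝ] H n) =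
        ∑ b ∈ S, ∑ a ∈ (S.erase b)ᶜ, (sg b S * sg a (insert a (S.erase b))) •
          (((mu (pd b (P i).ψ)).comp ((cv (kap (P i).ρ a)).comp (mu (P i).χ))).comp
            (ContinuousLinearMap.proj (insert a (S.erase b)) : FH n →L[ℝ] H n)) := by
      ext1 w
      simp only [ContinuousLinearMap.comp_apply, ContinuousLinearMap.proj_apply, muF_apply,
        TF_apply, wdF_apply, map_sum, map_smul, _root_.sum_apply,
        _root_.smul_apply, Finset.smul_sum, smul_smul]
    rw [e]
    refine kcpt_sum _ _ (fun b _ => kcpt_sum _ _ (fun a _ => ?_))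
    exact kcpt_smul _ _ (kcpt_one (kap_integrable hρ a) (hpψ b) hχ (insert a (S.erase b)) _ rfl)
  have h12 := h1.add h2
  exact h12.sub h3

end Pool.Agent.CochExt
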