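import Pool.Agent.CochExt.Par
import Pool.Agent.CochExt.Kcpt
import Pool.Agent.CochExt.Cr

set_option autoImplicit false

/-! # Module CLR: closed range, regularity of potentials.
`closed_range`: transfer `closed_of_compact` through `PiLp.continuousLinearEquiv 2 ℝ (fun _ => H n)`; `Z` = closed forms
(`WDH_closed`), `R` = exact forms (`WDH_dd`), `par` with `u = 0`.
`regA`: `w_0 = w`, `w_{j+1} = Kt P w_j + Tt P u` is again a potential of `u` (`par` for `(w_j, u)` and `WDH_dd`), in `H^{j+1}`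
as long as `j ≤ m`.  `regB`: `z = (Kt P)^m h`. -/

open MeasureTheory
open scoped ContDiff

namespace Pool.Agent.CochExt

variable {n : ℕ}

/-- `par` for a closed form -/
theorem clr_par0 {Ω : Set (Eu n)} (hΩ : IsOpen Ω) {N : ℕ} (P : Fin N → Patch Ω)
    (hP : ∀ x ∈ Ω, ∑ i, (P i).χ x = 1) {z : FH n} (h : WDH Ω z 0) :
    WDH Ω (Tt P z) (z - Kt P z) := by
  have h1 := par hΩ P hP h
  rwa [map_zero, sub_zero] at h1

/-- closed forms as a submodule of the Hilbert space -/
noncomputable def clrZ (Ω : Set (Eu n)) : Submodule ℝ (PiLp 2 (fun _ : Finset (Fin n) => H n)) where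
  carrier := {z | WDH Ω (PiLp.continuousLinearEquiv 2 ℝ (fun _ : Finset (Fin n) => H n) z) 0}
  zero_mem' := by
    simp only [Set.mem_ofPred_eq, map_zero]
    exact WDH_zero Ω
  add_mem' := by
    intro a b ha hb
    simp only [Set.mem_ofPred_eq, map_add] at ha hb ⊢
    simpa using WDH_add ha hb
  smul_mem' := by
    intro c a ha
    simp only [Set.mem_ofPred_eq, map_smul] at ha ⊢
    simpa using WDH_smul c ha

/-- exact forms as a submodule of the Hilbert space -/
noncomputable def clrR (Ω : Set (Eu n)) : Submodule ℝ (PiLp 2 (fun _ : Finset (Fin n) => H n)) where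
  carrier := {u | ∃ w : FH n,
    WDH Ω w (PiLp.continuousLinearEquiv 2 ℝ (fun _ : Finset (Fin n) => H n) u)}
  zero_mem' := by
    refine ⟨0, ?_⟩
    simp only [map_zero]
    exact WDH_zero Ω
  add_mem' := by
    rintro a b ⟨w, ha⟩ ⟨w', hb⟩
    refine ⟨w + w', ?_⟩
    simp only [map_add]
    exact WDH_add ha hb
  smul_mem' := by
    rintro c a ⟨w, ha⟩
    refine ⟨c • w, ?_⟩
    simp only [map_smul]
    exact WDH_smul c ha

theorem closed_range {Ω : Set (Eu n)} (hΩ : IsOpen Ω) {N : ℕ} (P : Fin N → Patch Ω)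
    (hP : ∀ x ∈ Ω, ∑ i, (P i).χ x = 1) : IsClosed {u : FH n | ∃ w : FH n, WDH Ω w u} := by
  set e := PiLp.continuousLinearEquiv 2 ℝ (fun _ : Finset (Fin n) => H n) with he
  set K' : PiLp 2 (fun _ : Finset (Fin n) => H n) →L[ℝ] PiLp 2 (fun _ : Finset (Fin n) => H n) :=
    (e.symm : (∀ _ : Finset (Fin n), H n) →L[ℝ] PiLp 2 (fun _ : Finset (Fin n) => H n)).comp
      ((Kt P : FH n →L[ℝ] FH n).comp
        (e : PiLp 2 (fun _ : Finset (Fin n) => H n) →L[ℝ] (∀ _ : Finset (Fin n), H n))) with hK'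
  have hKc : IsCompactOperator K' := by
    have h1 : IsCompactOperator ((Kt P : FH n →L[ℝ] FH n).comp
        (e : PiLp 2 (fun _ : Finset (Fin n) => H n) →L[ℝ] (∀ _ : Finset (Fin n), H n))) :=
      (Kt_compact P).comp_clm
        (e : PiLp 2 (fun _ : Finset (Fin n) => H n) →L[ℝ] (∀ _ : Finset (Fin n), H n))
    exact h1.clm_comp
      (e.symm : (∀ _ : Finset (Fin n), H n) →L[ℝ] PiLp 2 (fun _ : Finset (Fin n) => H n))
  have hZ : IsClosed (clrZ Ω : Set (PiLp 2 (fun _ : Finset (Fin n) => H n))) := by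
    have h1 : Continuous (fun z : PiLp 2 (fun _ : Finset (Fin n) => H n) =>
        ((e z, 0) : FH n × FH n)) := by fun_prop
    exact (WDH_closed Ω).preimage h1
  have hRZ : clrR Ω ≤ clrZ Ω := by
    rintro u ⟨w, hw⟩
    exact WDH_dd hw
  have hR : IsClosed (clrR Ω : Set (PiLp 2 (fun _ : Finset (Fin n) => H n))) := by
    apply closed_of_compact K' hKc (clrZ Ω) (clrR Ω) hZ hRZ
    intro z hz
    refine ⟨Tt P (e z), ?_⟩
    have h1 := clr_par0 hΩ P hP (z := e z) hz
    have h2 : e (z - K' z) = e z - Kt P (e z) := by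
      rw [map_sub]
      congr 1
    change WDH Ω (Tt P (e z)) (e (z - K' z))
    rw [h2]
    exact h1
  have h3 : {u : FH n | ∃ w : FH n, WDH Ω w u} =
      e.symm ⁻¹' (clrR Ω : Set (PiLp 2 (fun _ : Finset (Fin n) => H n))) := by
    ext u
    change (∃ w : FH n, WDH Ω w u) ↔ (∃ w : FH n, WDH Ω w (e (e.symm u)))
    rw [e.apply_symm_apply]
  rw [h3]
  exact hR.preimage e.symm.continuous

theorem regA (m : ℕ) {Ω : Set (Eu n)} (hΩ : IsOpen Ω) {N : ℕ} (P : Fin N → Patch Ω)
    (hP : ∀ x ∈ Ω, ∑ i, (P i).χ x = 1) {w u : FH n} (hu : SOBF m Ω u) (h : WDH Ω w u) :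
    ∃ w' : FH n, SOBF m Ω w' ∧ WDH Ω w' u := by
  have key : ∀ j : ℕ, j ≤ m → ∃ w' : FH n, SOBF j Ω w' ∧ WDH Ω w' u := by
    intro j
    induction j with
    | zero => intro _; exact ⟨w, fun S => trivial, h⟩
    | succ j ih =>
      intro hj
      obtain ⟨w', hw', hd⟩ := ih (by omega)
      refine ⟨Kt P w' + Tt P u, ?_, ?_⟩
      · intro S
        have h1 := Kt_reg j P hw' S
        have h2 := SOB_of_le (by omega : j + 1 ≤ m + 1) (Tt_reg m P hu S)
        exact SOB_add h1 h2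
      · have h1 := WDH_dd (par hΩ P hP hd)
        have h2 := WDH_sub hd h1
        have h3 : w' - (w' - Kt P w' - Tt P u) = Kt P w' + Tt P u := by abel
        rwa [h3, sub_zero] at h2
  exact key m le_rfl

theorem regB (m : ℕ) {Ω : Set (Eu n)} (hΩ : IsOpen Ω) {N : ℕ} (P : Fin N → Patch Ω)
    (hP : ∀ x ∈ Ω, ∑ i, (P i).χ x = 1) {h : FH n} (hh : WDH Ω h 0) :
    ∃ z v : FH n, SOBF m Ω z ∧ WDH Ω z 0 ∧ WDH Ω v (h - z) := by
  induction m with
  | zero =>
    refine ⟨h, 0, fun S => trivial, hh, ?_⟩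
    rw [sub_self]
    exact WDH_zero Ω
  | succ m ih =>
    obtain ⟨z, v, hz, hz0, hv⟩ := ih
    have h1 := clr_par0 hΩ P hP hz0
    refine ⟨Kt P z, v + Tt P z, Kt_reg m P hz, ?_, ?_⟩
    · have h2 := WDH_sub hz0 (WDH_dd h1)
      have h3 : z - (z - Kt P z) = Kt P z := by abel
      rwa [h3, sub_zero] at h2
    · have h2 := WDH_add hv h1
      have h3 : h - z + (z - Kt P z) = h - Kt P z := by abel
      rwa [h3] at h2

end Pool.Agent.CochExt
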