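import Pool.Agent.CochExt.Cvb

set_option autoImplicit false

/-! # Module CPT: `f ↦ ψ · cv k (χ f)` is compact on `L²(ℝⁿ)`.
Approximate `k` in `L¹` by continuous compactly supported `k'` (`cv_norm`, `cv_sub_left`,
`isClosed_setOf_isCompactOperator`); for `k'` the operator has the continuous compactly supported kernel `ψ(x) k'(y - x) χ(y)`:
uniformly approximate by finite sums `a_i(x) b_i(y)` (finite rank), or Arzela-Ascoli. -/

open MeasureTheory
open scoped ContDiff

namespace Pool.Agent.CochExt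

variable {n : ℕ}

theorem cpt_ccs_memLp {φ : Eu n → ℝ} (hφ : CCS φ) : MemLp φ 2 (volume : Measure (Eu n)) :=
  hφ.1.memLp_of_hasCompactSupport hφ.2

/-- it is enough to test against continuous compactly supported functions -/
theorem cpt_norm_le {A : H n →L[ℝ] H n} {c : ℝ} (hc : 0 ≤ c)
    (h : ∀ (f : H n) (φ : Eu n → ℝ) (hφ : CCS φ),
      |∫ x, (A f : Eu n → ℝ) x * φ x| ≤ c * ‖f‖ * ‖(cpt_ccs_memLp hφ).toLp φ‖) : ‖A‖ ≤ c := by
  apply ContinuousLinearMap.opNorm_le_bound _ hc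
  intro f
  -- the inequality for all `g`
  have key : ∀ g : H n, |inner ℝ (A f) g| ≤ c * ‖f‖ * ‖g‖ := by
    have hcl : IsClosed {g : H n | |inner ℝ (A f) g| ≤ c * ‖f‖ * ‖g‖} := by
      apply isClosed_le
      · exact (continuous_const.inner continuous_id).abs
      · exact continuous_const.mul continuous_norm
    have hd : Dense {g : H n | |inner ℝ (A f) g| ≤ c * ‖f‖ * ‖g‖} := by
      rw [Metric.dense_iff]
      intro g r hr
      obtain ⟨φ, hφc, hφe, hφ, hφm⟩ :=
        (Lp.memLp g).exists_hasCompactSupport_eLpNorm_sub_le (by norm_num)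
          (ε := ENNReal.ofReal (r / 2)) (by simpa using hr)
      have hφ2 : CCS φ := ⟨hφ, hφc⟩
      refine ⟨(cpt_ccs_memLp hφ2).toLp φ, ?_, ?_⟩
      · rw [Metric.mem_ball, dist_comm, dist_eq_norm, Lp.norm_def]
        have h1 : eLpNorm (((g - (cpt_ccs_memLp hφ2).toLp φ : H n)) : Eu n → ℝ) 2 volume
            = eLpNorm ((g : Eu n → ℝ) - φ) 2 volume := by
          apply eLpNorm_congr_ae
          exact (Lp.coeFn_sub _ _).trans
            ((Filter.EventuallyEq.refl _ _).sub (cpt_ccs_memLp hφ2).coeFn_toLp)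
        rw [h1]
        calc (eLpNorm ((g : Eu n → ℝ) - φ) 2 volume).toReal
            ≤ (ENNReal.ofReal (r / 2)).toReal := ENNReal.toReal_mono ENNReal.ofReal_ne_top hφe
          _ = r / 2 := ENNReal.toReal_ofReal (by positivity)
          _ < r := by linarith
      · have h2 := h f φ hφ2
        rw [Set.mem_ofPred_eq]
        have h3 : inner ℝ (A f) ((cpt_ccs_memLp hφ2).toLp φ) = ∫ x, (A f : Eu n → ℝ) x * φ x := by
          rw [L2.inner_def]
          apply integral_congr_ae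
          filter_upwards [(cpt_ccs_memLp hφ2).coeFn_toLp] with x hx
          rw [hx]
          simp [mul_comm]
        rw [h3]
        exact h2
    intro g
    have : g ∈ closure {g : H n | |inner ℝ (A f) g| ≤ c * ‖f‖ * ‖g‖} := hd g
    rwa [hcl.closure_eq] at this
  have h1 := key (A f)
  rw [real_inner_self_eq_norm_mul_norm, abs_of_nonneg (by positivity)] at h1
  by_cases h0 : ‖A f‖ = 0
  · rw [h0]; positivity
  · exact le_of_mul_le_mul_right h1 (lt_of_le_of_ne (norm_nonneg _) (Ne.symm h0))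

theorem cpt_ccs_mul {φ ψ : Eu n → ℝ} (hφ : CCS φ) (hψ : CCS ψ) : CCS (fun x => φ x * ψ x) :=
  ⟨hφ.1.mul hψ.1, hφ.2.mul_right⟩

theorem cpt_inner (g : H n) {φ : Eu n → ℝ} (hφ : CCS φ) :
    inner ℝ g ((cpt_ccs_memLp hφ).toLp φ) = ∫ x, (g : Eu n → ℝ) x * φ x := by
  rw [L2.inner_def]
  apply integral_congr_ae
  filter_upwards [(cpt_ccs_memLp hφ).coeFn_toLp] with x hx
  rw [hx]
  simp [mul_comm]

theorem cpt_cc {k φ : Eu n → ℝ} (hk : CCS k) (hφ : CCS φ) : Continuous (cc k φ) := by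
  have h1 : cc k φ = MeasureTheory.convolution k φ (ContinuousLinearMap.mul ℝ ℝ) volume := by
    ext x
    simp [cc, MeasureTheory.convolution]
  rw [h1]
  exact hφ.2.continuous_convolution_right _
    (hk.1.integrable_of_hasCompactSupport hk.2).locallyIntegrable hφ.1

/-- the operator tested against `φ` -/
theorem cpt_form {k : Eu n → ℝ} (hk : CCS k) {ψ χ : Eu n → ℝ} (hψ : CCS ψ) (hχ : CCS χ)
    (f : H n) {φ : Eu n → ℝ} (hφ : CCS φ) :
    ∫ x, (((mu ψ).comp ((cv k).comp (mu χ)) : H n →L[ℝ] H n) f : Eu n → ℝ) x * φ x =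
      ∫ y, (f : Eu n → ℝ) y * (χ y * cc k (fun x => ψ x * φ x) y) := by
  have hki : Integrable k := hk.1.integrable_of_hasCompactSupport hk.2
  have h1 : ∫ x, (((mu ψ).comp ((cv k).comp (mu χ)) : H n →L[ℝ] H n) f : Eu n → ℝ) x * φ x =
      ∫ x, (cv k (mu χ f) : Eu n → ℝ) x * (ψ x * φ x) := by
    apply integral_congr_ae
    filter_upwards [mu_ae hψ (cv k (mu χ f))] with x hx
    simp only [ContinuousLinearMap.comp_apply]
    rw [hx]; ring
  rw [h1, cv_spec hki _ (cpt_ccs_mul hψ hφ)]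
  apply integral_congr_ae
  filter_upwards [mu_ae hχ f] with y hy
  rw [hy]
  ring

theorem cpt_kernel {k : Eu n → ℝ} {ψ χ φ : Eu n → ℝ} (y : Eu n) :
    χ y * cc k (fun x => ψ x * φ x) y =
      ∫ x in tsupport ψ, ψ x * k (y - x) * χ y * φ x := by
  have h2 : cc k (fun x => ψ x * φ x) y = ∫ x, k (y - x) * (ψ x * φ x) := by
    unfold cc
    rw [← integral_sub_left_eq_self (fun x => k (y - x) * (ψ x * φ x)) volume y]
    simp
  rw [h2, setIntegral_eq_integral_of_forall_compl_eq_zero]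
  · rw [← integral_const_mul]
    congr 1
    ext x
    ring
  · intro x hx
    rw [image_eq_zero_of_notMem_tsupport hx]
    ring

/-- Cauchy-Schwarz on a set of finite measure -/
theorem cpt_cs {C : Set (Eu n)} (hC : MeasurableSet C) (hCv : volume C ≠ ⊤) (f : H n) :
    ∫ x in C, |(f : Eu n → ℝ) x| ≤ ‖indicatorConstLp 2 hC hCv (1 : ℝ)‖ * ‖f‖ := by
  have h1 := L2.inner_indicatorConstLp_one (𝕜 := ℝ) hC hCv |f|
  have h2 : ∫ x in C, |(f : Eu n → ℝ) x| = ∫ x in C, (|f| : H n) x := by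
    apply integral_congr_ae
    filter_upwards [ae_restrict_of_ae (Lp.coeFn_abs f)] with x hx
    rw [hx]
  rw [h2, ← h1]
  calc inner ℝ (indicatorConstLp 2 hC hCv (1 : ℝ)) |f|
      ≤ ‖indicatorConstLp 2 hC hCv (1 : ℝ)‖ * ‖|f|‖ := real_inner_le_norm _ _
    _ = _ := by rw [norm_abs_eq_norm]

/-- the kernel is uniformly continuous in the first variable -/
theorem cpt_unif {k : Eu n → ℝ} (hk : CCS k) {ψ χ : Eu n → ℝ} (hψ : CCS ψ) (hχ : CCS χ)
    {ε : ℝ} (hε : 0 < ε) : ∃ δ : ℝ, 0 < δ ∧ ∀ x x' y : Eu n, dist x x' < δ →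
      |ψ x * k (y - x) * χ y - ψ x' * k (y - x') * χ y| ≤ ε := by
  have hcont : Continuous (fun p : Eu n × Eu n => ψ p.1 * k (p.2 - p.1) * χ p.2) :=
    ((hψ.1.comp continuous_fst).mul (hk.1.comp (continuous_snd.sub continuous_fst))).mul
      (hχ.1.comp continuous_snd)
  have hsupp : HasCompactSupport (fun p : Eu n × Eu n => ψ p.1 * k (p.2 - p.1) * χ p.2) := by
    apply HasCompactSupport.intro (hψ.2.isCompact.prod hχ.2.isCompact)
    intro p hp
    rw [Set.mem_prod, not_and_or] at hp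
    rcases hp with hp | hp
    · rw [image_eq_zero_of_notMem_tsupport hp]; ring
    · rw [image_eq_zero_of_notMem_tsupport hp]; ring
  have hu := hsupp.uniformContinuous_of_continuous hcont
  rw [Metric.uniformContinuous_iff] at hu
  obtain ⟨δ, hδ, h⟩ := hu ε hε
  refine ⟨δ, hδ, fun x x' y hxx => ?_⟩
  have := h (a := (x, y)) (b := (x', y)) (by simpa [Prod.dist_eq] using hxx)
  rw [Real.dist_eq] at this
  exact this.le

/-- finite rank approximation -/
theorem cpt_approx {k : Eu n → ℝ} (hk : CCS k) {ψ χ : Eu n → ℝ} (hψ : CCS ψ) (hχ : CCS χ)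
    {ε : ℝ} (hε : 0 < ε) {c₁ c₂ : ℝ} (hc₁ : 0 ≤ c₁) (hc₂ : 0 ≤ c₂)
    (h₁ : ∀ f : H n, ∫ x in tsupport ψ, |(f : Eu n → ℝ) x| ≤ c₁ * ‖f‖)
    (h₂ : ∀ f : H n, ∫ x in tsupport χ, |(f : Eu n → ℝ) x| ≤ c₂ * ‖f‖) :
    ∃ F : H n →L[ℝ] H n, IsCompactOperator F ∧
      ‖((mu ψ).comp ((cv k).comp (mu χ)) : H n →L[ℝ] H n) - F‖ ≤ ε * (c₁ * c₂) := by
  classical
  obtain ⟨δ, hδ, hun⟩ := cpt_unif hk hψ hχ hε
  set Cψ := tsupport ψ with hCψ
  set Cχ := tsupport χ with hCχ
  have hmψ : MeasurableSet Cψ := hψ.2.isCompact.isClosed.measurableSet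
  have hmχ : MeasurableSet Cχ := hχ.2.isCompact.isClosed.measurableSet
  have hvψ : volume Cψ ≠ ⊤ := hψ.2.isCompact.measure_lt_top.ne
  have hvχ : volume Cχ ≠ ⊤ := hχ.2.isCompact.measure_lt_top.ne
  -- a simple function close to the identity on `Cψ`
  obtain ⟨s, hs⟩ : ∃ s : SimpleFunc (Eu n) (Eu n), ∀ x ∈ Cψ, dist x (s x) < δ := by
    obtain ⟨t, -, htf, hcov⟩ := hψ.2.isCompact.finite_cover_balls hδ
    obtain ⟨N, e, he⟩ : ∃ (N : ℕ) (e : ℕ → Eu n), ∀ p ∈ t, ∃ j ≤ N, e j = p := by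
      obtain ⟨l, hl⟩ := htf.exists_finset_coe
      refine ⟨l.card, fun j => if h : j < l.card then (l.equivFin.symm ⟨j, h⟩ : Eu n) else 0, ?_⟩
      intro p hp
      have hpl : p ∈ l := by rw [← Finset.mem_coe, hl]; exact hp
      refine ⟨l.equivFin ⟨p, hpl⟩, (l.equivFin ⟨p, hpl⟩).2.le, ?_⟩
      simp
    refine ⟨SimpleFunc.nearestPt e N, fun x hx => ?_⟩
    obtain ⟨p, hp, hxp⟩ := Set.mem_iUnion₂.1 (hcov hx)
    obtain ⟨j, hj, rfl⟩ := he p hp
    have h1 := SimpleFunc.edist_nearestPt_le e x hj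
    rw [edist_dist, edist_dist, ENNReal.ofReal_le_ofReal_iff dist_nonneg] at h1
    rw [dist_comm]
    rw [Metric.mem_ball, dist_comm] at hxp
    exact lt_of_le_of_lt h1 hxp
  -- the functions
  have hb : ∀ p : Eu n, CCS (fun y => ψ p * k (y - p) * χ y) := by
    intro p
    refine ⟨(continuous_const.mul (hk.1.comp (continuous_id.sub continuous_const))).mul hχ.1, ?_⟩
    exact hχ.2.mul_left
  set b : Eu n → H n := fun p => (cpt_ccs_memLp (hb p)).toLp _ with hbdef
  have hA : ∀ p : Eu n, MeasurableSet (s ⁻¹' {p} ∩ Cψ) := fun p =>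
    (s.measurableSet_fiber p).inter hmψ
  have hAv : ∀ p : Eu n, volume (s ⁻¹' {p} ∩ Cψ) ≠ ⊤ := fun p =>
    ((measure_mono Set.inter_subset_right).trans_lt (lt_top_iff_ne_top.2 hvψ)).ne
  set a : Eu n → H n := fun p => indicatorConstLp 2 (hA p) (hAv p) (1 : ℝ) with hadef
  set F : H n →L[ℝ] H n := ∑ p ∈ s.range, (innerSL ℝ (b p)).smulRight (a p) with hF
  refine ⟨F, ?_, ?_⟩
  · have hr : ∀ p, IsCompactOperator ((innerSL ℝ (b p)).smulRight (a p) : H n →L[ℝ] H n) := by
      intro p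
      have h1 : IsCompactOperator (innerSL ℝ (b p)) :=
        isCompactOperator_of_locallyCompactSpace_dom (innerSL ℝ (b p))
      have h2 := h1.clm_comp ((ContinuousLinearMap.toSpanSingleton ℝ (a p)))
      exact h2
    have : ∀ S : Finset (Eu n), IsCompactOperator
        (∑ p ∈ S, (innerSL ℝ (b p)).smulRight (a p) : H n →L[ℝ] H n) := by
      intro S
      induction S using Finset.induction_on with
      | empty => simpa using isCompactOperator_zero
      | insert p S hp ih =>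
        rw [Finset.sum_insert hp]
        exact (hr p).add ih
    exact this _
  · apply cpt_norm_le (by positivity)
    intro f φ hφ
    have hφi : Integrable φ := hφ.1.integrable_of_hasCompactSupport hφ.2
    set Φ := (cpt_ccs_memLp hφ).toLp φ with hΦ
    -- the form of `F`
    have hW : ∀ y : Eu n, ∫ x in Cψ, (ψ (s x) * k (y - s x) * χ y) * φ x =
        ∑ p ∈ s.range, (ψ p * k (y - p) * χ y) * ∫ x in s ⁻¹' {p} ∩ Cψ, φ x := by
      intro y
      have e1 : ∀ x, (ψ (s x) * k (y - s x) * χ y) * φ x =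
          ∑ p ∈ s.range, (s ⁻¹' {p}).indicator (fun x => (ψ p * k (y - p) * χ y) * φ x) x := by
        intro x
        rw [Finset.sum_eq_single (s x)]
        · rw [Set.indicator_of_mem (by simp)]
        · intro p _ hp
          rw [Set.indicator_of_notMem]
          simpa using Ne.symm hp
        · intro hx
          exact absurd (s.mem_range_self x) hx
      simp_rw [e1]
      rw [integral_finsetSum]
      · apply Finset.sum_congr rfl
        intro p _
        rw [setIntegral_indicator (s.measurableSet_fiber p), ← integral_const_mul, Set.inter_comm]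
      · intro p _
        exact ((hφi.const_mul _).indicator (s.measurableSet_fiber p)).integrableOn
    have hFφ : ∫ x, (F f : Eu n → ℝ) x * φ x =
        ∫ y, (f : Eu n → ℝ) y * ∫ x in Cψ, (ψ (s x) * k (y - s x) * χ y) * φ x := by
      rw [← cpt_inner _ hφ, hF, sum_apply, sum_inner]
      simp_rw [hW, Finset.mul_sum]
      rw [integral_finsetSum]
      · apply Finset.sum_congr rfl
        intro p _
        rw [ContinuousLinearMap.smulRight_apply, innerSL_apply_apply, real_inner_smul_left,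
          real_inner_comm, hbdef, cpt_inner _ (hb p)]
        have e2 : inner ℝ (a p) Φ = ∫ x in s ⁻¹' {p} ∩ Cψ, φ x := by
          rw [hadef, L2.inner_indicatorConstLp_one]
          apply integral_congr_ae
          exact ae_restrict_of_ae (cpt_ccs_memLp hφ).coeFn_toLp
        rw [e2, ← integral_mul_const]
        congr 1
        ext y
        ring
      · intro p _
        have := (int_H f (hb p)).mul_const (∫ x in s ⁻¹' {p} ∩ Cψ, φ x)
        refine this.congr (Filter.Eventually.of_forall fun y => ?_)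
        simp only
        ring
    have hFi : Integrable (fun y => (f : Eu n → ℝ) y *
        ∫ x in Cψ, (ψ (s x) * k (y - s x) * χ y) * φ x) := by
      simp_rw [hW, Finset.mul_sum]
      apply integrable_finsetSum
      intro p _
      have := (int_H f (hb p)).mul_const (∫ x in s ⁻¹' {p} ∩ Cψ, φ x)
      refine this.congr (Filter.Eventually.of_forall fun y => ?_)
      simp only
      ring
    have hMi : Integrable (fun y => (f : Eu n → ℝ) y *
        (χ y * cc k (fun x => ψ x * φ x) y)) :=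
      int_H f ⟨hχ.1.mul (cpt_cc hk (cpt_ccs_mul hψ hφ)), hχ.2.mul_right⟩
    have hdiff : ∫ x, ((((mu ψ).comp ((cv k).comp (mu χ)) : H n →L[ℝ] H n) - F) f : Eu n → ℝ) x * φ x
        = ∫ y, (f : Eu n → ℝ) y * (χ y * cc k (fun x => ψ x * φ x) y -
          ∫ x in Cψ, (ψ (s x) * k (y - s x) * χ y) * φ x) := by
      rw [← cpt_inner _ hφ, sub_apply, inner_sub_left, cpt_inner _ hφ, cpt_inner _ hφ,
        cpt_form hk hψ hχ f hφ, hFφ, ← integral_sub hMi hFi]
      congr 1
      ext y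
      ring
    rw [hdiff]
    -- the pointwise bound
    have hφC : ∫ x in Cψ, |φ x| ≤ c₁ * ‖Φ‖ := by
      refine le_trans (le_of_eq ?_) (h₁ Φ)
      apply integral_congr_ae
      filter_upwards [ae_restrict_of_ae (cpt_ccs_memLp hφ).coeFn_toLp] with x hx
      rw [hΦ, hx]
    have hbd : ∀ y : Eu n, |χ y * cc k (fun x => ψ x * φ x) y -
          ∫ x in Cψ, (ψ (s x) * k (y - s x) * χ y) * φ x| ≤ ε * (c₁ * ‖Φ‖) := by
      intro y
      rw [cpt_kernel]
      have hi1 : IntegrableOn (fun x => ψ x * k (y - x) * χ y * φ x) Cψ := by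
        apply Integrable.integrableOn
        apply Continuous.integrable_of_hasCompactSupport
        · exact ((hψ.1.mul (hk.1.comp (continuous_const.sub continuous_id))).mul
            continuous_const).mul hφ.1
        · exact hφ.2.mul_left
      have hi2 : IntegrableOn (fun x => ψ (s x) * k (y - s x) * χ y * φ x) Cψ := by
        apply Integrable.integrableOn
        obtain ⟨C, hC⟩ := (s.map (fun p => ψ p * k (y - p) * χ y)).exists_forall_norm_le
        apply hφi.bdd_mul (c := C)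
        · exact (s.map (fun p => ψ p * k (y - p) * χ y)).aestronglyMeasurable
        · exact Filter.Eventually.of_forall fun x => hC x
      rw [← integral_sub hi1 hi2]
      calc |∫ x in Cψ, (ψ x * k (y - x) * χ y * φ x - ψ (s x) * k (y - s x) * χ y * φ x)|
          ≤ ∫ x in Cψ, ε * |φ x| := by
            rw [← Real.norm_eq_abs]
            apply norm_integral_le_of_norm_le (hφi.abs.const_mul ε).integrableOn
            filter_upwards [ae_restrict_mem hmψ] with x hx
            rw [← sub_mul, norm_mul, Real.norm_eq_abs, Real.norm_eq_abs]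
            exact mul_le_mul_of_nonneg_right (hun x (s x) y (hs x hx)) (abs_nonneg _)
        _ = ε * ∫ x in Cψ, |φ x| := integral_const_mul _ _
        _ ≤ ε * (c₁ * ‖Φ‖) := by gcongr
    have hzero : ∀ y : Eu n, y ∉ Cχ → χ y * cc k (fun x => ψ x * φ x) y -
          ∫ x in Cψ, (ψ (s x) * k (y - s x) * χ y) * φ x = 0 := by
      intro y hy
      rw [image_eq_zero_of_notMem_tsupport hy]
      simp
    have hfi : IntegrableOn (f : Eu n → ℝ) Cχ := by
      have : IsFiniteMeasure ((volume : Measure (Eu n)).restrict Cχ) :=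
        ⟨by simpa using lt_top_iff_ne_top.2 hvχ⟩
      exact ((Lp.memLp f).restrict Cχ).integrable (by norm_num)
    calc |∫ y, (f : Eu n → ℝ) y * (χ y * cc k (fun x => ψ x * φ x) y -
          ∫ x in Cψ, (ψ (s x) * k (y - s x) * χ y) * φ x)|
        = |∫ y in Cχ, (f : Eu n → ℝ) y * (χ y * cc k (fun x => ψ x * φ x) y -
          ∫ x in Cψ, (ψ (s x) * k (y - s x) * χ y) * φ x)| := by
          rw [setIntegral_eq_integral_of_forall_compl_eq_zero]
          intro y hy
          rw [hzero y hy, mul_zero]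
      _ ≤ ∫ y in Cχ, |(f : Eu n → ℝ) y| * (ε * (c₁ * ‖Φ‖)) := by
          rw [← Real.norm_eq_abs]
          apply norm_integral_le_of_norm_le (hfi.abs.mul_const _)
          refine Filter.Eventually.of_forall fun y => ?_
          rw [norm_mul, Real.norm_eq_abs, Real.norm_eq_abs]
          exact mul_le_mul_of_nonneg_left (hbd y) (abs_nonneg _)
      _ = (∫ y in Cχ, |(f : Eu n → ℝ) y|) * (ε * (c₁ * ‖Φ‖)) := integral_mul_const _ _
      _ ≤ (c₂ * ‖f‖) * (ε * (c₁ * ‖Φ‖)) := by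
          have := h₂ f
          gcongr
      _ = ε * (c₁ * c₂) * ‖f‖ * ‖Φ‖ := by ring

theorem cpt_cont {k : Eu n → ℝ} (hk : CCS k) {ψ χ : Eu n → ℝ} (hψ : CCS ψ) (hχ : CCS χ) :
    IsCompactOperator ((mu ψ).comp ((cv k).comp (mu χ)) : H n →L[ℝ] H n) := by
  obtain ⟨c₁, hc₁, h₁⟩ : ∃ c₁ : ℝ, 0 ≤ c₁ ∧
      ∀ f : H n, ∫ x in tsupport ψ, |(f : Eu n → ℝ) x| ≤ c₁ * ‖f‖ :=
    ⟨_, norm_nonneg _, cpt_cs hψ.2.isCompact.isClosed.measurableSet
      hψ.2.isCompact.measure_lt_top.ne⟩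
  obtain ⟨c₂, hc₂, h₂⟩ : ∃ c₂ : ℝ, 0 ≤ c₂ ∧
      ∀ f : H n, ∫ x in tsupport χ, |(f : Eu n → ℝ) x| ≤ c₂ * ‖f‖ :=
    ⟨_, norm_nonneg _, cpt_cs hχ.2.isCompact.isClosed.measurableSet
      hχ.2.isCompact.measure_lt_top.ne⟩
  have hcl : IsClosed {A : H n →L[ℝ] H n | IsCompactOperator A} :=
    isClosed_setOfPred_isCompactOperator
  change (mu ψ).comp ((cv k).comp (mu χ)) ∈ {A : H n →L[ℝ] H n | IsCompactOperator A}
  rw [← hcl.closure_eq, Metric.mem_closure_iff]
  intro ε hε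
  obtain ⟨F, hF, hd⟩ := cpt_approx hk hψ hχ (ε := ε / (c₁ * c₂ + 1)) (by positivity) hc₁ hc₂ h₁ h₂
  refine ⟨F, hF, ?_⟩
  rw [dist_eq_norm]
  refine lt_of_le_of_lt hd ?_
  have : 0 ≤ c₁ * c₂ := by positivity
  rw [div_mul_eq_mul_div, div_lt_iff₀ (by positivity)]
  nlinarith

theorem cpt {k : Eu n → ℝ} (hk : Integrable k) {ψ χ : Eu n → ℝ} (hψ : CCS ψ) (hχ : CCS χ) :
    IsCompactOperator ((mu ψ).comp ((cv k).comp (mu χ)) : H n →L[ℝ] H n) := by
  have hcl : IsClosed {A : H n →L[ℝ] H n | IsCompactOperator A} :=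
    isClosed_setOfPred_isCompactOperator
  change (mu ψ).comp ((cv k).comp (mu χ)) ∈ {A : H n →L[ℝ] H n | IsCompactOperator A}
  rw [← hcl.closure_eq, Metric.mem_closure_iff]
  intro ε hε
  obtain ⟨k', hk'c, hk'e, hk', hk'i⟩ := hk.exists_hasCompactSupport_integral_sub_le
    (ε := ε / (‖(mu ψ : H n →L[ℝ] H n)‖ * ‖(mu χ : H n →L[ℝ] H n)‖ + 1)) (by positivity)
  refine ⟨_, cpt_cont ⟨hk', hk'c⟩ hψ hχ, ?_⟩
  have h1 : (mu ψ).comp ((cv k).comp (mu χ)) - (mu ψ).comp ((cv k').comp (mu χ)) =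
      (mu ψ : H n →L[ℝ] H n).comp ((cv (fun z => k z - k' z)).comp (mu χ)) := by
    rw [cv_sub_left hk hk'i, ContinuousLinearMap.sub_comp, ContinuousLinearMap.comp_sub]
  rw [dist_eq_norm, h1]
  have h2 : ‖(cv (fun z => k z - k' z) : H n →L[ℝ] H n)‖ ≤
      ε / (‖(mu ψ : H n →L[ℝ] H n)‖ * ‖(mu χ : H n →L[ℝ] H n)‖ + 1) :=
    (cv_norm (hk.sub hk'i)).trans hk'e
  have h3 : 0 ≤ ‖(mu ψ : H n →L[ℝ] H n)‖ * ‖(mu χ : H n →L[ℝ] H n)‖ := by positivity
  calc ‖(mu ψ : H n →L[ℝ] H n).comp ((cv (fun z => k z - k' z)).comp (mu χ))‖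
      ≤ ‖(mu ψ : H n →L[ℝ] H n)‖ * (‖(cv (fun z => k z - k' z) : H n →L[ℝ] H n)‖ *
        ‖(mu χ : H n →L[ℝ] H n)‖) :=
        (ContinuousLinearMap.opNorm_comp_le _ _).trans
          (mul_le_mul_of_nonneg_left (ContinuousLinearMap.opNorm_comp_le _ _) (norm_nonneg _))
    _ ≤ ‖(mu ψ : H n →L[ℝ] H n)‖ * (ε / (‖(mu ψ : H n →L[ℝ] H n)‖ *
        ‖(mu χ : H n →L[ℝ] H n)‖ + 1) * ‖(mu χ : H n →L[ℝ] H n)‖) := by gcongr
    _ = ε * (‖(mu ψ : H n →L[ℝ] H n)‖ * ‖(mu χ : H n →L[ℝ] H n)‖) /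
        (‖(mu ψ : H n →L[ℝ] H n)‖ * ‖(mu χ : H n →L[ℝ] H n)‖ + 1) := by ring
    _ < ε := by
        rw [div_lt_iff₀ (by positivity)]
        nlinarith

end Pool.Agent.CochExt
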