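import Pool.Agent.CochExt.Cct

set_option autoImplicit false

/-! # Module CVB: the operator `cv` and weak derivatives (all by duality `cv_spec`) -/

open MeasureTheory
open scoped ContDiff

namespace Pool.Agent.CochExt

variable {n : ℕ}

/-- locality -/
theorem cv_local {k : Eu n → ℝ} {D V : Set (Eu n)} (hk : Integrable k) (hkc : HasCompactSupport k)
    (hV : IsOpen V) (hD : ∀ x ∈ V, ∀ z ∈ tsupport k, x + z ∈ D) (hDm : MeasurableSet D)
    {f g : H n} (h : (f : Eu n → ℝ) =ᵐ[volume.restrict D] g) :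
    (cv k f : Eu n → ℝ) =ᵐ[volume.restrict V] cv k g := by
  refine ae_eq_of_test hV _ _ (fun φ hφ => ?_)
  rw [cv_spec hk f hφ.ccs, cv_spec hk g hφ.ccs]
  have ht := cc_test hk hkc hD hφ
  rw [Filter.EventuallyEq, ae_restrict_iff' hDm] at h
  refine integral_congr_ae ?_
  filter_upwards [h] with x hx
  by_cases hxD : x ∈ D
  · rw [hx hxD]
  · have h0 : cc k φ x = 0 := image_eq_zero_of_notMem_tsupport (fun h' => hxD (ht.2.2 h'))
    rw [h0, mul_zero, mul_zero]

theorem cvb_integrable {k : Eu n → ℝ} (hk : Integrable k) (f : H n) {φ : Eu n → ℝ} (hφ : CCS φ) :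
    Integrable (fun x => (f : Eu n → ℝ) x * cc k φ x) := by
  have h := (CVO_fub k hk f hφ).integral_prod_right
  refine h.congr (Filter.Eventually.of_forall fun x => ?_)
  show ∫ z, k z * ((f : Eu n → ℝ) x * φ (x - z)) = (f : Eu n → ℝ) x * cc k φ x
  rw [cc, ← integral_const_mul]
  congr 1
  ext1 z
  ring

theorem cv_sub_left {k k' : Eu n → ℝ} (hk : Integrable k) (hk' : Integrable k') :
    cv (fun z => k z - k' z) = cv k - cv k' := by
  ext1 f
  have h : ((cv (fun z => k z - k' z) f : H n) : Eu n → ℝ) =ᵐ[volume.restrict Set.univ]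
      (((cv k - cv k') f : H n) : Eu n → ℝ) := by
    refine ae_eq_of_test isOpen_univ _ _ (fun φ hφ => ?_)
    have hkk : Integrable (fun z => k z - k' z) := hk.sub hk'
    rw [cv_spec hkk f hφ.ccs]
    have h1 : ∀ x, (f : Eu n → ℝ) x * cc (fun z => k z - k' z) φ x
        = (f : Eu n → ℝ) x * cc k φ x - (f : Eu n → ℝ) x * cc k' φ x := by
      intro x
      rw [cc_sub_left hk hk' hφ.ccs]
      ring
    simp only [h1]
    rw [integral_sub (cvb_integrable hk f hφ.ccs) (cvb_integrable hk' f hφ.ccs),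
      ← cv_spec hk f hφ.ccs, ← cv_spec hk' f hφ.ccs,
      ← integral_sub (int_H _ hφ.ccs) (int_H _ hφ.ccs)]
    refine integral_congr_ae ?_
    rw [ContinuousLinearMap.sub_apply]
    filter_upwards [Lp.coeFn_sub (cv k f) (cv k' f)] with x hx
    rw [hx, Pi.sub_apply]
    ring
  rw [Measure.restrict_univ] at h
  exact Lp.ext h

/-- `cv k` commutes with weak derivatives -/
theorem WD_cv {k : Eu n → ℝ} {D V : Set (Eu n)} (hk : Integrable k) (hkc : HasCompactSupport k)
    (hD : ∀ x ∈ V, ∀ z ∈ tsupport k, x + z ∈ D) {j : Fin n} {f g : H n}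
    (h : WD D j (f : Eu n → ℝ) (g : Eu n → ℝ)) :
    WD V j (cv k f : Eu n → ℝ) (cv k g : Eu n → ℝ) := by
  intro φ hφ
  rw [cv_spec hk f (hφ.pd j).ccs, cv_spec hk g hφ.ccs,
    ← pd_cc hk (hφ.mono (Set.subset_univ _)) j]
  exact h _ (cc_test hk hkc hD hφ)

/-- smoothing: `∂_j (cv ρ f) = - cv (∂_j ρ) f` -/
theorem WD_cv_smooth {ρ : Eu n → ℝ} (hρ : Test Set.univ ρ) (j : Fin n) (f : H n) :
    WD Set.univ j (cv ρ f : Eu n → ℝ) ((- cv (pd j ρ) f : H n) : Eu n → ℝ) := by
  intro φ hφ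
  have hρi : Integrable ρ := hρ.1.continuous.integrable_of_hasCompactSupport hρ.2.1
  have hρj : Integrable (pd j ρ) :=
    (hρ.pd j).1.continuous.integrable_of_hasCompactSupport (hρ.pd j).2.1
  rw [cv_spec hρi f (hφ.pd j).ccs, pd_cc_left hρ hφ, ← cv_spec hρj f hφ.ccs, ← integral_neg]
  refine integral_congr_ae ?_
  filter_upwards [Lp.coeFn_neg (cv (pd j ρ) f)] with x hx
  rw [hx, Pi.neg_apply]
  ring

end Pool.Agent.CochExt
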