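import Mathlib

set_option autoImplicit false

/-!
# Definitions: L2 forms on open subsets of Euclidean space, weak derivatives

A differential form is the family of its coefficients, indexed by the finite subsets `S` of
`{1, ..., n}` (`dx_S = dx_{i_1} ∧ ... ∧ dx_{i_k}` for `S = {i_1 < ... < i_k}`); it is a `k`-form
if the coefficients with `S.card ≠ k` vanish.
-/

open MeasureTheory
open scoped ContDiff

namespace Pool.Agent.CochExt

/-- Euclidean space -/
abbrev Eu (n : ℕ) := EuclideanSpace ℝ (Fin n)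

/-- real `L²(ℝⁿ)` -/
noncomputable abbrev H (n : ℕ) := Lp ℝ 2 (volume : Measure (Eu n))

/-- real `L²(U)` -/
noncomputable abbrev LL {n : ℕ} (U : Set (Eu n)) := Lp ℝ 2 ((volume : Measure (Eu n)).restrict U)

/-- forms with coefficients in `L²(ℝⁿ)` -/
noncomputable abbrev FH (n : ℕ) := Finset (Fin n) → H n

/-- smooth test functions with compact support in `U` -/
def Test {n : ℕ} (U : Set (Eu n)) (φ : Eu n → ℝ) : Prop :=
  ContDiff ℝ ∞ φ ∧ HasCompactSupport φ ∧ tsupport φ ⊆ U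

/-- partial derivative -/
noncomputable def pd {n : ℕ} (j : Fin n) (φ : Eu n → ℝ) (x : Eu n) : ℝ :=
  fderiv ℝ φ x (EuclideanSpace.single j 1)

/-- `g` is the weak partial derivative of `f` with respect to `x_j` on `U` (the integrands vanish
outside `U`) -/
def WD {n : ℕ} (U : Set (Eu n)) (j : Fin n) (f g : Eu n → ℝ) : Prop :=
  ∀ φ : Eu n → ℝ, Test U φ → ∫ x, f x * pd j φ x = - ∫ x, g x * φ x

/-- the sign `(-1)^{#{j ∈ S : j < i}}` -/
def sg {n : ℕ} (i : Fin n) (S : Finset (Fin n)) : ℝ := (-1) ^ (S.filter (· < i)).card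

/-- `u` is the weak exterior derivative of `w` on `U`:
`(dw)_S = ∑_{i ∈ S} sg i S ∂_i w_{S \ i}` (the integrands vanish outside `U`) -/
def WDF {n : ℕ} (U : Set (Eu n)) (w u : Finset (Fin n) → Eu n → ℝ) : Prop :=
  ∀ φ : Eu n → ℝ, Test U φ → ∀ S : Finset (Fin n),
    ∑ i ∈ S, sg i S * ∫ x, w (S.erase i) x * pd i φ x = - ∫ x, u S x * φ x

/-- weak exterior derivative on `U` for forms in `FH n` -/
def WDH {n : ℕ} (U : Set (Eu n)) (w u : FH n) : Prop :=
  WDF U (fun S => (w S : Eu n → ℝ)) (fun S => (u S : Eu n → ℝ))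

/-- `f` restricted to `U` is in the Sobolev space `H^m(U)` -/
def SOB {n : ℕ} : ℕ → Set (Eu n) → H n → Prop
  | 0, _, _ => True
  | m + 1, U, f => ∀ j : Fin n, ∃ g : H n, WD U j (f : Eu n → ℝ) (g : Eu n → ℝ) ∧ SOB m U g

/-- all coefficients in `H^m(U)` -/
def SOBF {n : ℕ} (m : ℕ) (U : Set (Eu n)) (w : FH n) : Prop := ∀ S, SOB m U (w S)

/-- bounded Lipschitz open sets: near each boundary point `p` there are a unit vector `e` and a
Lipschitz function `g` of the component orthogonal to `e` such that `Ω` is given by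
`g x < ⟪x, e⟫`. -/
structure IsLip {n : ℕ} (Ω : Set (Eu n)) : Prop where
  isOpen : IsOpen Ω
  bdd : Bornology.IsBounded Ω
  lip : ∀ p ∈ frontier Ω, ∃ (e : Eu n) (L : NNReal) (g : Eu n → ℝ) (U : Set (Eu n)),
    ‖e‖ = 1 ∧ LipschitzWith L g ∧ (∀ (x : Eu n) (t : ℝ), g (x + t • e) = g x) ∧ IsOpen U ∧ p ∈ U ∧
    ∀ x ∈ U, x ∈ Ω ↔ g x < inner ℝ x e

/-- local data: `D` is an open set agreeing with `Ω` on the support of `ψ`, stable under
translation by `t v`, `v` in the support of the mean one function `ρ`, `0 ≤ t ≤ 1`;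
`ψ = 1` on the support of `χ`. -/
structure Patch {n : ℕ} (Ω : Set (Eu n)) where
  D : Set (Eu n)
  ρ : Eu n → ℝ
  χ : Eu n → ℝ
  ψ : Eu n → ℝ
  hD : IsOpen D
  hρ : ContDiff ℝ ∞ ρ
  hρc : HasCompactSupport ρ
  hρ1 : ∫ x, ρ x = 1
  hcone : ∀ x ∈ D, ∀ v ∈ tsupport ρ, ∀ t ∈ Set.Icc (0 : ℝ) 1, x + t • v ∈ D
  hχ : ContDiff ℝ ∞ χ
  hχc : HasCompactSupport χ
  hψ : ContDiff ℝ ∞ ψ
  hψc : HasCompactSupport ψ
  hψχ : ∀ x, ψ x * χ x = χ x
  hagree : ∀ x ∈ tsupport ψ, x ∈ D ↔ x ∈ Ω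

/-! ## Sobolev spaces of forms on open sets, as Hilbert spaces -/

/-- words of length at most `m` in the letters `1, ..., n` -/
def Word (n m : ℕ) := {J : List (Fin n) // J.length ≤ m}

instance (n m : ℕ) : Finite (Word n m) := (List.finite_length_le (Fin n) m).to_subtype

noncomputable instance (n m : ℕ) : Fintype (Word n m) := Fintype.ofFinite _

/-- the empty word -/
def Word.nil {n m : ℕ} : Word n m := ⟨[], by simp⟩

/-- add a letter -/
def Word.cons {n m : ℕ} (j : Fin n) (J : Word n m) (h : J.1.length < m) : Word n m :=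
  ⟨j :: J.1, by simpa using h⟩

/-- index set -/
abbrev Ix (n m : ℕ) := Bool × Finset (Fin n) × Word n m

/-- ambient Hilbert space: finite families in `L²(U)` -/
noncomputable abbrev Amb {n : ℕ} (m : ℕ) (U : Set (Eu n)) := PiLp 2 (fun _ : Ix n m => LL U)

/-- membership in `H^{(m,m)}Λ^k(U)`: `F (false, S, J)` is the weak derivative `D^J w_S` and
`F (true, S, J)` is `D^J (dw)_S` -/
def IsHmm {n : ℕ} (m k : ℕ) (U : Set (Eu n)) (F : Amb m U) : Prop :=
  (∀ (b : Bool) (S : Finset (Fin n)) (J : Word n m) (j : Fin n) (h : J.1.length < m),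
    WD U j (F (b, S, J) : Eu n → ℝ) (F (b, S, J.cons j h) : Eu n → ℝ)) ∧
  (∀ S : Finset (Fin n), S.card ≠ k → F (false, S, Word.nil) = 0) ∧
  WDF U (fun S => (F (false, S, Word.nil) : Eu n → ℝ)) (fun S => (F (true, S, Word.nil) : Eu n → ℝ))

/-- harmonic `k`-forms: square integrable, `dh = 0`, and `h` is orthogonal to `dη` for all
`η ∈ HΛ^{k-1}(U)` (the weak form of `δ h = 0` with vanishing normal trace) -/
def IsHarm {n : ℕ} (k : ℕ) (U : Set (Eu n)) (h : Finset (Fin n) → LL U) : Prop :=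
  (∀ S : Finset (Fin n), S.card ≠ k → h S = 0) ∧
  WDF U (fun S => (h S : Eu n → ℝ)) (fun _ _ => 0) ∧
  ∀ η ζ : Finset (Fin n) → LL U, (∀ S : Finset (Fin n), S.card + 1 ≠ k → η S = 0) →
    WDF U (fun S => (η S : Eu n → ℝ)) (fun S => (ζ S : Eu n → ℝ)) → ∑ S, inner ℝ (h S) (ζ S) = 0

/-- membership in `H^{(m,m)}Λ^k(U) ∩ 𝔥^k(U)^⊥` -/
def IsDom {n : ℕ} (m k : ℕ) (U : Set (Eu n)) (F : Amb m U) : Prop :=
  IsHmm m k U F ∧ ∀ h : Finset (Fin n) → LL U, IsHarm k U h →
    ∑ S, inner ℝ (F (false, S, Word.nil)) (h S) = 0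

end Pool.Agent.CochExt
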