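import Pool.Agent.CochExt.Wdf

set_option autoImplicit false

/-! # Module SOBB: basic facts on `SOB` (inductions on `m`) and cut-offs -/

open MeasureTheory
open scoped ContDiff

namespace Pool.Agent.CochExt

variable {n : ℕ}

theorem SOB_zero (m : ℕ) (U : Set (Eu n)) : SOB m U (0 : H n) := by
  induction m with
  | zero => trivial
  | succ m ih => exact fun j => ⟨0, WD_zero U j, ih⟩

theorem SOB_add {m : ℕ} {U : Set (Eu n)} {f g : H n} (hf : SOB m U f) (hg : SOB m U g) :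
    SOB m U (f + g) := by
  induction m generalizing f g with
  | zero => trivial
  | succ m ih =>
    intro j
    obtain ⟨f', hf1, hf2⟩ := hf j
    obtain ⟨g', hg1, hg2⟩ := hg j
    exact ⟨f' + g', WD_add hf1 hg1, ih hf2 hg2⟩

theorem SOB_smul {m : ℕ} {U : Set (Eu n)} {f : H n} (c : ℝ) (hf : SOB m U f) :
    SOB m U (c • f) := by
  induction m generalizing f with
  | zero => trivial
  | succ m ih =>
    intro j
    obtain ⟨f', hf1, hf2⟩ := hf j
    exact ⟨c • f', WD_smul c hf1, ih hf2⟩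

theorem SOB_sub {m : ℕ} {U : Set (Eu n)} {f g : H n} (hf : SOB m U f) (hg : SOB m U g) :
    SOB m U (f - g) := by
  have h1 := SOB_add hf (SOB_smul (-1) hg)
  simpa [sub_eq_add_neg] using h1

theorem SOB_sum {ι : Type} {m : ℕ} {U : Set (Eu n)} (s : Finset ι) {f : ι → H n}
    (h : ∀ i ∈ s, SOB m U (f i)) : SOB m U (∑ i ∈ s, f i) := by
  classical
  induction s using Finset.induction_on with
  | empty => simpa using SOB_zero m U
  | insert a s ha ih =>
    rw [Finset.sum_insert ha]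
    exact SOB_add (h a (Finset.mem_insert_self a s))
      (ih fun i hi => h i (Finset.mem_insert_of_mem hi))

theorem SOB_mono {m : ℕ} {U V : Set (Eu n)} (hUV : U ⊆ V) {f : H n} (h : SOB m V f) :
    SOB m U f := by
  induction m generalizing f with
  | zero => trivial
  | succ m ih =>
    intro j
    obtain ⟨g, hg1, hg2⟩ := h j
    exact ⟨g, hg1.mono hUV, ih hg2⟩

theorem SOB_of_succ {m : ℕ} {U : Set (Eu n)} {f : H n} (h : SOB (m + 1) U f) : SOB m U f := by
  induction m generalizing f with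
  | zero => trivial
  | succ m ih =>
    intro j
    obtain ⟨g, hg1, hg2⟩ := h j
    exact ⟨g, hg1, ih hg2⟩

theorem SOB_of_le {m k : ℕ} (hk : k ≤ m) {U : Set (Eu n)} {f : H n} (h : SOB m U f) :
    SOB k U f := by
  induction m, hk using Nat.le_induction with
  | base => exact h
  | succ m _ ih => exact ih (SOB_of_succ h)

theorem SOB_congr {m : ℕ} {U : Set (Eu n)} (hU : MeasurableSet U) {f g : H n}
    (hfg : (f : Eu n → ℝ) =ᵐ[volume.restrict U] g) (h : SOB m U f) : SOB m U g := by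
  cases m with
  | zero => trivial
  | succ m =>
    intro j
    obtain ⟨g', hg1, hg2⟩ := h j
    exact ⟨g', WD_congr hU hfg Filter.EventuallyEq.rfl hg1, hg2⟩

theorem ccs_of_smooth {χ : Eu n → ℝ} (hχ : ContDiff ℝ ∞ χ) (hc : HasCompactSupport χ) :
    CCS χ := ⟨hχ.continuous, hc⟩

/-- integration against a continuous compactly supported function, as a linear functional -/
noncomputable def SOBB_L (ψ : Eu n → ℝ) (hψ : CCS ψ) : H n →ₗ[ℝ] ℝ where
  toFun f := ∫ x, (f : Eu n → ℝ) x * ψ x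
  map_add' f g := by
    rw [← integral_add (int_H f hψ) (int_H g hψ)]
    refine integral_congr_ae ?_
    filter_upwards [Lp.coeFn_add f g] with x hx
    rw [hx]
    simp only [Pi.add_apply]
    ring
  map_smul' c f := by
    rw [RingHom.id_apply, smul_eq_mul, ← integral_const_mul]
    refine integral_congr_ae ?_
    filter_upwards [Lp.coeFn_smul c f] with x hx
    rw [hx]
    simp only [Pi.smul_apply, smul_eq_mul]
    ring

theorem SOBB_L_apply (ψ : Eu n → ℝ) (hψ : CCS ψ) (f : H n) :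
    SOBB_L ψ hψ f = ∫ x, (f : Eu n → ℝ) x * ψ x := rfl

theorem SOBB_test {χ : Eu n → ℝ} (hχ : ContDiff ℝ ∞ χ) (hc : HasCompactSupport χ) :
    Test Set.univ χ := ⟨hχ, hc, Set.subset_univ _⟩

theorem SOBB_ccs_pd {χ : Eu n → ℝ} (hχ : ContDiff ℝ ∞ χ) (hc : HasCompactSupport χ) (j : Fin n) :
    CCS (pd j χ) := ((SOBB_test hχ hc).pd j).ccs

theorem SOBB_mu {χ : Eu n → ℝ} (hχ : CCS χ) (f : H n) (φ : Eu n → ℝ) :
    ∫ x, (mu χ f : Eu n → ℝ) x * φ x = ∫ x, (f : Eu n → ℝ) x * (χ x * φ x) := by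
  refine integral_congr_ae ?_
  filter_upwards [mu_ae hχ f] with x hx
  rw [hx]
  ring

/-- product rule, integrated form -/
theorem SOBB_cut {U V : Set (Eu n)} {χ : Eu n → ℝ} (hχ : ContDiff ℝ ∞ χ) (hc : HasCompactSupport χ)
    (hag : ∀ x ∈ tsupport χ, x ∈ V → x ∈ U) (j : Fin n) (f : H n) {φ : Eu n → ℝ}
    (hφ : Test V φ) :
    ∫ x, (mu χ f : Eu n → ℝ) x * pd j φ x =
      (∫ x, (f : Eu n → ℝ) x * pd j (fun y => χ y * φ y) x) -
        ∫ x, (mu (pd j χ) f : Eu n → ℝ) x * φ x := by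
  have hT : Test U (fun x => χ x * φ x) := Test.mul hχ hag hφ
  rw [SOBB_mu (ccs_of_smooth hχ hc), SOBB_mu (SOBB_ccs_pd hχ hc j)]
  have hi2 : Integrable (fun x => (f : Eu n → ℝ) x * (pd j χ x * φ x)) := by
    refine int_H f ⟨?_, ?_⟩
    · exact ((contDiff_pd hχ j).continuous).mul hφ.1.continuous
    · exact hφ.2.1.mul_left
  rw [← integral_sub (int_H f (hT.pd j).ccs) hi2]
  refine integral_congr_ae ?_
  filter_upwards with x
  rw [pd_mul hχ hφ.1 j x]
  ring

/-- product rule, moving from `U` to `V` with `V ∩ tsupport χ ⊆ U` -/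
theorem WD_cut {U V : Set (Eu n)} {χ : Eu n → ℝ} (hχ : ContDiff ℝ ∞ χ) (hc : HasCompactSupport χ)
    (hag : ∀ x ∈ tsupport χ, x ∈ V → x ∈ U) {j : Fin n} {f g : H n}
    (h : WD U j (f : Eu n → ℝ) (g : Eu n → ℝ)) :
    WD V j (mu χ f : Eu n → ℝ) ((mu χ g + mu (pd j χ) f : H n) : Eu n → ℝ) := by
  intro φ hφ
  have hT : Test U (fun x => χ x * φ x) := Test.mul hχ hag hφ
  have h2 : ∫ x, ((mu χ g + mu (pd j χ) f : H n) : Eu n → ℝ) x * φ x =
    SOBB_L φ hφ.ccs (mu χ g + mu (pd j χ) f) := rfl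
  rw [h2, map_add, SOBB_L_apply, SOBB_L_apply, SOBB_cut hχ hc hag j f hφ, h _ hT,
    SOBB_mu (ccs_of_smooth hχ hc) g]
  ring

theorem SOB_cut {m : ℕ} {U V : Set (Eu n)} {χ : Eu n → ℝ} (hχ : ContDiff ℝ ∞ χ)
    (hc : HasCompactSupport χ) (hag : ∀ x ∈ tsupport χ, x ∈ V → x ∈ U) {f : H n}
    (h : SOB m U f) : SOB m V (mu χ f) := by
  induction m generalizing f χ with
  | zero => trivial
  | succ m ih =>
    intro j
    obtain ⟨g, hg1, hg2⟩ := h j
    refine ⟨mu χ g + mu (pd j χ) f, WD_cut hχ hc hag hg1, SOB_add (ih hχ hc hag hg2) ?_⟩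
    exact ih (contDiff_pd hχ j) ((SOBB_test hχ hc).pd j).2.1
      (fun x hx hV => hag x (tsupport_pd χ j hx) hV) (SOB_of_succ h)

/-- product rule for the exterior derivative -/
theorem WDH_cut {U V : Set (Eu n)} {χ : Eu n → ℝ} (hχ : ContDiff ℝ ∞ χ) (hc : HasCompactSupport χ)
    (hag : ∀ x ∈ tsupport χ, x ∈ V → x ∈ U) {w u : FH n} (h : WDH U w u) :
    WDH V (muF χ w) (muF χ u + wdF χ w) := by
  intro φ hφ S
  have hT : Test U (fun x => χ x * φ x) := Test.mul hχ hag hφ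
  have h2 : ∫ x, ((muF χ u + wdF χ w) S : Eu n → ℝ) x * φ x =
    SOBB_L φ hφ.ccs (mu χ (u S) + wdF χ w S) := rfl
  show ∑ i ∈ S, sg i S * ∫ x, (mu χ (w (S.erase i)) : Eu n → ℝ) x * pd i φ x =
    - ∫ x, ((muF χ u + wdF χ w) S : Eu n → ℝ) x * φ x
  have h3 := h _ hT S
  simp only at h3
  have h4 : ∀ i ∈ S, sg i S * ∫ x, (mu χ (w (S.erase i)) : Eu n → ℝ) x * pd i φ x =
      sg i S * (∫ x, (w (S.erase i) : Eu n → ℝ) x * pd i (fun y => χ y * φ y) x) -
        sg i S * ∫ x, (mu (pd i χ) (w (S.erase i)) : Eu n → ℝ) x * φ x := by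
    intro i _
    rw [SOBB_cut hχ hc hag i _ hφ, mul_sub]
  rw [h2, map_add, wdF_apply, map_sum, Finset.sum_congr rfl h4, Finset.sum_sub_distrib, h3,
    SOBB_L_apply, SOBB_mu (ccs_of_smooth hχ hc) (u S)]
  have h5 : ∀ i ∈ S, (SOBB_L φ hφ.ccs) (sg i S • mu (pd i χ) (w (S.erase i))) =
      sg i S * ∫ x, (mu (pd i χ) (w (S.erase i)) : Eu n → ℝ) x * φ x := by
    intro i _
    rw [map_smul, smul_eq_mul, SOBB_L_apply]
  rw [Finset.sum_congr rfl h5]
  ring

theorem SOBF_wdF {m : ℕ} {U V : Set (Eu n)} {χ : Eu n → ℝ} (hχ : ContDiff ℝ ∞ χ)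
    (hc : HasCompactSupport χ) (hag : ∀ x ∈ tsupport χ, x ∈ V → x ∈ U) {w : FH n}
    (h : SOBF m U w) : SOBF m V (wdF χ w) := by
  intro S
  rw [wdF_apply]
  refine SOB_sum S fun i _ => SOB_smul _ ?_
  exact SOB_cut (contDiff_pd hχ i) ((SOBB_test hχ hc).pd i).2.1
    (fun x hx hV => hag x (tsupport_pd χ i hx) hV) (h _)

/-- a form with coefficients in `H^{m+1}` has an exterior derivative with coefficients in `H^m` -/
theorem WDH_of_SOBF {m : ℕ} {U : Set (Eu n)} {w : FH n} (h : SOBF (m + 1) U w) :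
    ∃ u : FH n, WDH U w u ∧ SOBF m U u := by
  have h1 : ∀ (S : Finset (Fin n)) (j : Fin n), ∃ g : H n,
    WD U j (w (S.erase j) : Eu n → ℝ) (g : Eu n → ℝ) ∧ SOB m U g := fun S j => h (S.erase j) j
  choose g hg1 hg2 using h1
  refine ⟨fun S => ∑ i ∈ S, sg i S • g S i, ?_, ?_⟩
  · intro φ hφ S
    have h2 : ∫ x, ((∑ i ∈ S, sg i S • g S i : H n) : Eu n → ℝ) x * φ x =
      SOBB_L φ hφ.ccs (∑ i ∈ S, sg i S • g S i) := rfl
    show ∑ i ∈ S, sg i S * ∫ x, (w (S.erase i) : Eu n → ℝ) x * pd i φ x =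
      - ∫ x, ((∑ i ∈ S, sg i S • g S i : H n) : Eu n → ℝ) x * φ x
    rw [h2, map_sum, ← Finset.sum_neg_distrib]
    refine Finset.sum_congr rfl fun i _ => ?_
    rw [map_smul, smul_eq_mul, SOBB_L_apply, hg1 S i φ hφ]
    ring
  · intro S
    exact SOB_sum S fun i _ => SOB_smul _ (hg2 S i)

end Pool.Agent.CochExt
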