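import Pool.Agent.CochExt.Br
import Pool.Agent.CochExt.Sobb

set_option autoImplicit false

/-! # Module JET: `SOB` and families of weak derivatives (inductions on the length of words) -/

open MeasureTheory TopologicalSpace
open scoped ContDiff

namespace Pool.Agent.CochExt

variable {n : ℕ}

theorem jet_aux (m : ℕ) {U : Set (Eu n)} {f : H n} (hf : SOB m U f) :
    ∃ D : List (Fin n) → H n, D [] = f ∧
      ∀ (J : List (Fin n)) (j : Fin n), J.length < m →
        WD U j (D J : Eu n → ℝ) (D (j :: J) : Eu n → ℝ) := by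
  classical
  let D : List (Fin n) → H n := fun J => List.rec (motive := fun _ => H n) f
    (fun j tl ih => if h : ∃ g : H n, WD U j (ih : Eu n → ℝ) (g : Eu n → ℝ) ∧
      SOB (m - tl.length - 1) U g then h.choose else 0) J
  have hcons : ∀ (j : Fin n) (tl : List (Fin n)), D (j :: tl) =
      if h : ∃ g : H n, WD U j (D tl : Eu n → ℝ) (g : Eu n → ℝ) ∧
        SOB (m - tl.length - 1) U g then h.choose else 0 := fun j tl => rfl
  have hSOB : ∀ J : List (Fin n), J.length ≤ m → SOB (m - J.length) U (D J) := by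
    intro J
    induction J with
    | nil =>
      intro _
      exact hf
    | cons j tl ih =>
      intro hJ
      rw [List.length_cons] at hJ
      have h1 := ih (by omega)
      have h2 : m - tl.length = (m - tl.length - 1) + 1 := by omega
      rw [h2] at h1
      have h3 : ∃ g : H n, WD U j (D tl : Eu n → ℝ) (g : Eu n → ℝ) ∧
        SOB (m - tl.length - 1) U g := h1 j
      rw [hcons, dif_pos h3, List.length_cons]
      have h4 : m - (tl.length + 1) = m - tl.length - 1 := by omega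
      rw [h4]
      exact h3.choose_spec.2
  refine ⟨D, rfl, fun J j hJ => ?_⟩
  have h1 := hSOB J hJ.le
  have h2 : m - J.length = (m - J.length - 1) + 1 := by omega
  rw [h2] at h1
  have h3 : ∃ g : H n, WD U j (D J : Eu n → ℝ) (g : Eu n → ℝ) ∧
    SOB (m - J.length - 1) U g := h1 j
  rw [hcons, dif_pos h3]
  exact h3.choose_spec.1

/-- choose the derivatives recursively -/
theorem jet_of_SOB (m : ℕ) {U : Set (Eu n)} (hU : IsOpen U) {f : H n} (hf : SOB m U f) :
    ∃ G : Word n m → LL U, G Word.nil = rs U f ∧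
      ∀ (J : Word n m) (j : Fin n) (h : J.1.length < m),
        WD U j (G J : Eu n → ℝ) (G (J.cons j h) : Eu n → ℝ) := by
  obtain ⟨D, hD0, hD⟩ := jet_aux m hf
  refine ⟨fun J => rs U (D J.1), ?_, fun J j h => ?_⟩
  · show rs U (D []) = rs U f
    rw [hD0]
  · show WD U j (rs U (D J.1) : Eu n → ℝ) (rs U (D (j :: J.1)) : Eu n → ℝ)
    rw [WD_rs hU.measurableSet]
    exact hD J.1 j h

theorem SOB_of_jet (m : ℕ) {U : Set (Eu n)} (hU : IsOpen U) (G : Word n m → LL U)
    (hG : ∀ (J : Word n m) (j : Fin n) (h : J.1.length < m),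
        WD U j (G J : Eu n → ℝ) (G (J.cons j h) : Eu n → ℝ)) :
    SOB m U (zx U (G Word.nil)) := by
  have key : ∀ (k : ℕ) (J : Word n m), J.1.length + k = m → SOB k U (zx U (G J)) := by
    intro k
    induction k with
    | zero => intro J _; trivial
    | succ k ih =>
      intro J hJ j
      have hlt : J.1.length < m := by omega
      refine ⟨zx U (G (J.cons j hlt)), (WD_zx hU.measurableSet _ _).2 (hG J j hlt), ?_⟩
      apply ih
      show (j :: J.1).length + k = m
      rw [List.length_cons]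
      omega
  apply key m
  show ([] : List (Fin n)).length + m = m
  simp

theorem jet_unique (m : ℕ) {U V V' : Set (Eu n)} (hU : IsOpen U) (hV : MeasurableSet V)
    (hV' : MeasurableSet V') (hUV : U ⊆ V) (hUV' : U ⊆ V') (G : Word n m → LL V)
    (G' : Word n m → LL V')
    (hG : ∀ (J : Word n m) (j : Fin n) (h : J.1.length < m),
        WD V j (G J : Eu n → ℝ) (G (J.cons j h) : Eu n → ℝ))
    (hG' : ∀ (J : Word n m) (j : Fin n) (h : J.1.length < m),
        WD V' j (G' J : Eu n → ℝ) (G' (J.cons j h) : Eu n → ℝ))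
    (h0 : (G Word.nil : Eu n → ℝ) =ᵐ[volume.restrict U] G' Word.nil) (J : Word n m) :
    (G J : Eu n → ℝ) =ᵐ[volume.restrict U] G' J := by
  obtain ⟨l, hl⟩ := J
  induction l with
  | nil => exact h0
  | cons j l ih =>
    have hlt : l.length < m := by
      rw [List.length_cons] at hl
      omega
    have h1 := ih hlt.le
    have h2 : WD U j (G ⟨l, hlt.le⟩ : Eu n → ℝ) (G ⟨j :: l, hl⟩ : Eu n → ℝ) :=
      (hG ⟨l, hlt.le⟩ j hlt).mono hUV
    have h3 : WD U j (G' ⟨l, hlt.le⟩ : Eu n → ℝ) (G' ⟨j :: l, hl⟩ : Eu n → ℝ) :=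
      (hG' ⟨l, hlt.le⟩ j hlt).mono hUV'
    have hz : (zx V (G ⟨j :: l, hl⟩) : Eu n → ℝ) =ᵐ[volume.restrict U] G ⟨j :: l, hl⟩ :=
      ae_restrict_of_ae_restrict_of_subset hUV (zx_ae hV _)
    have hz' : (zx V' (G' ⟨j :: l, hl⟩) : Eu n → ℝ) =ᵐ[volume.restrict U] G' ⟨j :: l, hl⟩ :=
      ae_restrict_of_ae_restrict_of_subset hUV' (zx_ae hV' _)
    have h4 : WD U j (G' ⟨l, hlt.le⟩ : Eu n → ℝ) (zx V (G ⟨j :: l, hl⟩) : Eu n → ℝ) :=
      WD_congr hU.measurableSet h1 hz.symm h2
    have h5 : WD U j (G' ⟨l, hlt.le⟩ : Eu n → ℝ) (zx V' (G' ⟨j :: l, hl⟩) : Eu n → ℝ) :=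
      WD_congr hU.measurableSet (Filter.EventuallyEq.refl _ _) hz'.symm h3
    exact hz.symm.trans ((WD_unique hU h4 h5).trans hz')

end Pool.Agent.CochExt
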