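import Pool.Agent.CochExt.Br

set_option autoImplicit false

/-! # Module SPC: the Hilbert spaces `H^{(m,m)}Λ^k(U)` and `H^{(m,m)}Λ^k(U) ∩ 𝔥^k(U)^⊥` -/

open MeasureTheory TopologicalSpace
open scoped ContDiff

namespace Pool.Agent.CochExt

variable {n : ℕ}

theorem spc_meas (U : Opens (Eu n)) : MeasurableSet (U : Set (Eu n)) := U.isOpen.measurableSet

theorem spc_WD_zero (U : Opens (Eu n)) (j : Fin n) :
    WD (U : Set (Eu n)) j ((0 : LL (U : Set (Eu n))) : Eu n → ℝ)
      ((0 : LL (U : Set (Eu n))) : Eu n → ℝ) := by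
  rw [← WD_zx (spc_meas U), map_zero]
  exact WD_zero _ _

theorem spc_WD_add {U : Opens (Eu n)} {j : Fin n} {f f' g g' : LL (U : Set (Eu n))}
    (h : WD (U : Set (Eu n)) j (f : Eu n → ℝ) (f' : Eu n → ℝ))
    (h' : WD (U : Set (Eu n)) j (g : Eu n → ℝ) (g' : Eu n → ℝ)) :
    WD (U : Set (Eu n)) j ((f + g : LL (U : Set (Eu n))) : Eu n → ℝ)
      ((f' + g' : LL (U : Set (Eu n))) : Eu n → ℝ) := by
  rw [← WD_zx (spc_meas U)] at h h' ⊢
  rw [map_add, map_add]
  exact WD_add h h'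

theorem spc_WD_smul {U : Opens (Eu n)} {j : Fin n} {f f' : LL (U : Set (Eu n))} (c : ℝ)
    (h : WD (U : Set (Eu n)) j (f : Eu n → ℝ) (f' : Eu n → ℝ)) :
    WD (U : Set (Eu n)) j ((c • f : LL (U : Set (Eu n))) : Eu n → ℝ)
      ((c • f' : LL (U : Set (Eu n))) : Eu n → ℝ) := by
  rw [← WD_zx (spc_meas U)] at h ⊢
  rw [map_smul, map_smul]
  exact WD_smul c h

theorem IsHmm_zero (m k : ℕ) (U : Opens (Eu n)) : IsHmm m k (U : Set (Eu n)) 0 := by
  refine ⟨fun b S J j h => ?_, fun S _ => ?_, ?_⟩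
  · exact spc_WD_zero U j
  · rfl
  · rw [← WDF_zx (spc_meas U)]
    have : (fun S : Finset (Fin n) => zx (U : Set (Eu n))
        ((0 : Amb m (U : Set (Eu n))) (false, S, Word.nil))) = 0 := by
      ext1 S
      rw [PiLp.zero_apply, map_zero]
      rfl
    have h2 : (fun S : Finset (Fin n) => zx (U : Set (Eu n))
        ((0 : Amb m (U : Set (Eu n))) (true, S, Word.nil))) = 0 := by
      ext1 S
      rw [PiLp.zero_apply, map_zero]
      rfl
    rw [this, h2]
    exact WDH_zero _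

theorem IsHmm_add {m k : ℕ} {U : Opens (Eu n)} {F G : Amb m (U : Set (Eu n))}
    (hF : IsHmm m k (U : Set (Eu n)) F) (hG : IsHmm m k (U : Set (Eu n)) G) :
    IsHmm m k (U : Set (Eu n)) (F + G) := by
  refine ⟨fun b S J j h => ?_, fun S hS => ?_, ?_⟩
  · exact spc_WD_add (hF.1 b S J j h) (hG.1 b S J j h)
  · rw [PiLp.add_apply, hF.2.1 S hS, hG.2.1 S hS, add_zero]
  · have h1 := hF.2.2
    have h2 := hG.2.2
    rw [← WDF_zx (spc_meas U)] at h1 h2 ⊢
    have h3 := WDH_add h1 h2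
    have h4 : (fun S : Finset (Fin n) => zx (U : Set (Eu n)) ((F + G) (false, S, Word.nil))) =
        (fun S => zx (U : Set (Eu n)) (F (false, S, Word.nil))) +
          (fun S => zx (U : Set (Eu n)) (G (false, S, Word.nil))) := by
      ext1 S
      rw [PiLp.add_apply, map_add]
      rfl
    have h5 : (fun S : Finset (Fin n) => zx (U : Set (Eu n)) ((F + G) (true, S, Word.nil))) =
        (fun S => zx (U : Set (Eu n)) (F (true, S, Word.nil))) +
          (fun S => zx (U : Set (Eu n)) (G (true, S, Word.nil))) := by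
      ext1 S
      rw [PiLp.add_apply, map_add]
      rfl
    rw [h4, h5]
    exact h3

theorem IsHmm_smul {m k : ℕ} {U : Opens (Eu n)} (c : ℝ) {F : Amb m (U : Set (Eu n))}
    (hF : IsHmm m k (U : Set (Eu n)) F) : IsHmm m k (U : Set (Eu n)) (c • F) := by
  refine ⟨fun b S J j h => ?_, fun S hS => ?_, ?_⟩
  · exact spc_WD_smul c (hF.1 b S J j h)
  · rw [PiLp.smul_apply, hF.2.1 S hS, smul_zero]
  · have h1 := hF.2.2
    rw [← WDF_zx (spc_meas U)] at h1 ⊢
    have h3 := WDH_smul c h1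
    have h4 : (fun S : Finset (Fin n) => zx (U : Set (Eu n)) ((c • F) (false, S, Word.nil))) =
        c • (fun S => zx (U : Set (Eu n)) (F (false, S, Word.nil))) := by
      ext1 S
      rw [PiLp.smul_apply, map_smul]
      rfl
    have h5 : (fun S : Finset (Fin n) => zx (U : Set (Eu n)) ((c • F) (true, S, Word.nil))) =
        c • (fun S => zx (U : Set (Eu n)) (F (true, S, Word.nil))) := by
      ext1 S
      rw [PiLp.smul_apply, map_smul]
      rfl
    rw [h4, h5]
    exact h3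

/-- `H^{(m,m)}Λ^k(U)`, with `‖F‖² = ∑_S ∑_J ‖D^J w_S‖² + ∑_S ∑_J ‖D^J (dw)_S‖²` -/
noncomputable def Hmm (m k : ℕ) (U : Opens (Eu n)) : Submodule ℝ (Amb m (U : Set (Eu n))) where
  carrier := {F | IsHmm m k (U : Set (Eu n)) F}
  zero_mem' := IsHmm_zero m k U
  add_mem' := IsHmm_add
  smul_mem' := fun c _ h => IsHmm_smul c h

/-- `H^{(m,m)}Λ^k(U) ∩ 𝔥^k(U)^⊥` -/
noncomputable def Dom (m k : ℕ) (U : Opens (Eu n)) : Submodule ℝ (Amb m (U : Set (Eu n))) where
  carrier := {F | IsDom m k (U : Set (Eu n)) F}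
  zero_mem' := ⟨IsHmm_zero m k U, fun h _ => by simp⟩
  add_mem' := by
    rintro F G ⟨hF, hF'⟩ ⟨hG, hG'⟩
    refine ⟨IsHmm_add hF hG, fun h hh => ?_⟩
    have h1 := hF' h hh
    have h2 := hG' h hh
    simp only [PiLp.add_apply, inner_add_left, Finset.sum_add_distrib, h1, h2, add_zero]
  smul_mem' := by
    rintro c F ⟨hF, hF'⟩
    refine ⟨IsHmm_smul c hF, fun h hh => ?_⟩
    have h1 := hF' h hh
    simp only [PiLp.smul_apply, inner_smul_left, ← Finset.mul_sum, h1, mul_zero]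

theorem spc_hmc_iff (C : Set (Eu n)) (f : LL ((⊤ : Opens (Eu n)) : Set (Eu n))) :
    (f : Eu n → ℝ) =ᵐ[volume.restrict Cᶜ] 0 ↔
      rs Cᶜ (zx ((⊤ : Opens (Eu n)) : Set (Eu n)) f) = 0 := by
  have h1 : (zx ((⊤ : Opens (Eu n)) : Set (Eu n)) f : Eu n → ℝ) =ᵐ[volume.restrict Cᶜ] f :=
    ae_restrict_of_ae_restrict_of_subset (Set.subset_univ _) (zx_ae (spc_meas ⊤) f)
  have h2 := rs_ae Cᶜ (zx ((⊤ : Opens (Eu n)) : Set (Eu n)) f)
  rw [ll_eq_iff]
  have h3 := Lp.coeFn_zero ℝ 2 ((volume : Measure (Eu n)).restrict Cᶜ)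
  constructor
  · intro h
    exact (h2.trans (h1.trans h)).trans h3.symm
  · intro h
    exact (h2.trans h1).symm.trans (h.trans h3)

/-- the elements of `H^{(m,m)}Λ^k(ℝⁿ)` vanishing outside `C` -/
noncomputable def HmC (m k : ℕ) (C : Set (Eu n)) :
    Submodule ℝ (Amb m ((⊤ : Opens (Eu n)) : Set (Eu n))) where
  carrier := {F | IsHmm m k ((⊤ : Opens (Eu n)) : Set (Eu n)) F ∧
    ∀ i, (F i : Eu n → ℝ) =ᵐ[volume.restrict Cᶜ] 0}
  zero_mem' := by
    refine ⟨IsHmm_zero m k ⊤, fun i => ?_⟩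
    rw [spc_hmc_iff, PiLp.zero_apply, map_zero, map_zero]
  add_mem' := by
    rintro F G ⟨hF, hF'⟩ ⟨hG, hG'⟩
    refine ⟨IsHmm_add hF hG, fun i => ?_⟩
    have h1 := hF' i
    have h2 := hG' i
    rw [spc_hmc_iff] at h1 h2 ⊢
    rw [PiLp.add_apply, map_add, map_add, h1, h2, add_zero]
  smul_mem' := by
    rintro c F ⟨hF, hF'⟩
    refine ⟨IsHmm_smul c hF, fun i => ?_⟩
    have h1 := hF' i
    rw [spc_hmc_iff] at h1 ⊢
    rw [PiLp.smul_apply, map_smul, map_smul, h1, smul_zero]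

theorem spc_cont (m : ℕ) (U : Set (Eu n)) (i : Ix n m) :
    Continuous (fun F : Amb m U => F i) := by
  exact (continuous_apply i).comp (PiLp.continuous_ofLp 2 _)

theorem spc_closed_WD (m : ℕ) (U : Opens (Eu n)) (j : Fin n) (i i' : Ix n m) :
    IsClosed {F : Amb m (U : Set (Eu n)) | WD (U : Set (Eu n)) j (F i : Eu n → ℝ)
      (F i' : Eu n → ℝ)} := by
  have h1 : Continuous (fun F : Amb m (U : Set (Eu n)) =>
      ((zx (U : Set (Eu n)) (F i), zx (U : Set (Eu n)) (F i')) : H n × H n)) :=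
    ((zx (U : Set (Eu n))).continuous.comp (spc_cont m _ i)).prodMk
      ((zx (U : Set (Eu n))).continuous.comp (spc_cont m _ i'))
  have h2 := (WD_closed (U : Set (Eu n)) j).preimage h1
  convert h2 using 1
  ext F
  exact (WD_zx (spc_meas U) _ _).symm

theorem spc_closed_WDF (m : ℕ) (U : Opens (Eu n)) :
    IsClosed {F : Amb m (U : Set (Eu n)) | WDF (U : Set (Eu n))
      (fun S => (F (false, S, Word.nil) : Eu n → ℝ))
      (fun S => (F (true, S, Word.nil) : Eu n → ℝ))} := by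
  have h1 : Continuous (fun F : Amb m (U : Set (Eu n)) =>
      (((fun S => zx (U : Set (Eu n)) (F (false, S, Word.nil))),
        (fun S => zx (U : Set (Eu n)) (F (true, S, Word.nil)))) : FH n × FH n)) :=
    (continuous_pi fun S => (zx (U : Set (Eu n))).continuous.comp (spc_cont m _ _)).prodMk
      (continuous_pi fun S => (zx (U : Set (Eu n))).continuous.comp (spc_cont m _ _))
  have h2 := (WDH_closed (U : Set (Eu n))).preimage h1
  convert h2 using 1
  ext F
  exact (WDF_zx (spc_meas U) (fun S => F (false, S, Word.nil))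
    (fun S => F (true, S, Word.nil))).symm

theorem isClosed_Hmm (m k : ℕ) (U : Opens (Eu n)) :
    IsClosed (Hmm m k U : Set (Amb m (U : Set (Eu n)))) := by
  have h1 : (Hmm m k U : Set (Amb m (U : Set (Eu n)))) =
      (⋂ (b : Bool) (S : Finset (Fin n)) (J : Word n m) (j : Fin n) (h : J.1.length < m),
        {F : Amb m (U : Set (Eu n)) | WD (U : Set (Eu n)) j (F (b, S, J) : Eu n → ℝ)
          (F (b, S, J.cons j h) : Eu n → ℝ)}) ∩
      ((⋂ (S : Finset (Fin n)) (_ : S.card ≠ k),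
        {F : Amb m (U : Set (Eu n)) | F (false, S, Word.nil) = 0}) ∩
      {F : Amb m (U : Set (Eu n)) | WDF (U : Set (Eu n))
        (fun S => (F (false, S, Word.nil) : Eu n → ℝ))
        (fun S => (F (true, S, Word.nil) : Eu n → ℝ))}) := by
    ext F
    simp only [Set.mem_inter_iff, Set.mem_iInter, Set.mem_ofPred_eq]
    exact Iff.rfl
  rw [h1]
  refine IsClosed.inter ?_ (IsClosed.inter ?_ (spc_closed_WDF m U))
  · exact isClosed_iInter fun b => isClosed_iInter fun S => isClosed_iInter fun J =>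
      isClosed_iInter fun j => isClosed_iInter fun h => spc_closed_WD m U j _ _
  · exact isClosed_iInter fun S => isClosed_iInter fun _ =>
      isClosed_eq (spc_cont m _ _) continuous_const

theorem isClosed_Dom (m k : ℕ) (U : Opens (Eu n)) :
    IsClosed (Dom m k U : Set (Amb m (U : Set (Eu n)))) := by
  have h1 : (Dom m k U : Set (Amb m (U : Set (Eu n)))) =
      (Hmm m k U : Set (Amb m (U : Set (Eu n)))) ∩
      (⋂ (h : Finset (Fin n) → LL (U : Set (Eu n))) (_ : IsHarm k (U : Set (Eu n)) h),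
        {F : Amb m (U : Set (Eu n)) | ∑ S, inner ℝ (F (false, S, Word.nil)) (h S) = 0}) := by
    ext F
    simp only [Set.mem_inter_iff, Set.mem_iInter, Set.mem_ofPred_eq]
    exact Iff.rfl
  rw [h1]
  refine IsClosed.inter (isClosed_Hmm m k U) ?_
  refine isClosed_iInter fun h => isClosed_iInter fun _ => isClosed_eq ?_ continuous_const
  exact continuous_finsetSum _ fun S _ => (spc_cont m _ _).inner continuous_const

theorem isClosed_HmC (m k : ℕ) (C : Set (Eu n)) :
    IsClosed (HmC m k C : Set (Amb m ((⊤ : Opens (Eu n)) : Set (Eu n)))) := by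
  have h1 : (HmC m k C : Set (Amb m ((⊤ : Opens (Eu n)) : Set (Eu n)))) =
      (Hmm m k (⊤ : Opens (Eu n)) : Set (Amb m ((⊤ : Opens (Eu n)) : Set (Eu n)))) ∩
      (⋂ (i : Ix n m), {F : Amb m ((⊤ : Opens (Eu n)) : Set (Eu n)) |
        rs Cᶜ (zx ((⊤ : Opens (Eu n)) : Set (Eu n)) (F i)) = 0}) := by
    ext F
    simp only [Set.mem_inter_iff, Set.mem_iInter, Set.mem_ofPred_eq]
    constructor
    · rintro ⟨h, h'⟩
      exact ⟨h, fun i => (spc_hmc_iff C _).1 (h' i)⟩
    · rintro ⟨h, h'⟩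
      exact ⟨h, fun i => (spc_hmc_iff C _).2 (h' i)⟩
  rw [h1]
  refine IsClosed.inter (isClosed_Hmm m k _) ?_
  exact isClosed_iInter fun i => isClosed_eq
    ((rs Cᶜ).continuous.comp ((zx _).continuous.comp (spc_cont m _ i))) continuous_const

instance (m k : ℕ) (U : Opens (Eu n)) : CompleteSpace (Hmm m k U) :=
  (isClosed_Hmm m k U).completeSpace_coe

instance (m k : ℕ) (U : Opens (Eu n)) : CompleteSpace (Dom m k U) :=
  (isClosed_Dom m k U).completeSpace_coe

instance (m k : ℕ) (C : Set (Eu n)) : CompleteSpace (HmC m k C) :=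
  (isClosed_HmC m k C).completeSpace_coe

/-- the shift `(w, dw) ↦ (dw, 0)` -/
noncomputable def sh (m : ℕ) (U : Set (Eu n)) : Amb m U →L[ℝ] Amb m U :=
  (PiLp.continuousLinearEquiv 2 ℝ (fun _ : Ix n m => LL U)).symm.toContinuousLinearMap.comp
    ((ContinuousLinearMap.pi (fun i : Ix n m =>
      if i.1 then 0 else ContinuousLinearMap.proj (R := ℝ) (φ := fun _ : Ix n m => LL U) (true, i.2))).comp
      (PiLp.continuousLinearEquiv 2 ℝ (fun _ : Ix n m => LL U)).toContinuousLinearMap)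

theorem sh_false (m : ℕ) (U : Set (Eu n)) (F : Amb m U) (S : Finset (Fin n)) (J : Word n m) :
    sh m U F (false, S, J) = F (true, S, J) := by
  simp [sh]

theorem sh_true (m : ℕ) (U : Set (Eu n)) (F : Amb m U) (S : Finset (Fin n)) (J : Word n m) :
    sh m U F (true, S, J) = 0 := by
  simp [sh]

theorem spc_true_deg {m k : ℕ} {U : Opens (Eu n)} {F : Amb m (U : Set (Eu n))}
    (hF : IsHmm m k (U : Set (Eu n)) F) (S : Finset (Fin n)) (hS : S.card ≠ k + 1) :
    F (true, S, Word.nil) = 0 := by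
  have h1 := hF.2.2
  rw [← WDF_zx (spc_meas U)] at h1
  have h2 := WDH_deg k h1
  have h3 : dg k (fun S => zx (U : Set (Eu n)) (F (false, S, Word.nil))) =
      fun S => zx (U : Set (Eu n)) (F (false, S, Word.nil)) := by
    ext1 T
    rw [dg]
    split_ifs with hT
    · rfl
    · rw [hF.2.1 T hT, map_zero]
  rw [h3] at h2
  have h4 := WDH_unique U.isOpen h1 h2 S
  have h5 : dg (k + 1) (fun S => zx (U : Set (Eu n)) (F (true, S, Word.nil))) S = 0 := by
    rw [dg, if_neg hS]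
  rw [h5, ← rs_eq_iff, rs_zx (spc_meas U), map_zero] at h4
  exact h4

theorem sh_Hmm {m k : ℕ} {U : Opens (Eu n)} {F : Amb m (U : Set (Eu n))}
    (hF : IsHmm m k (U : Set (Eu n)) F) : IsHmm m (k + 1) (U : Set (Eu n)) (sh m (U : Set (Eu n)) F) := by
  refine ⟨fun b S J j h => ?_, fun S hS => ?_, ?_⟩
  · cases b with
    | false =>
      rw [sh_false, sh_false]
      exact hF.1 true S J j h
    | true =>
      rw [sh_true, sh_true]
      exact spc_WD_zero U j
  · rw [sh_false]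
    exact spc_true_deg hF S hS
  · have h1 := hF.2.2
    rw [← WDF_zx (spc_meas U)] at h1 ⊢
    have h2 := WDH_dd h1
    simp only [sh_false, sh_true, map_zero]
    exact h2

theorem sh_Dom {m k : ℕ} {U : Opens (Eu n)} {F : Amb m (U : Set (Eu n))}
    (hF : IsHmm m k (U : Set (Eu n)) F) : IsDom m (k + 1) (U : Set (Eu n)) (sh m (U : Set (Eu n)) F) := by
  refine ⟨sh_Hmm hF, fun h hh => ?_⟩
  have h1 := hh.2.2 (fun S => F (false, S, Word.nil)) (fun S => F (true, S, Word.nil))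
    (fun S hS => hF.2.1 S (by omega)) hF.2.2
  simp only [sh_false]
  rw [← h1]
  exact Finset.sum_congr rfl fun S _ => real_inner_comm _ _

/-- the exterior derivative `d : H^{(m,m)}Λ^k(U) → H^{(m,m)}Λ^{k+1}(U)` -/
noncomputable def dHmm (m k : ℕ) (U : Opens (Eu n)) : Hmm m k U →L[ℝ] Hmm m (k + 1) U :=
  ((sh m (U : Set (Eu n))).comp (Hmm m k U).subtypeL).codRestrict _ (fun F => sh_Hmm F.2)

/-- the exterior derivative on `H^{(m,m)}Λ^k(U) ∩ 𝔥^k(U)^⊥` -/
noncomputable def dDom (m k : ℕ) (U : Opens (Eu n)) : Dom m k U →L[ℝ] Dom m (k + 1) U :=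
  ((sh m (U : Set (Eu n))).comp (Dom m k U).subtypeL).codRestrict _ (fun F => sh_Dom F.2.1)

end Pool.Agent.CochExt
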