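import Pool.Agent.CochExt.Ort
import Pool.Agent.CochExt.Jet
import Pool.Agent.CochExt.Spc

set_option autoImplicit false

/-! # Module EXA: exactness.
`exact_succ`: `ort1` gives an `L²` potential of `z`, `regA` (with `SOB_of_jet`, `zx`) a potential `w` in `H^m`, take its degree `k` part
(`WDH_deg`); `ort2` for `rs w` gives a harmonic `h`, `regB` for `zx h` gives a closed `z1` in `H^m` with `h - z1 = dv`; take the degree `k` part again;
`x = w - z1` is orthogonal to the harmonic forms (`⟪w - h, h'⟫ = 0`, `⟪h - z1, h'⟫ = 0` since `h' ⟂ dv`, `v` of degree `k - 1`).  Build the element of the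
ambient space from `jet_of_SOB` for `x` and the components of `z`.
`exact_zero`: a closed `0`-form is harmonic, so `⟪z, z⟫ = 0`; `jet_unique`. -/

open MeasureTheory TopologicalSpace
open scoped ContDiff

namespace Pool.Agent.CochExt

variable {n : ℕ}

theorem exa_dg_zero (k : ℕ) : dg k (0 : FH n) = 0 := by
  funext S; simp [dg]

theorem exa_SOBF_dg {m k : ℕ} {U : Set (Eu n)} {w : FH n} (h : SOBF m U w) :
    SOBF m U (dg k w) := by
  intro S
  simp only [dg]
  split_ifs
  · exact h S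
  · exact SOB_zero m U

theorem exact_succ (m k : ℕ) {Ω : Opens (Eu n)} {N : ℕ} (P : Fin N → Patch (Ω : Set (Eu n)))
    (hP : ∀ x ∈ (Ω : Set (Eu n)), ∑ i, (P i).χ x = 1) {z : Amb m (Ω : Set (Eu n))}
    (hz : IsDom m (k + 1) (Ω : Set (Eu n)) z) (h0 : sh m (Ω : Set (Eu n)) z = 0) :
    ∃ x : Amb m (Ω : Set (Eu n)), IsDom m k (Ω : Set (Eu n)) x ∧ sh m (Ω : Set (Eu n)) x = z := by
  have hΩ : IsOpen (Ω : Set (Eu n)) := Ω.isOpen
  have hM : MeasurableSet (Ω : Set (Eu n)) := hΩ.measurableSet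
  obtain ⟨⟨hz1, hz2, hz3⟩, hz4⟩ := hz
  have ht : ∀ (S : Finset (Fin n)) (J : Word n m), z (true, S, J) = 0 := by
    intro S J
    rw [← sh_false m _ z S J, h0]; rfl
  set z0 : Finset (Fin n) → LL (Ω : Set (Eu n)) := fun S => z (false, S, Word.nil) with hz0
  have hz0c : OrtW z0 0 := by
    have : (fun S => z (true, S, Word.nil)) = (0 : Finset (Fin n) → LL (Ω : Set (Eu n))) := by
      funext S; exact ht S _
    have e1 : OrtW z0 (fun S => z (true, S, Word.nil)) := hz3
    rwa [this] at e1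
  -- `L²` potential
  obtain ⟨y, hy1, hy2⟩ := ort1 hΩ P hP (k + 1) z0 hz2 ((ortW_of_raw hΩ).mpr hz0c) hz4
  -- regular potential
  have hSz : SOBF m (Ω : Set (Eu n)) (fun S => zx (Ω : Set (Eu n)) (z0 S)) := fun S =>
    SOB_of_jet m hΩ (fun J => z (false, S, J)) (fun J j h => hz1 false S J j h)
  obtain ⟨w0, hw0S, hw0⟩ := regA m hΩ P hP hSz ((ortW_iff hΩ y z0).mp hy2)
  have hzdg : dg (k + 1) (fun S => zx (Ω : Set (Eu n)) (z0 S)) =
      fun S => zx (Ω : Set (Eu n)) (z0 S) := by
    funext S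
    simp only [dg]
    split_ifs with hS
    · rfl
    · rw [show z0 S = 0 from hz2 S hS, map_zero]
  set w : FH n := dg k w0 with hw
  have hwS : SOBF m (Ω : Set (Eu n)) w := exa_SOBF_dg hw0S
  have hwd : WDH (Ω : Set (Eu n)) w (fun S => zx (Ω : Set (Eu n)) (z0 S)) := by
    have := WDH_deg k hw0
    rwa [hzdg] at this
  -- harmonic part
  obtain ⟨h, hh, hwh⟩ := ort2 hΩ k (fun S => rs (Ω : Set (Eu n)) (w S))
  have hhc : OrtW h 0 := (ortW_of_raw hΩ).mp hh.2.1
  have hhc' : WDH (Ω : Set (Eu n)) (fun S => zx (Ω : Set (Eu n)) (h S)) 0 := by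
    have := (ortW_iff hΩ h 0).mp hhc
    convert this using 1
    funext S; simp
  obtain ⟨z1, v, hz1S, hz1c, hv⟩ := regB m hΩ P hP hhc'
  set u : FH n := dg k z1 with hu
  have huS : SOBF m (Ω : Set (Eu n)) u := exa_SOBF_dg hz1S
  have huc : WDH (Ω : Set (Eu n)) u 0 := by
    have := WDH_deg k hz1c
    rwa [exa_dg_zero] at this
  -- the form `x = w - u`
  have hxd : WDH (Ω : Set (Eu n)) (w - u) (fun S => zx (Ω : Set (Eu n)) (z0 S)) := by
    have := WDH_sub hwd huc
    rwa [sub_zero] at this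
  have hxS : ∀ S, SOB m (Ω : Set (Eu n)) (w S - u S) := fun S => SOB_sub (hwS S) (huS S)
  choose G hG0 hG using fun S => jet_of_SOB m hΩ (hxS S)
  -- orthogonality of `h - rs u`
  have hexact : ∀ h' : Finset (Fin n) → LL (Ω : Set (Eu n)), IsHarm k (Ω : Set (Eu n)) h' →
      ∑ S, inner ℝ (h S - rs (Ω : Set (Eu n)) (u S)) (h' S) = 0 := by
    intro h' hh'
    have e1 : OrtW (fun S => rs (Ω : Set (Eu n)) (v S))
        (fun S => h S - rs (Ω : Set (Eu n)) (z1 S)) := by
      have e2 := (WDF_rs hM v _).mpr hv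
      have e3 : (fun S => rs (Ω : Set (Eu n))
          (((fun S => zx (Ω : Set (Eu n)) (h S)) - z1 : FH n) S)) =
          fun S => h S - rs (Ω : Set (Eu n)) (z1 S) := by
        funext S
        rw [Pi.sub_apply, map_sub, rs_zx hM]
      have e4 : OrtW (fun S => rs (Ω : Set (Eu n)) (v S)) (fun S => rs (Ω : Set (Eu n))
          (((fun S => zx (Ω : Set (Eu n)) (h S)) - z1 : FH n) S)) := e2
      rwa [e3] at e4
    obtain ⟨y', hy'1, hy'2⟩ := ort_exact_dg hΩ k e1
    have e5 := hh'.2.2 y' _ hy'1 hy'2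
    have e6 : ∀ S, ortDg k (fun S => h S - rs (Ω : Set (Eu n)) (z1 S)) S =
        h S - rs (Ω : Set (Eu n)) (u S) := by
      intro S
      simp only [ortDg, hu, dg]
      split_ifs with hS
      · rfl
      · rw [map_zero, hh.1 S hS, sub_zero]
    calc ∑ S, inner ℝ (h S - rs (Ω : Set (Eu n)) (u S)) (h' S)
        = ∑ S, inner ℝ (h' S) (ortDg k (fun S => h S - rs (Ω : Set (Eu n)) (z1 S)) S) := by
          refine Finset.sum_congr rfl (fun S _ => ?_)
          rw [e6 S, real_inner_comm]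
      _ = 0 := e5
  -- assembly
  refine ⟨WithLp.toLp 2 (fun i : Ix n m => if i.1 then z (false, i.2) else G i.2.1 i.2.2), ?_, ?_⟩
  · refine ⟨⟨?_, ?_, ?_⟩, ?_⟩
    · rintro (_ | _) S J j hJ
      · exact hG S J j hJ
      · exact hz1 false S J j hJ
    · intro S hS
      show G S Word.nil = 0
      rw [hG0 S]
      have e1 : w S - u S = 0 := by
        simp only [hw, hu, dg, if_neg hS, sub_zero]
      rw [e1, map_zero]
    · have e1 := (WDF_rs hM (w - u) (fun S => zx (Ω : Set (Eu n)) (z0 S))).mpr hxd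
      simp only [rs_zx hM] at e1
      have e2 : ∀ S, G S Word.nil = rs (Ω : Set (Eu n)) ((w - u) S) := fun S => hG0 S
      show WDF (Ω : Set (Eu n)) (fun S => (G S Word.nil : Eu n → ℝ))
        (fun S => (z (false, S, Word.nil) : Eu n → ℝ))
      simp only [e2]
      exact e1
    · intro h' hh'
      have e1 := hwh h' hh'
      have e2 := hexact h' hh'
      have e3 : ∀ S, inner ℝ (G S Word.nil) (h' S) =
          inner ℝ (rs (Ω : Set (Eu n)) (w S) - h S) (h' S) +
          inner ℝ (h S - rs (Ω : Set (Eu n)) (u S)) (h' S) := by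
        intro S
        rw [← inner_add_left, hG0 S, map_sub]
        congr 1
        abel
      show ∑ S, inner ℝ (G S Word.nil) (h' S) = 0
      rw [Finset.sum_congr rfl (fun S _ => e3 S), Finset.sum_add_distrib, e1, e2, add_zero]
  · refine PiLp.ext (fun i => ?_)
    obtain ⟨b, S, J⟩ := i
    cases b
    · rw [sh_false]; rfl
    · rw [sh_true, ht S J]

theorem exact_zero (m : ℕ) {Ω : Opens (Eu n)} {z : Amb m (Ω : Set (Eu n))}
    (hz : IsDom m 0 (Ω : Set (Eu n)) z) (h0 : sh m (Ω : Set (Eu n)) z = 0) : z = 0 := by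
  have hΩ : IsOpen (Ω : Set (Eu n)) := Ω.isOpen
  have hM : MeasurableSet (Ω : Set (Eu n)) := hΩ.measurableSet
  obtain ⟨⟨hz1, hz2, hz3⟩, hz4⟩ := hz
  have ht : ∀ (S : Finset (Fin n)) (J : Word n m), z (true, S, J) = 0 := by
    intro S J
    rw [← sh_false m _ z S J, h0]; rfl
  set z0 : Finset (Fin n) → LL (Ω : Set (Eu n)) := fun S => z (false, S, Word.nil) with hz0
  have hz0c : OrtW z0 0 := by
    have : (fun S => z (true, S, Word.nil)) = (0 : Finset (Fin n) → LL (Ω : Set (Eu n))) := by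
      funext S; exact ht S _
    have e1 : OrtW z0 (fun S => z (true, S, Word.nil)) := hz3
    rwa [this] at e1
  have hharm : IsHarm 0 (Ω : Set (Eu n)) z0 := by
    refine ⟨hz2, (ortW_of_raw hΩ).mpr hz0c, fun η ζ hη hηζ => ?_⟩
    have e1 : η = 0 := by
      funext S; exact hη S (Nat.succ_ne_zero _)
    subst e1
    have e2 : ζ = 0 := ortW_unique hΩ hηζ (ortW_zero hΩ)
    subst e2
    refine Finset.sum_eq_zero (fun S _ => ?_)
    exact inner_zero_right _
  have e1 := hz4 z0 hharm
  have e2 : ∀ S, z0 S = 0 := by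
    intro S
    have := (Finset.sum_eq_zero_iff_of_nonneg (fun S _ => real_inner_self_nonneg)).mp e1 S
      (Finset.mem_univ S)
    exact inner_self_eq_zero.mp this
  refine PiLp.ext (fun i => ?_)
  obtain ⟨b, S, J⟩ := i
  cases b
  · have e3 := jet_unique m hΩ hM hM subset_rfl subset_rfl (fun J => z (false, S, J))
      (fun _ => (0 : LL (Ω : Set (Eu n)))) (fun J j h => hz1 false S J j h) ?_ ?_ J
    · rw [← ll_eq_iff] at e3
      exact e3
    · intro J j h
      have := WD_zero (Ω : Set (Eu n)) j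
      rw [← WD_rs hM, map_zero] at this
      exact this
    · show (z0 S : Eu n → ℝ) =ᵐ[_] _
      rw [e2 S]
  · exact ht S J

end Pool.Agent.CochExt
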