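import Pool.Agent.CochExt.Gainh
import Pool.Agent.CochExt.Sobb
import Pool.Agent.CochExt.Kid

set_option autoImplicit false

/-! # Module REG: regularity of `cv`.
`SOB_smooth`: induction on `m`, `WD_cv_smooth`.  `SOB_gain`: induction on `m`, `gainH` (with `WD.mono`) for
`m = 0`, `WD_cv` for the step. -/

open MeasureTheory
open scoped ContDiff

namespace Pool.Agent.CochExt

variable {n : ℕ}

theorem SOB_smooth (m : ℕ) {ρ : Eu n → ℝ} (hρ : Test Set.univ ρ) (f : H n) :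
    SOB m Set.univ (cv ρ f) := by
  induction m generalizing ρ with
  | zero => trivial
  | succ m ih =>
    intro j
    refine ⟨- cv (pd j ρ) f, WD_cv_smooth hρ j f, ?_⟩
    have h1 := SOB_smul (-1) (ih (hρ.pd j))
    rwa [neg_one_smul] at h1

theorem SOB_gain (m : ℕ) {g : Eu n → ℝ} (hg : Test Set.univ g) {D : Set (Eu n)}
    (hD : ∀ x ∈ D, ∀ z ∈ tsupport (KK g), x + z ∈ D) {f : H n} (hf : SOB m D f) :
    SOB (m + 1) D (cv (KK g) f) := by
  induction m generalizing f with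
  | zero =>
    intro j
    obtain ⟨u, hu⟩ := gainH hg j f
    exact ⟨u, hu.mono (Set.subset_univ D), trivial⟩
  | succ m ih =>
    intro j
    obtain ⟨g', h1, h2⟩ := hf j
    exact ⟨cv (KK g) g', WD_cv (KK_integrable hg.ccs) (KK_compact hg.ccs) hD h1, ih h2⟩

theorem reg_test_coord {ρ : Eu n → ℝ} (hρ : Test Set.univ ρ) (a : Fin n) :
    Test Set.univ (fun v : Eu n => - (v a * ρ v)) := by
  refine ⟨?_, ?_, Set.subset_univ _⟩
  · have h1 : ContDiff ℝ ∞ (fun v : Eu n => v a) := by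
      exact (EuclideanSpace.proj (𝕜 := ℝ) a).contDiff
    exact (h1.mul hρ.1).neg
  · exact (kap_ccs hρ.ccs a).2

/-- for the kernels of the homotopy operator -/
theorem SOB_kap (m : ℕ) {ρ : Eu n → ℝ} (hρ : Test Set.univ ρ) {D : Set (Eu n)}
    (hcone : ∀ x ∈ D, ∀ v ∈ tsupport ρ, ∀ t ∈ Set.Icc (0 : ℝ) 1, x + t • v ∈ D) (a : Fin n)
    {f : H n} (hf : SOB m D f) : SOB (m + 1) D (cv (kap ρ a) f) := by
  exact SOB_gain m (reg_test_coord hρ a) (kap_cone hρ.ccs hcone a) hf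

/-- the homotopy operator gains one derivative on `D` -/
theorem SOBF_TF (m : ℕ) {ρ : Eu n → ℝ} (hρ : Test Set.univ ρ) {D : Set (Eu n)}
    (hcone : ∀ x ∈ D, ∀ v ∈ tsupport ρ, ∀ t ∈ Set.Icc (0 : ℝ) 1, x + t • v ∈ D)
    {w : FH n} (hf : SOBF m D w) : SOBF (m + 1) D (TF ρ w) := by
  intro S
  rw [TF_apply]
  exact SOB_sum _ fun a _ => SOB_smul _ (SOB_kap m hρ hcone a (hf _))

end Pool.Agent.CochExt
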