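import Pool.Agent.CochExt.Hom
import Pool.Agent.CochExt.Reg

set_option autoImplicit false

/-! # Module EXT: scalar extension.
`ext_local` by induction on `m`: for `m + 1` extend the derivatives `g a` to `g' a` (induction hypothesis) and put
`f' = cv ρ f + ∑_a cv (kap ρ a) (g' a)`: on `D` equal to `f` by `hom_scalar` and `cv_local`, in `H^{m+1}(ℝⁿ)` by `SOB_smooth`,
`SOB_kap` with `D = univ`.  `ext_global`: `f = ∑ χ_i f` on `Ω`; extend `mu χ_i f` (in `H^m(D_i)` by `SOB_cut`) from `D_i`, multiply by `ψ_i`. -/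

open MeasureTheory
open scoped ContDiff

namespace Pool.Agent.CochExt

variable {n : ℕ}

theorem ext_sum_congr {ι : Type} (s : Finset ι) {μ : Measure (Eu n)} (hμ : μ ≪ volume)
    {F G : ι → H n} (h : ∀ a ∈ s, (F a : Eu n → ℝ) =ᵐ[μ] G a) :
    ((∑ a ∈ s, F a : H n) : Eu n → ℝ) =ᵐ[μ] ((∑ a ∈ s, G a : H n) : Eu n → ℝ) := by
  classical
  induction s using Finset.induction_on with
  | empty => simp
  | insert a s ha ih =>
    rw [Finset.sum_insert ha, Finset.sum_insert ha]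
    have h1 := ih fun b hb => h b (Finset.mem_insert_of_mem hb)
    have h2 := h a (Finset.mem_insert_self a s)
    have h3 := hμ.ae_le (Lp.coeFn_add (F a) (∑ b ∈ s, F b))
    have h4 := hμ.ae_le (Lp.coeFn_add (G a) (∑ b ∈ s, G b))
    filter_upwards [h1, h2, h3, h4] with x e1 e2 e3 e4
    rw [e3, e4, Pi.add_apply, Pi.add_apply, e1, e2]

theorem ext_coe_sum {ι : Type} (s : Finset ι) (F : ι → H n) :
    ((∑ a ∈ s, F a : H n) : Eu n → ℝ) =ᵐ[volume] fun x => ∑ a ∈ s, (F a : Eu n → ℝ) x := by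
  classical
  induction s using Finset.induction_on with
  | empty =>
    simp only [Finset.sum_empty]
    exact Lp.coeFn_zero ℝ 2 _
  | insert a s ha ih =>
    rw [Finset.sum_insert ha]
    filter_upwards [ih, Lp.coeFn_add (F a) (∑ b ∈ s, F b)] with x e1 e3
    rw [e3, Pi.add_apply, e1, Finset.sum_insert ha]

theorem ext_local (m : ℕ) {D : Set (Eu n)} (hD : IsOpen D) {ρ : Eu n → ℝ} (hρ : Test Set.univ ρ)
    (h1 : ∫ x, ρ x = 1)
    (hcone : ∀ x ∈ D, ∀ v ∈ tsupport ρ, ∀ t ∈ Set.Icc (0 : ℝ) 1, x + t • v ∈ D)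
    {f : H n} (hf : SOB m D f) :
    ∃ f' : H n, SOB m Set.univ f' ∧ (f' : Eu n → ℝ) =ᵐ[volume.restrict D] f := by
  induction m generalizing f with
  | zero => exact ⟨f, trivial, Filter.EventuallyEq.rfl⟩
  | succ m ih =>
    choose g hg using hf
    have h2 : ∀ a, ∃ g' : H n, SOB m Set.univ g' ∧
        (g' : Eu n → ℝ) =ᵐ[volume.restrict D] g a := fun a => ih (hg a).2
    choose g' hg' using h2
    have hc := hom_scalar hD hρ h1 hcone (fun a => (hg a).1)
    refine ⟨cv ρ f + ∑ a, cv (kap ρ a) (g' a), ?_, ?_⟩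
    · refine SOB_add (SOB_smooth _ hρ f) (SOB_sum _ fun a _ => ?_)
      exact SOB_kap m hρ (fun _ _ _ _ _ _ => Set.mem_univ _) a (hg' a).1
    · have h3 : ((∑ a, cv (kap ρ a) (g' a) : H n) : Eu n → ℝ) =ᵐ[volume.restrict D]
          ((∑ a, cv (kap ρ a) (g a) : H n) : Eu n → ℝ) := by
        apply ext_sum_congr _ Measure.absolutelyContinuous_restrict
        intro a _
        exact cv_local (kap_integrable hρ.ccs a) (kap_compact hρ.ccs a) hD
          (kap_cone hρ.ccs hcone a) hD.measurableSet (hg' a).2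
      have h4 := ae_restrict_of_ae (s := D)
        (Lp.coeFn_add (cv ρ f) (∑ a, cv (kap ρ a) (g' a)))
      have h5 := ae_restrict_of_ae (s := D)
        (Lp.coeFn_add (cv ρ f) (∑ a, cv (kap ρ a) (g a)))
      filter_upwards [hc, h3, h4, h5] with x e1 e2 e3 e4
      rw [e3, Pi.add_apply, e2, e1, e4, Pi.add_apply]

theorem ext_global (m : ℕ) {Ω : Set (Eu n)} (hΩ : IsOpen Ω) {N : ℕ} (P : Fin N → Patch Ω)
    (hP : ∀ x ∈ Ω, ∑ i, (P i).χ x = 1) {f : H n} (hf : SOB m Ω f) :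
    ∃ f' : H n, SOB m Set.univ f' ∧ (f' : Eu n → ℝ) =ᵐ[volume.restrict Ω] f := by
  have hsup : ∀ i, tsupport (P i).χ ⊆ tsupport (P i).ψ := by
    intro i
    apply closure_mono
    intro x hx
    rw [Function.mem_support] at hx ⊢
    intro h0
    apply hx
    rw [← (P i).hψχ x, h0, zero_mul]
  have hloc : ∀ i, ∃ f' : H n, SOB m Set.univ f' ∧
      (f' : Eu n → ℝ) =ᵐ[volume.restrict (P i).D] mu (P i).χ f := by
    intro i
    apply ext_local m (P i).hD ⟨(P i).hρ, (P i).hρc, Set.subset_univ _⟩ (P i).hρ1 (P i).hcone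
    apply SOB_cut (P i).hχ (P i).hχc _ hf
    intro x hx hxD
    exact ((P i).hagree x (hsup i hx)).1 hxD
  choose F hF1 hF2 using hloc
  refine ⟨∑ i, mu (P i).ψ (F i), ?_, ?_⟩
  · apply SOB_sum
    intro i _
    exact SOB_cut (P i).hψ (P i).hψc (fun _ _ _ => Set.mem_univ _) (hF1 i)
  · have h1 : ∀ i, (mu (P i).ψ (F i) : Eu n → ℝ) =ᵐ[volume.restrict Ω]
        fun x => (P i).χ x * f x := by
      intro i
      have a1 := ae_restrict_of_ae (s := Ω) (mu_ae (ccs_of_smooth (P i).hψ (P i).hψc) (F i))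
      have a2 := ae_restrict_of_ae (s := Ω) (mu_ae (ccs_of_smooth (P i).hχ (P i).hχc) f)
      have a3 := (ae_restrict_iff' (P i).hD.measurableSet).1 (hF2 i)
      have a4 := ae_restrict_of_ae (s := Ω) a3
      filter_upwards [a1, a2, a4, ae_restrict_mem hΩ.measurableSet] with x e1 e2 e3 hx
      rw [e1]
      by_cases hxs : x ∈ tsupport (P i).ψ
      · rw [e3 (((P i).hagree x hxs).2 hx), e2, ← mul_assoc, (P i).hψχ x]
      · have h0 : (P i).ψ x = 0 := image_eq_zero_of_notMem_tsupport hxs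
        rw [← (P i).hψχ x, h0]
        ring
    have h2 := ae_restrict_of_ae (s := Ω) (ext_coe_sum Finset.univ (fun i => mu (P i).ψ (F i)))
    have h3 : ∀ᵐ x ∂(volume.restrict Ω), ∀ i, (mu (P i).ψ (F i) : Eu n → ℝ) x =
        (P i).χ x * f x := ae_all_iff.2 h1
    filter_upwards [h2, h3, ae_restrict_mem hΩ.measurableSet] with x e1 e2 hx
    rw [e1, Finset.sum_congr rfl (fun i _ => e2 i), ← Finset.sum_mul, hP x hx, one_mul]

end Pool.Agent.CochExt
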