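import Pool.Agent.CochExt.Par
import Pool.Agent.CochExt.Ext

set_option autoImplicit false

/-! # Module EXTF: extension of forms with their exterior derivatives.
On `Ω`: `w = Kt w + Tt u + d (Tt w)` (`par`).  Let `A` extend `Tt w` (in `H^{m+1}(ℝⁿ)`, `ext_global` coefficientwise), `B` extend
`Kt w + Tt u` (in `H^{m+1}(ℝⁿ)`), `dA`, `dB` from `WDH_of_SOBF`: `w0 = dA + B`, `u0 = dB`.  On `Ω`, `w0 = w`, `u0 = u` a.e.
(`WDH_unique`).  Cut off with `ψ` smooth, `ψ = 1` on a neighbourhood of `closure Ω`, support `C` compact in `V`: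
`w' = muF ψ w0`, `u' = muF ψ u0 + wdF ψ w0` (`WDH_cut`, `pd i ψ = 0` on `Ω`). -/

open MeasureTheory
open scoped ContDiff Manifold

namespace Pool.Agent.CochExt

variable {n : ℕ}

/-- the cut-off function -/
theorem EXTF_cut {Ω : Set (Eu n)} (hb : Bornology.IsBounded Ω) {V : Set (Eu n)} (hV : IsOpen V)
    (hΩV : closure Ω ⊆ V) :
    ∃ (C : Set (Eu n)) (ψ : Eu n → ℝ), IsCompact C ∧ C ⊆ V ∧ ContDiff ℝ ∞ ψ ∧ HasCompactSupport ψ ∧
      (∀ x ∈ Ω, ψ x = 1) ∧ (∀ x ∈ Ω, ∀ j, pd j ψ x = 0) ∧ (∀ x, x ∉ C → ψ x = 0) ∧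
      (∀ x, x ∉ C → ∀ j, pd j ψ x = 0) := by
  have hK : IsCompact (closure Ω) := hb.isCompact_closure
  obtain ⟨C, hC, hΩC, hCV⟩ := exists_compact_between hK hV hΩV
  obtain ⟨f, hf1, hf0, -⟩ := exists_contMDiffMap_one_nhds_of_subset_interior (n := ⊤)
    (𝓘(ℝ, Eu n)) (isClosed_closure (s := Ω)) hΩC
  have hsm : ContDiff ℝ ∞ (f : Eu n → ℝ) := f.contMDiff.contDiff
  have hs : tsupport (f : Eu n → ℝ) ⊆ C := by
    apply closure_minimal _ hC.isClosed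
    intro x hx
    by_contra hxC
    exact hx (hf0 x hxC)
  refine ⟨C, f, hC, hCV, hsm, HasCompactSupport.of_support_subset_isCompact hC
    ((subset_tsupport _).trans hs), ?_, ?_, hf0, ?_⟩
  · intro x hx
    have := Filter.Eventually.self_of_nhdsSet hf1
    exact this x (subset_closure hx)
  · intro x hx j
    have h1 : ∀ᶠ y in nhds x, f y = 1 := (mem_nhdsSet_iff_forall.mp hf1) x (subset_closure hx)
    have h2 : fderiv ℝ (f : Eu n → ℝ) x = fderiv ℝ (fun _ => (1 : ℝ)) x :=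
      Filter.EventuallyEq.fderiv_eq h1
    rw [pd, h2]
    simp
  · intro x hx j
    have hx' : x ∉ tsupport (f : Eu n → ℝ) := fun h => hx (hs h)
    have h1 : ∀ᶠ y in nhds x, f y = 0 := by
      have := notMem_tsupport_iff_eventuallyEq.mp hx'
      exact this
    have h2 : fderiv ℝ (f : Eu n → ℝ) x = fderiv ℝ (fun _ => (0 : ℝ)) x :=
      Filter.EventuallyEq.fderiv_eq h1
    rw [pd, h2]
    simp

/-- elements of `L²` vanishing on `U` -/
def EXTF_Z (U : Set (Eu n)) : Submodule ℝ (H n) where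
  carrier := {f | (f : Eu n → ℝ) =ᵐ[volume.restrict U] 0}
  add_mem' := fun {f g} hf hg => by
    show ((f + g : H n) : Eu n → ℝ) =ᵐ[volume.restrict U] 0
    filter_upwards [hf, hg, ae_restrict_of_ae (Lp.coeFn_add f g)] with x h1 h2 h3
    rw [h3, Pi.add_apply, h1, h2]
    simp
  zero_mem' := ae_restrict_of_ae (Lp.coeFn_zero ℝ 2 volume)
  smul_mem' := fun c {f} hf => by
    show ((c • f : H n) : Eu n → ℝ) =ᵐ[volume.restrict U] 0
    filter_upwards [hf, ae_restrict_of_ae (Lp.coeFn_smul c f)] with x h1 h3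
    rw [h3, Pi.smul_apply, h1]
    simp

theorem EXTF_mu_zero {U : Set (Eu n)} (hU : MeasurableSet U) {χ : Eu n → ℝ} (hχ : CCS χ)
    (h0 : ∀ x ∈ U, χ x = 0) (f : H n) : mu χ f ∈ EXTF_Z U := by
  show (mu χ f : Eu n → ℝ) =ᵐ[volume.restrict U] 0
  filter_upwards [ae_restrict_mem hU, ae_restrict_of_ae (mu_ae hχ f)] with x h1 h2
  rw [h2, h0 x h1]
  simp

theorem EXTF_mu_one {U : Set (Eu n)} (hU : MeasurableSet U) {χ : Eu n → ℝ} (hχ : CCS χ)
    (h0 : ∀ x ∈ U, χ x = 1) (f : H n) : (mu χ f : Eu n → ℝ) =ᵐ[volume.restrict U] f := by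
  filter_upwards [ae_restrict_mem hU, ae_restrict_of_ae (mu_ae hχ f)] with x h1 h2
  rw [h2, h0 x h1]
  simp

theorem EXTF_add {U : Set (Eu n)} {f g f' g' : H n}
    (h : (f : Eu n → ℝ) =ᵐ[volume.restrict U] f') (h' : (g : Eu n → ℝ) =ᵐ[volume.restrict U] g') :
    ((f + g : H n) : Eu n → ℝ) =ᵐ[volume.restrict U] ((f' + g' : H n) : Eu n → ℝ) := by
  filter_upwards [h, h', ae_restrict_of_ae (Lp.coeFn_add f g),
    ae_restrict_of_ae (Lp.coeFn_add f' g')] with x h1 h2 h3 h4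
  rw [h3, h4, Pi.add_apply, Pi.add_apply, h1, h2]

theorem EXTF_pd_ccs {ψ : Eu n → ℝ} (hs : ContDiff ℝ ∞ ψ) (hc : HasCompactSupport ψ) (j : Fin n) :
    CCS (pd j ψ) :=
  Test.ccs (Test.pd (U := Set.univ) ⟨hs, hc, Set.subset_univ _⟩ j)

theorem ext_form {Ω : Set (Eu n)} (hΩ : IsOpen Ω) (hb : Bornology.IsBounded Ω) {N : ℕ}
    (P : Fin N → Patch Ω) (hP : ∀ x ∈ Ω, ∑ i, (P i).χ x = 1) {V : Set (Eu n)} (hV : IsOpen V)
    (hΩV : closure Ω ⊆ V) :
    ∃ C : Set (Eu n), IsCompact C ∧ C ⊆ V ∧ ∀ (m : ℕ) (w u : FH n), SOBF m Ω w → SOBF m Ω u →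
      WDH Ω w u → ∃ w' u' : FH n, SOBF m Set.univ w' ∧ SOBF m Set.univ u' ∧ WDH Set.univ w' u' ∧
        (∀ S, (w' S : Eu n → ℝ) =ᵐ[volume.restrict Ω] w S) ∧
        (∀ S, (u' S : Eu n → ℝ) =ᵐ[volume.restrict Ω] u S) ∧
        (∀ S, (w' S : Eu n → ℝ) =ᵐ[volume.restrict Cᶜ] 0) ∧
        (∀ S, (u' S : Eu n → ℝ) =ᵐ[volume.restrict Cᶜ] 0) := by
  obtain ⟨C, ψ, hC, hCV, hψ, hψc, h1, h1', h0, h0'⟩ := EXTF_cut hb hV hΩV
  refine ⟨C, hC, hCV, fun m w u hw hu h => ?_⟩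
  have hΩm : MeasurableSet Ω := hΩ.measurableSet
  have hp := par hΩ P hP h
  have hTw := Tt_reg m P hw
  have hTu := Tt_reg m P hu
  have hKw := Kt_reg m P hw
  have hA : ∀ S, ∃ f' : H n, SOB (m + 1) Set.univ f' ∧
      (f' : Eu n → ℝ) =ᵐ[volume.restrict Ω] (Tt P w S : H n) := fun S =>
    ext_global (m + 1) hΩ P hP (hTw S)
  choose A hA1 hA2 using hA
  have hB : ∀ S, ∃ f' : H n, SOB (m + 1) Set.univ f' ∧
      (f' : Eu n → ℝ) =ᵐ[volume.restrict Ω] ((Kt P w S + Tt P u S : H n)) := fun S =>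
    ext_global (m + 1) hΩ P hP (SOB_add (hKw S) (hTu S))
  choose B hB1 hB2 using hB
  obtain ⟨dA, hdA, hdA'⟩ := WDH_of_SOBF (w := A) hA1
  obtain ⟨dB, hdB, hdB'⟩ := WDH_of_SOBF (w := B) hB1
  -- the extension on the whole space
  have hw0 : WDH Set.univ (dA + B) dB := by
    have := WDH_add (WDH_dd hdA) hdB
    rwa [zero_add] at this
  have hAΩ : WDH Ω A (w - Kt P w - Tt P u) :=
    WDF_congr hΩm (fun S => (hA2 S).symm) (fun S => Filter.EventuallyEq.rfl) hp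
  have hdAΩ : WDH Ω A dA := WDF.mono (Set.subset_univ _) hdA
  have e1 : ∀ S, (dA S : Eu n → ℝ) =ᵐ[volume.restrict Ω] ((w - Kt P w - Tt P u) S : H n) :=
    fun S => WDH_unique hΩ hdAΩ hAΩ S
  have ew : ∀ S, ((dA + B) S : Eu n → ℝ) =ᵐ[volume.restrict Ω] (w S : H n) := by
    intro S
    have h2 := EXTF_add (e1 S) (hB2 S)
    have h3 : (w - Kt P w - Tt P u) S + (Kt P w S + Tt P u S) = w S := by
      simp only [Pi.sub_apply]
      abel
    rw [h3] at h2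
    exact h2
  have eu : ∀ S, (dB S : Eu n → ℝ) =ᵐ[volume.restrict Ω] (u S : H n) := by
    have h2 : WDH Ω w dB := WDF_congr hΩm ew (fun S => Filter.EventuallyEq.rfl)
      (WDF.mono (Set.subset_univ _) hw0)
    exact fun S => WDH_unique hΩ h2 h S
  have hs0 : SOBF m Set.univ (dA + B) := fun S => SOB_add (hdA' S) (SOB_of_succ (hB1 S))
  have hcc : CCS ψ := ccs_of_smooth hψ hψc
  have hag : ∀ x ∈ tsupport ψ, x ∈ (Set.univ : Set (Eu n)) → x ∈ (Set.univ : Set (Eu n)) :=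
    fun _ _ h => h
  have hwd : ∀ (U : Set (Eu n)), MeasurableSet U → (∀ x ∈ U, ∀ j, pd j ψ x = 0) → ∀ S,
      wdF ψ (dA + B) S ∈ EXTF_Z U := by
    intro U hU hj S
    rw [wdF_apply]
    exact Submodule.sum_mem _ fun i _ => Submodule.smul_mem _ _
      (EXTF_mu_zero hU (EXTF_pd_ccs hψ hψc i) (fun x hx => hj x hx i) _)
  refine ⟨muF ψ (dA + B), muF ψ dB + wdF ψ (dA + B), ?_, ?_, WDH_cut hψ hψc hag hw0, ?_, ?_, ?_, ?_⟩
  · exact fun S => SOB_cut hψ hψc hag (hs0 S)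
  · exact fun S => SOB_add (SOB_cut hψ hψc hag (hdB' S)) (SOBF_wdF hψ hψc hag hs0 S)
  · intro S
    exact (EXTF_mu_one hΩm hcc h1 _).trans (ew S)
  · intro S
    have h3 : (wdF ψ (dA + B) S : Eu n → ℝ) =ᵐ[volume.restrict Ω] 0 := hwd Ω hΩm h1' S
    have h4 : ((0 : H n) : Eu n → ℝ) =ᵐ[volume.restrict Ω] 0 :=
      ae_restrict_of_ae (Lp.coeFn_zero ℝ 2 volume)
    have h2 : ((muF ψ dB S + wdF ψ (dA + B) S : H n) : Eu n → ℝ) =ᵐ[volume.restrict Ω]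
        ((dB S + 0 : H n) : Eu n → ℝ) :=
      EXTF_add (EXTF_mu_one hΩm hcc h1 _) (h3.trans h4.symm)
    rw [add_zero] at h2
    exact h2.trans (eu S)
  · intro S
    exact EXTF_mu_zero hC.measurableSet.compl hcc h0 _
  · intro S
    exact Submodule.add_mem (EXTF_Z Cᶜ) (EXTF_mu_zero hC.measurableSet.compl hcc h0 _)
      (hwd Cᶜ hC.measurableSet.compl h0' S)

end Pool.Agent.CochExt
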