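import Pool.Agent.CochExt.Kid

set_option autoImplicit false

/-! # Module GAIN: the Fourier bound (the only analytic estimate of the proof).
`𝓕 (KK g) (ξ) = ∫_0^1 ĝ(t ξ) dt` (`integral_KK`), `|ĝ(η)| ≤ C/(1+|η|²)` (Schwartz), so
`|ξ| |𝓕 (KK g) (ξ)| ≤ C ∫_0^1 |ξ|/(1 + t²|ξ|²) dt ≤ C π/2`.  Then
`𝓕 (cc (KK g) (∂_l φ)) = 𝓕 (KK g) · 2πi ξ_l · φ̂` (`Real.fourier_mul_convolution_eq`, everything complexified)
and Plancherel (`φ` Schwartz, `cc (KK g) (pd l φ)` is smooth with compact support: `cc_test`). -/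

open MeasureTheory FourierTransform
open scoped ContDiff SchwartzMap LineDeriv

namespace Pool.Agent.CochExt

variable {n : ℕ}

/-- the Schwartz function of a test function, complexified -/
noncomputable def gainSch {φ : Eu n → ℝ} (h : Test Set.univ φ) : 𝓢(Eu n, ℂ) :=
  HasCompactSupport.toSchwartzMap (f := fun x => (φ x : ℂ))
    (h.2.1.comp_left (g := fun r : ℝ => (r : ℂ)) Complex.ofReal_zero)
    (Complex.ofRealCLM.contDiff.comp h.1)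

theorem gainSch_apply {φ : Eu n → ℝ} (h : Test Set.univ φ) (x : Eu n) :
    gainSch h x = (φ x : ℂ) := rfl

theorem gain_fourier_KK {g : Eu n → ℝ} (hg : Test Set.univ g) (ξ : Eu n) :
    𝓕 (fun z : Eu n => (KK g z : ℂ)) ξ = ∫ t in Set.Ioo (0 : ℝ) 1, 𝓕 (gainSch hg) (t • ξ) := by
  have h1 := integral_KK hg.ccs
    (e := fun z : Eu n => Complex.exp ((↑(-2 * Real.pi * inner ℝ z ξ) : ℂ) * Complex.I))
    (by fun_prop) ⟨1, fun x => le_of_eq (Complex.norm_exp_ofReal_mul_I _)⟩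
  rw [Real.fourier_eq']
  have h2 : (∫ v : Eu n, Complex.exp ((↑(-2 * Real.pi * inner ℝ v ξ) : ℂ) * Complex.I) • (KK g v : ℂ))
      = ∫ z, (KK g z : ℂ) *
        Complex.exp ((↑(-2 * Real.pi * inner ℝ z ξ) : ℂ) * Complex.I) := by
    congr 1
    ext v
    rw [smul_eq_mul, mul_comm]
  rw [h2, h1]
  congr 1
  ext t
  rw [SchwartzMap.fourier_coe, Real.fourier_eq']
  congr 1
  ext v
  rw [gainSch_apply, smul_eq_mul, mul_comm, inner_smul_left, inner_smul_right]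
  simp

theorem gain_decay {g : Eu n → ℝ} (hg : Test Set.univ g) :
    ∃ C : ℝ, 0 ≤ C ∧ ∀ η : Eu n, (1 + ‖η‖ ^ 2) * ‖𝓕 (gainSch hg) η‖ ≤ C := by
  obtain ⟨C0, hC0, h0⟩ := (𝓕 (gainSch hg)).decay 0 0
  obtain ⟨C2, hC2, h2⟩ := (𝓕 (gainSch hg)).decay 2 0
  refine ⟨C0 + C2, by positivity, fun η => ?_⟩
  have h3 := h0 η
  have h4 := h2 η
  rw [norm_iteratedFDeriv_zero] at h3 h4
  rw [pow_zero, one_mul] at h3
  linarith

theorem gain_arctan (r : ℝ) (hr : 0 ≤ r) :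
    ∫ t in Set.Ioo (0 : ℝ) 1, r * (1 + (t * r) ^ 2)⁻¹ ≤ Real.pi / 2 := by
  have h1 : ∀ t ∈ Set.uIcc (0 : ℝ) 1, HasDerivAt (fun t : ℝ => Real.arctan (t * r))
      (r * (1 + (t * r) ^ 2)⁻¹) t := by
    intro t _
    have h2 : HasDerivAt (fun t : ℝ => t * r) r t := by
      simpa using (hasDerivAt_id t).mul_const r
    have h3 := h2.arctan
    convert h3 using 1
    rw [one_div, mul_comm]
  have h4 : IntervalIntegrable (fun t : ℝ => r * (1 + (t * r) ^ 2)⁻¹) volume 0 1 := by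
    apply Continuous.intervalIntegrable
    have : ∀ t : ℝ, 1 + (t * r) ^ 2 ≠ 0 := fun t => by positivity
    fun_prop (disch := assumption)
  have h5 := intervalIntegral.integral_eq_sub_of_hasDerivAt h1 h4
  rw [intervalIntegral.integral_of_le (by norm_num), integral_Ioc_eq_integral_Ioo] at h5
  rw [h5]
  simp only [one_mul, zero_mul, Real.arctan_zero, sub_zero]
  exact (Real.arctan_lt_pi_div_two r).le

theorem gain_symbol {g : Eu n → ℝ} (hg : Test Set.univ g) :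
    ∃ C : ℝ, 0 ≤ C ∧ ∀ ξ : Eu n,
      ‖ξ‖ * ‖𝓕 (fun z : Eu n => (KK g z : ℂ)) ξ‖ ≤ C := by
  obtain ⟨C, hC, hdec⟩ := gain_decay hg
  refine ⟨C * (Real.pi / 2), by positivity, fun ξ => ?_⟩
  rw [gain_fourier_KK hg ξ]
  have h1 : ∀ t : ℝ, ‖𝓕 (gainSch hg) (t • ξ)‖ ≤ C * (1 + (t * ‖ξ‖) ^ 2)⁻¹ := by
    intro t
    have h2 := hdec (t • ξ)
    have h3 : ‖t • ξ‖ ^ 2 = (t * ‖ξ‖) ^ 2 := by
      rw [norm_smul, Real.norm_eq_abs, mul_pow, sq_abs, mul_pow]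
    rw [h3] at h2
    have h4 : 0 < 1 + (t * ‖ξ‖) ^ 2 := by positivity
    rw [← div_eq_mul_inv, le_div_iff₀ h4, mul_comm]
    exact h2
  have hcont : Continuous (fun t : ℝ => C * (1 + (t * ‖ξ‖) ^ 2)⁻¹) := by
    have : ∀ t : ℝ, 1 + (t * ‖ξ‖) ^ 2 ≠ 0 := fun t => by positivity
    fun_prop (disch := assumption)
  have hint : IntegrableOn (fun t : ℝ => C * (1 + (t * ‖ξ‖) ^ 2)⁻¹) (Set.Ioo 0 1) :=
    (hcont.integrableOn_Icc (a := 0) (b := 1)).mono_set Set.Ioo_subset_Icc_self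
  calc ‖ξ‖ * ‖∫ t in Set.Ioo (0 : ℝ) 1, 𝓕 (gainSch hg) (t • ξ)‖
      ≤ ‖ξ‖ * ∫ t in Set.Ioo (0 : ℝ) 1, C * (1 + (t * ‖ξ‖) ^ 2)⁻¹ := by
        apply mul_le_mul_of_nonneg_left _ (norm_nonneg _)
        exact norm_integral_le_of_norm_le hint (Filter.Eventually.of_forall h1)
    _ = C * ∫ t in Set.Ioo (0 : ℝ) 1, ‖ξ‖ * (1 + (t * ‖ξ‖) ^ 2)⁻¹ := by
        rw [← integral_const_mul, ← integral_const_mul]
        congr 1
        ext t
        ring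
    _ ≤ C * (Real.pi / 2) := mul_le_mul_of_nonneg_left (gain_arctan _ (norm_nonneg _)) hC

theorem gain_fourier_pd {φ : Eu n → ℝ} (hφ : Test Set.univ φ) (l : Fin n) (ξ : Eu n) :
    𝓕 (gainSch (hφ.pd l)) ξ =
      (2 * Real.pi * Complex.I) * ((inner ℝ ξ (EuclideanSpace.single l (1 : ℝ)) : ℝ) : ℂ) *
        𝓕 (gainSch hφ) ξ := by
  have h1 : gainSch (hφ.pd l) = ∂_{(EuclideanSpace.single l (1 : ℝ) : Eu n)} (gainSch hφ) := by
    ext x
    rw [SchwartzMap.lineDerivOp_apply_eq_fderiv, gainSch_apply]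
    have h2 : HasFDerivAt (fun x => (φ x : ℂ)) (Complex.ofRealCLM.comp (fderiv ℝ φ x)) x :=
      Complex.ofRealCLM.hasFDerivAt.comp x
        ((hφ.1.differentiable (by simp)) x).hasFDerivAt
    have h3 : fderiv ℝ (gainSch hφ : Eu n → ℂ) x = Complex.ofRealCLM.comp (fderiv ℝ φ x) :=
      h2.fderiv
    rw [h3]
    rfl
  rw [h1, SchwartzMap.fourier_lineDerivOp_eq]
  have h4 : (fun x : Eu n => (inner ℝ x (EuclideanSpace.single l (1 : ℝ)) : ℝ)).HasTemperateGrowth :=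
    ((innerSL ℝ).flip (EuclideanSpace.single l (1 : ℝ))).hasTemperateGrowth
  rw [smul_apply, SchwartzMap.smulLeftCLM_apply_apply h4]
  simp only [smul_eq_mul, Complex.real_smul]
  ring

theorem gain_conv {g φ : Eu n → ℝ} (hg : Test Set.univ g) (hφ : Test Set.univ φ) (l : Fin n)
    (hu : Test Set.univ (cc (KK g) (pd l φ))) (ξ : Eu n) :
    𝓕 (gainSch hu) ξ = 𝓕 (fun z : Eu n => (KK g z : ℂ)) ξ * 𝓕 (gainSch (hφ.pd l)) ξ := by
  have h1 : Integrable (fun z : Eu n => (KK g z : ℂ)) := (KK_integrable hg.ccs).ofReal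
  have h2 : Integrable (fun z : Eu n => ((pd l φ z : ℝ) : ℂ)) :=
    ((hφ.pd l).1.continuous.integrable_of_hasCompactSupport (hφ.pd l).2.1).ofReal
  have h3 := Real.fourier_mul_convolution_eq h1 h2 ξ
  rw [SchwartzMap.fourier_coe, SchwartzMap.fourier_coe]
  have h4 : (gainSch (hφ.pd l) : Eu n → ℂ) = fun z : Eu n => ((pd l φ z : ℝ) : ℂ) := rfl
  have h5 : (gainSch hu : Eu n → ℂ) = convolution (fun z : Eu n => (KK g z : ℂ))
      (fun z : Eu n => ((pd l φ z : ℝ) : ℂ)) (ContinuousLinearMap.mul ℂ ℂ) volume := by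
    ext x
    rw [convolution_def]
    show ((cc (KK g) (pd l φ) x : ℝ) : ℂ) = _
    rw [cc, ← integral_complex_ofReal]
    congr 1
    ext z
    simp
  rw [h4, h5]
  exact h3

theorem gain_bound {g : Eu n → ℝ} (hg : Test Set.univ g) (l : Fin n) :
    ∃ C : ℝ, 0 ≤ C ∧ ∀ φ : Eu n → ℝ, Test Set.univ φ →
      ∫ x, (cc (KK g) (pd l φ) x) ^ 2 ≤ C * ∫ x, (φ x) ^ 2 := by
  obtain ⟨C, hC, hsym⟩ := gain_symbol hg
  refine ⟨(2 * Real.pi * C) ^ 2, by positivity, fun φ hφ => ?_⟩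
  have hu : Test Set.univ (cc (KK g) (pd l φ)) :=
    cc_test (KK_integrable hg.ccs) (KK_compact hg.ccs) (fun _ _ _ _ => Set.mem_univ _) (hφ.pd l)
  have h1 : ∫ x, (cc (KK g) (pd l φ) x) ^ 2 = ∫ ξ, ‖𝓕 (gainSch hu) ξ‖ ^ 2 := by
    rw [SchwartzMap.integral_norm_sq_fourier]
    congr 1
    ext x
    rw [gainSch_apply, Complex.norm_real, Real.norm_eq_abs, sq_abs]
  have h2 : ∫ x, (φ x) ^ 2 = ∫ ξ, ‖𝓕 (gainSch hφ) ξ‖ ^ 2 := by
    rw [SchwartzMap.integral_norm_sq_fourier]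
    congr 1
    ext x
    rw [gainSch_apply, Complex.norm_real, Real.norm_eq_abs, sq_abs]
  rw [h1, h2, ← integral_const_mul]
  have hint : ∀ f : 𝓢(Eu n, ℂ), Integrable (fun ξ => ‖f ξ‖ ^ 2) := by
    intro f
    have := f.memLp 2 volume
    exact this.integrable_norm_pow (by norm_num)
  apply integral_mono (hint _) ((hint _).const_mul _)
  intro ξ
  show ‖𝓕 (gainSch hu) ξ‖ ^ 2 ≤ (2 * Real.pi * C) ^ 2 * ‖𝓕 (gainSch hφ) ξ‖ ^ 2
  rw [← mul_pow]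
  apply pow_le_pow_left₀ (norm_nonneg _)
  rw [gain_conv hg hφ l hu ξ, gain_fourier_pd hφ l ξ, norm_mul, norm_mul, norm_mul, norm_mul,
    norm_mul]
  have h3 : ‖((inner ℝ ξ (EuclideanSpace.single l (1 : ℝ)) : ℝ) : ℂ)‖ ≤ ‖ξ‖ := by
    rw [Complex.norm_real]
    have := norm_inner_le_norm (𝕜 := ℝ) ξ (EuclideanSpace.single l (1 : ℝ))
    simpa using this
  have h4 : ‖(2 : ℂ)‖ * ‖(Real.pi : ℂ)‖ * ‖Complex.I‖ = 2 * Real.pi := by
    rw [Complex.norm_I, mul_one, Complex.norm_real, Real.norm_eq_abs, abs_of_pos Real.pi_pos]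
    norm_num
  rw [h4]
  have h5 := hsym ξ
  have hK := norm_nonneg (𝓕 (fun z : Eu n => (KK g z : ℂ)) ξ)
  have hF := norm_nonneg (𝓕 (gainSch hφ) ξ)
  have hpi := Real.pi_pos
  calc ‖𝓕 (fun z : Eu n => (KK g z : ℂ)) ξ‖ *
        (2 * Real.pi * ‖((inner ℝ ξ (EuclideanSpace.single l (1 : ℝ)) : ℝ) : ℂ)‖ *
          ‖𝓕 (gainSch hφ) ξ‖)
      ≤ ‖𝓕 (fun z : Eu n => (KK g z : ℂ)) ξ‖ * (2 * Real.pi * ‖ξ‖ * ‖𝓕 (gainSch hφ) ξ‖) := by
        gcongr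
    _ = 2 * Real.pi * (‖ξ‖ * ‖𝓕 (fun z : Eu n => (KK g z : ℂ)) ξ‖) * ‖𝓕 (gainSch hφ) ξ‖ := by
        ring
    _ ≤ 2 * Real.pi * C * ‖𝓕 (gainSch hφ) ξ‖ := by
        gcongr

end Pool.Agent.CochExt
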