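import Pool.Agent.CochExt.Gain
import Pool.Agent.CochExt.Cvb

set_option autoImplicit false

/-! # Module GAINH: `cv (KK g) f` has weak derivatives in `L²`.
The functional `φ ↦ ∫ cv (KK g) f · ∂_l φ = ∫ f · cc (KK g) (∂_l φ)` is bounded by
`√C ‖f‖ ‖φ‖₂` on test functions (`gain_bound`); extend by Hahn-Banach and use the Riesz
representation. -/

open MeasureTheory
open scoped ContDiff

namespace Pool.Agent.CochExt

variable {n : ℕ}

/-- abstract Riesz representation for functionals bounded with respect to a linear map -/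
theorem GAINH_riesz {T X : Type*} [AddCommGroup T] [Module ℝ T] [NormedAddCommGroup X]
    [InnerProductSpace ℝ X] [CompleteSpace X] (ι : T →ₗ[ℝ] X) (l : T →ₗ[ℝ] ℝ) (C : ℝ)
    (h : ∀ t, |l t| ≤ C * ‖ι t‖) : ∃ u : X, ∀ t, l t = inner ℝ u (ι t) := by
  obtain ⟨s, hs⟩ := LinearMap.exists_rightInverse_of_surjective ι.rangeRestrict
    ι.range_rangeRestrict
  have hs' : ∀ y : ι.range, ι (s y) = y := fun y => by
    have := LinearMap.congr_fun hs y
    exact congrArg Subtype.val this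
  let l' : ι.range →L[ℝ] ℝ := LinearMap.mkContinuous (l.comp s) C (fun y => by
    have := h (s y)
    rw [hs'] at this
    simpa using this)
  obtain ⟨g, hg, -⟩ := exists_extension_norm_eq ι.range l'
  refine ⟨(InnerProductSpace.toDual ℝ X).symm g, fun t => ?_⟩
  rw [InnerProductSpace.toDual_symm_apply]
  have h1 : g (ι t) = l (s ⟨ι t, LinearMap.mem_range_self ι t⟩) :=
    hg ⟨ι t, LinearMap.mem_range_self ι t⟩
  rw [h1]
  have h2 := h (t - s ⟨ι t, LinearMap.mem_range_self ι t⟩)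
  rw [map_sub, map_sub, hs', sub_self, norm_zero, mul_zero] at h2
  have h3 := abs_nonpos_iff.mp h2
  linarith

/-- test functions on the whole space as a submodule -/
def GAINH_T (n : ℕ) : Submodule ℝ (Eu n → ℝ) where
  carrier := {φ | Test Set.univ φ}
  add_mem' := fun {_a _b} ha hb => ⟨ha.1.add hb.1, ha.2.1.add hb.2.1, Set.subset_univ _⟩
  zero_mem' := ⟨contDiff_const, HasCompactSupport.zero, Set.subset_univ _⟩
  smul_mem' := fun _c {_a} ha => ⟨contDiff_const.smul ha.1, ha.2.1.smul_left, Set.subset_univ _⟩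

theorem GAINH_memLp {φ : Eu n → ℝ} (hφ : CCS φ) : MemLp φ 2 volume :=
  hφ.1.memLp_of_hasCompactSupport hφ.2

theorem GAINH_inner {φ : Eu n → ℝ} (hφ : MemLp φ 2 volume) (f : H n) :
    inner ℝ f (hφ.toLp φ) = ∫ x, (f : Eu n → ℝ) x * φ x := by
  rw [L2.inner_def]
  apply integral_congr_ae
  filter_upwards [hφ.coeFn_toLp] with x hx
  rw [hx]
  simp [mul_comm]

theorem GAINH_norm {φ : Eu n → ℝ} (hφ : MemLp φ 2 volume) :
    ‖hφ.toLp φ‖ ^ 2 = ∫ x, φ x ^ 2 := by
  rw [← real_inner_self_eq_norm_sq, GAINH_inner]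
  apply integral_congr_ae
  filter_upwards [hφ.coeFn_toLp] with x hx
  rw [hx, sq]

/-- the embedding into `L²` -/
noncomputable def GAINH_i (n : ℕ) : GAINH_T n →ₗ[ℝ] H n where
  toFun := fun φ => (GAINH_memLp (Test.ccs φ.2)).toLp φ.1
  map_add' := fun a b => by
    rw [← MemLp.toLp_add]
    rfl
  map_smul' := fun c a => by
    rw [RingHom.id_apply, ← MemLp.toLp_const_smul]
    rfl

theorem GAINH_pd_add {φ ψ : Eu n → ℝ} (hφ : ContDiff ℝ ∞ φ) (hψ : ContDiff ℝ ∞ ψ) (j : Fin n)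
    (x : Eu n) : pd j (φ + ψ) x = pd j φ x + pd j ψ x := by
  rw [pd, fderiv_add (hφ.differentiable (by simp)).differentiableAt
    (hψ.differentiable (by simp)).differentiableAt]
  rfl

theorem GAINH_pd_smul {φ : Eu n → ℝ} (hφ : ContDiff ℝ ∞ φ) (c : ℝ) (j : Fin n)
    (x : Eu n) : pd j (c • φ) x = c * pd j φ x := by
  rw [pd, fderiv_const_smul (hφ.differentiable (by simp)).differentiableAt]
  rfl

/-- the functional -/
noncomputable def GAINH_l (w : H n) (j : Fin n) : GAINH_T n →ₗ[ℝ] ℝ where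
  toFun := fun φ => - ∫ x, (w : Eu n → ℝ) x * pd j φ.1 x
  map_add' := fun a b => by
    rw [← neg_add, ← integral_add (int_H w (Test.ccs (Test.pd a.2 j)))
      (int_H w (Test.ccs (Test.pd b.2 j)))]
    congr 2
    ext1 x
    rw [Submodule.coe_add, GAINH_pd_add a.2.1 b.2.1]
    ring
  map_smul' := fun c a => by
    rw [RingHom.id_apply, smul_neg, smul_eq_mul, ← integral_const_mul]
    congr 2
    ext1 x
    rw [Submodule.coe_smul, GAINH_pd_smul a.2.1]
    ring

theorem gainH {g : Eu n → ℝ} (hg : Test Set.univ g) (l : Fin n) (f : H n) :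
    ∃ u : H n, WD Set.univ l (cv (KK g) f : Eu n → ℝ) (u : Eu n → ℝ) := by
  obtain ⟨C, hC0, hC⟩ := gain_bound hg l
  have hKi : Integrable (KK g) := KK_integrable hg.ccs
  have hKc : HasCompactSupport (KK g) := KK_compact hg.ccs
  obtain ⟨u, hu⟩ := GAINH_riesz (GAINH_i n) (GAINH_l (cv (KK g) f) l) (‖f‖ * Real.sqrt C) (by
    intro φ
    have hφ : Test Set.univ φ.1 := φ.2
    have hp : CCS (pd l φ.1) := Test.ccs (Test.pd hφ l)
    have hh : CCS (cc (KK g) (pd l φ.1)) :=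
      Test.ccs (cc_test hKi hKc (D := Set.univ) (V := Set.univ) (fun _ _ _ _ => Set.mem_univ _)
        (Test.pd hφ l))
    have e1 : GAINH_l (cv (KK g) f) l φ = - ∫ x, (f : Eu n → ℝ) x * cc (KK g) (pd l φ.1) x := by
      show - ∫ x, (cv (KK g) f : Eu n → ℝ) x * pd l φ.1 x = _
      rw [cv_spec hKi f hp]
    rw [e1, abs_neg, ← GAINH_inner (GAINH_memLp hh)]
    refine (abs_real_inner_le_norm _ _).trans ?_
    rw [mul_assoc]
    refine mul_le_mul_of_nonneg_left ?_ (norm_nonneg _)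
    have h1 := hC φ.1 hφ
    rw [← GAINH_norm (GAINH_memLp hh), ← GAINH_norm (GAINH_memLp (Test.ccs hφ))] at h1
    have h2 : ‖(GAINH_memLp hh).toLp (cc (KK g) (pd l φ.1))‖
        ≤ Real.sqrt (C * ‖(GAINH_memLp (Test.ccs hφ)).toLp φ.1‖ ^ 2) := Real.le_sqrt_of_sq_le h1
    rw [Real.sqrt_mul hC0, Real.sqrt_sq (norm_nonneg _)] at h2
    exact h2)
  refine ⟨u, fun φ hφ => ?_⟩
  have h1 := hu ⟨φ, hφ⟩
  have h2 : inner ℝ u (GAINH_i n ⟨φ, hφ⟩) = ∫ x, (u : Eu n → ℝ) x * φ x :=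
    GAINH_inner (GAINH_memLp (Test.ccs hφ)) u
  have h3 : GAINH_l (cv (KK g) f) l ⟨φ, hφ⟩ = - ∫ x, (cv (KK g) f : Eu n → ℝ) x * pd l φ x := rfl
  rw [h2, h3] at h1
  linarith

end Pool.Agent.CochExt
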