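import Pool.Agent.CochExt.Defs

set_option autoImplicit false

/-! # Module GEO: patches for a bounded Lipschitz open set.
Interior point `p`: `D = univ`, `U = Ω`, any `ρ`.  Boundary point: `D = {x | g x < ⟪x,e⟫}`, `ρ` a normalised bump with support in
the ball of radius `1/(2L+1)` around `e`.  `closure Ω` is compact: choose finitely many smooth bumps `b_i`,
compactly supported in `U_i`, with `{b_i = 1}` covering `closure Ω`; `χ_i = b_i ∏_{j<i} (1 - b_j)`, so `∑ χ_i = 1 - ∏ (1 - b_i)`;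
`ψ_i` smooth, compactly supported in `U_i`, `= 1` on `tsupport b_i`. -/

open MeasureTheory
open scoped ContDiff

namespace Pool.Agent.CochExt

variable {n : ℕ}

/-- a normalised bump function supported in a given nonempty open set -/
theorem geo_bump {B : Set (Eu n)} (hB : IsOpen B) (hne : B.Nonempty) :
    ∃ ρ : Eu n → ℝ, ContDiff ℝ ∞ ρ ∧ HasCompactSupport ρ ∧ tsupport ρ ⊆ B ∧ ∫ x, ρ x = 1 := by
  obtain ⟨x, hx⟩ := hne
  obtain ⟨R, hR, hRB⟩ := Metric.isOpen_iff.1 hB x hx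
  let f : ContDiffBump x := ⟨R / 4, R / 2, by positivity, by linarith⟩
  refine ⟨f.normed volume, f.contDiff_normed, f.hasCompactSupport_normed, ?_, f.integral_normed⟩
  rw [f.tsupport_normed_eq]
  exact (Metric.closedBall_subset_ball (by show R / 2 < R; linarith)).trans hRB

/-- local data at a boundary point -/
theorem geo_local {Ω : Set (Eu n)} (hΩ : IsLip Ω) {p : Eu n} (hp : p ∈ closure Ω) :
    ∃ (U D : Set (Eu n)) (ρ : Eu n → ℝ), IsOpen U ∧ p ∈ U ∧ IsOpen D ∧ (∀ x ∈ U, x ∈ D ↔ x ∈ Ω) ∧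
      ContDiff ℝ ∞ ρ ∧ HasCompactSupport ρ ∧ (∫ x, ρ x = 1) ∧
      ∀ x ∈ D, ∀ v ∈ tsupport ρ, ∀ t ∈ Set.Icc (0 : ℝ) 1, x + t • v ∈ D := by
  by_cases hpΩ : p ∈ Ω
  · obtain ⟨ρ, h1, h2, -, h4⟩ := geo_bump (isOpen_univ : IsOpen (Set.univ : Set (Eu n))) ⟨p, trivial⟩
    exact ⟨Ω, Set.univ, ρ, hΩ.isOpen, hpΩ, isOpen_univ, fun x hx => by simp [hx], h1, h2, h4,
      fun x _ v _ t _ => trivial⟩
  · have hpf : p ∈ frontier Ω := by
      rw [frontier, hΩ.isOpen.interior_eq]
      exact ⟨hp, hpΩ⟩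
    obtain ⟨e, L, g, U, he, hg, hge, hU, hpU, hUΩ⟩ := hΩ.lip p hpf
    have hL : (0 : ℝ) ≤ L := L.2
    have hr : (0 : ℝ) < 1 / (2 * (L : ℝ) + 1) := by positivity
    obtain ⟨ρ, h1, h2, h3, h4⟩ := geo_bump (Metric.isOpen_ball : IsOpen (Metric.ball e (1 / (2 * (L : ℝ) + 1))))
      ⟨e, Metric.mem_ball_self hr⟩
    refine ⟨U, {x | g x < inner ℝ x e}, ρ, hU, hpU,
      isOpen_lt hg.continuous (continuous_id.inner continuous_const), fun x hx => (hUΩ x hx).symm, h1, h2, h4, ?_⟩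
    intro x hx v hv t ht
    have hvb : ‖v - e‖ < 1 / (2 * (L : ℝ) + 1) := by
      have := h3 hv
      rwa [Metric.mem_ball, dist_eq_norm] at this
    have hvb' : ‖v - e‖ * (2 * (L : ℝ) + 1) < 1 := by
      rwa [lt_div_iff₀ (by positivity)] at hvb
    set c : ℝ := inner ℝ v e with hc
    have hc1 : |c - 1| ≤ ‖v - e‖ := by
      have h5 : c - 1 = inner ℝ (v - e) e := by
        rw [inner_sub_left, ← hc, real_inner_self_eq_norm_sq, he]; norm_num
      rw [h5]
      have := abs_real_inner_le_norm (v - e) e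
      rwa [he, mul_one] at this
    have hv' : ‖v - c • e‖ ≤ 2 * ‖v - e‖ := by
      have h6 : v - c • e = (v - e) - (c - 1) • e := by
        rw [sub_smul, one_smul]; abel
      rw [h6]
      calc ‖(v - e) - (c - 1) • e‖ ≤ ‖v - e‖ + ‖(c - 1) • e‖ := norm_sub_le _ _
        _ = ‖v - e‖ + |c - 1| := by rw [norm_smul, he, mul_one, Real.norm_eq_abs]
        _ ≤ 2 * ‖v - e‖ := by linarith
    have hkey : (L : ℝ) * ‖v - c • e‖ ≤ c := by
      have h7 : (L : ℝ) * ‖v - c • e‖ ≤ L * (2 * ‖v - e‖) := by gcongr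
      have h8 := (abs_le.1 hc1).1
      nlinarith
    have h9 : g (x + t • v) ≤ g x + L * (t * ‖v - c • e‖) := by
      have h10 : x + t • v = (x + t • (v - c • e)) + (t * c) • e := by
        rw [smul_sub, mul_smul]; abel
      rw [h10, hge]
      have h11 := hg.dist_le_mul (x + t • (v - c • e)) x
      rw [Real.dist_eq, dist_eq_norm, add_sub_cancel_left, norm_smul, Real.norm_eq_abs,
        abs_of_nonneg ht.1] at h11
      have h12 := (abs_le.1 h11).2
      linarith
    have hx' : g x < inner ℝ x e := hx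
    show g (x + t • v) < inner ℝ (x + t • v) e
    rw [inner_add_left, inner_smul_left, ← hc]
    simp only [conj_trivial]
    have h13 : t * ((L : ℝ) * ‖v - c • e‖) ≤ t * c := mul_le_mul_of_nonneg_left hkey ht.1
    nlinarith

theorem geo {Ω : Set (Eu n)} (hΩ : IsLip Ω) :
    ∃ (N : ℕ) (P : Fin N → Patch Ω), ∀ x ∈ Ω, ∑ i, (P i).χ x = 1 := by
  classical
  -- a point of the closure gives a radius and local data
  have hloc : ∀ p : closure Ω, ∃ (R : ℝ) (D : Set (Eu n)) (ρ : Eu n → ℝ), 0 < R ∧ IsOpen D ∧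
      (∀ x ∈ Metric.closedBall (p : Eu n) R, x ∈ D ↔ x ∈ Ω) ∧
      ContDiff ℝ ∞ ρ ∧ HasCompactSupport ρ ∧ (∫ x, ρ x = 1) ∧
      ∀ x ∈ D, ∀ v ∈ tsupport ρ, ∀ t ∈ Set.Icc (0 : ℝ) 1, x + t • v ∈ D := by
    rintro ⟨p, hp⟩
    obtain ⟨U, D, ρ, hU, hpU, hD, hag, h1, h2, h3, h4⟩ := geo_local hΩ hp
    obtain ⟨R, hR, hRU⟩ := Metric.isOpen_iff.1 hU p hpU
    refine ⟨R / 2, D, ρ, by positivity, hD, ?_, h1, h2, h3, h4⟩
    intro x hx
    exact hag x (hRU (Metric.closedBall_subset_ball (by linarith) hx))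
  choose R D ρ hR hD hag hρ hρc hρ1 hcone using hloc
  have hcomp : IsCompact (closure Ω) := hΩ.bdd.isCompact_closure
  obtain ⟨t, ht⟩ := hcomp.elim_finite_subcover (fun p : closure Ω => Metric.ball (p : Eu n) (R p / 4))
    (fun p => Metric.isOpen_ball)
    (fun x hx => Set.mem_iUnion.2 ⟨⟨x, hx⟩, Metric.mem_ball_self (by have := hR ⟨x, hx⟩; positivity)⟩)
  let b : ∀ p : closure Ω, ContDiffBump (p : Eu n) := fun p => ⟨R p / 4, R p / 2, by
    have := hR p; positivity, by have := hR p; linarith⟩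
  let c : ∀ p : closure Ω, ContDiffBump (p : Eu n) := fun p => ⟨R p / 2, R p, by
    have := hR p; positivity, by have := hR p; linarith⟩
  let q : Fin t.card → closure Ω := fun i => (t.equivFin.symm i : closure Ω)
  let χ : Fin t.card → Eu n → ℝ := fun i x =>
    b (q i) x * ∏ j ∈ Finset.univ.filter (· < i), (1 - b (q j) x)
  have hbs : ∀ p, ContDiff ℝ ∞ (b p : Eu n → ℝ) := fun p => (b p).contDiff
  have hχ : ∀ i, ContDiff ℝ ∞ (χ i) := fun i =>
    (hbs _).mul (contDiff_prod (fun j _ => contDiff_const.sub (hbs _)))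
  have hχc : ∀ i, HasCompactSupport (χ i) := fun i => ((b (q i)).hasCompactSupport).mul_right
  have hψχ : ∀ i x, c (q i) x * χ i x = χ i x := by
    intro i x
    by_cases hx : x ∈ Metric.closedBall (q i : Eu n) (R (q i) / 2)
    · rw [(c (q i)).one_of_mem_closedBall hx, one_mul]
    · have h0 : b (q i) x = 0 := by
        have h1 : x ∉ Function.support (b (q i)) := by
          rw [(b (q i)).support_eq]
          exact fun h => hx (Metric.ball_subset_closedBall h)
        simpa [Function.mem_support] using h1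
      show c (q i) x * (b (q i) x * _) = b (q i) x * _
      rw [h0, zero_mul, mul_zero]
  have hagree : ∀ i, ∀ x ∈ tsupport (c (q i)), x ∈ D (q i) ↔ x ∈ Ω := by
    intro i x hx
    rw [(c (q i)).tsupport_eq] at hx
    exact hag (q i) x hx
  refine ⟨t.card, fun i => ⟨D (q i), ρ (q i), χ i, c (q i), hD _, hρ _, hρc _, hρ1 _, hcone _,
    hχ i, hχc i, (c (q i)).contDiff, (c (q i)).hasCompactSupport, hψχ i, hagree i⟩, ?_⟩
  · intro x hx
    show ∑ i, χ i x = 1
    have h1 := Finset.prod_one_sub_ordered (Finset.univ : Finset (Fin t.card)) (fun i => (b (q i) : Eu n → ℝ) x)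
    have h2 : ∏ i : Fin t.card, (1 - b (q i) x) = 0 := by
      have hxc := ht (subset_closure hx)
      obtain ⟨p, hpt, hxp⟩ := by simpa only [Set.mem_iUnion, exists_prop] using hxc
      refine Finset.prod_eq_zero (Finset.mem_univ (t.equivFin ⟨p, hpt⟩)) ?_
      have h3 : q (t.equivFin ⟨p, hpt⟩) = p := by simp [q]
      rw [h3, (b p).one_of_mem_closedBall (Metric.ball_subset_closedBall hxp), sub_self]
    rw [h2] at h1
    show ∑ i, b (q i) x * ∏ j ∈ Finset.univ.filter (· < i), (1 - b (q j) x) = 1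
    linarith

end Pool.Agent.CochExt
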