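import Pool.Agent.CochExt.Bas

set_option autoImplicit false

/-! # Module WDF: the weak exterior derivative.
`WDH_dd`: for a test function `φ` in `U`, `∫ u_S ∂_i φ` with `∂_i φ` as test function gives
`- ∑_{j} sg j S ∫ w_{S \ j} ∂_j ∂_i φ`; sum over `i ∈ T` with `S = T \ i` and use
`sg i T * sg j (T.erase i) = - sg j T * sg i (T.erase j)` for `i ≠ j ∈ T`. -/

open MeasureTheory
open scoped ContDiff

namespace Pool.Agent.CochExt

variable {n : ℕ}

/-- integration against a continuous compactly supported function, as a continuous linear map -/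
theorem wdf_clm {φ : Eu n → ℝ} (hφ : CCS φ) :
    ∃ L : H n →L[ℝ] ℝ, ∀ f : H n, L f = ∫ x, (f : Eu n → ℝ) x * φ x := by
  have hm : MemLp φ 2 (volume : Measure (Eu n)) := hφ.1.memLp_of_hasCompactSupport hφ.2
  refine ⟨innerSL ℝ (hm.toLp φ), fun f => ?_⟩
  rw [innerSL_apply_apply, L2.inner_def]
  refine integral_congr_ae ?_
  filter_upwards [hm.coeFn_toLp] with x hx
  rw [hx]
  simp [mul_comm]

open Classical in
/-- the functional `f ↦ ∫ f φ` -/
noncomputable def wdfI (φ : Eu n → ℝ) : H n →L[ℝ] ℝ :=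
  if h : CCS φ then (wdf_clm h).choose else 0

theorem wdfI_spec {φ : Eu n → ℝ} (h : CCS φ) (f : H n) :
    wdfI φ f = ∫ x, (f : Eu n → ℝ) x * φ x := by
  rw [wdfI, dif_pos h]
  exact (wdf_clm h).choose_spec f

theorem wdf_iff {U : Set (Eu n)} {w u : FH n} : WDH U w u ↔
    ∀ φ : Eu n → ℝ, Test U φ → ∀ S : Finset (Fin n),
      ∑ i ∈ S, sg i S * wdfI (pd i φ) (w (S.erase i)) = - wdfI φ (u S) := by
  constructor
  · intro h φ hφ S
    have h1 := h φ hφ S
    rw [wdfI_spec hφ.ccs, ← h1]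
    exact Finset.sum_congr rfl (fun i _ => by rw [wdfI_spec (hφ.pd i).ccs])
  · intro h φ hφ S
    have h1 := h φ hφ S
    rw [wdfI_spec hφ.ccs] at h1
    rw [← h1]
    exact Finset.sum_congr rfl (fun i _ => by rw [wdfI_spec (hφ.pd i).ccs])

theorem sg_mul_self (i : Fin n) (S : Finset (Fin n)) : sg i S * sg i S = 1 := by
  rw [sg, ← mul_pow]; norm_num

/-- `sg i (S.erase i) = sg i S` and `sg i (insert i S) = sg i S` -/
theorem sg_erase_self (i : Fin n) (S : Finset (Fin n)) : sg i (S.erase i) = sg i S := by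
  have h : (S.erase i).filter (· < i) = S.filter (· < i) := by
    ext x
    simp only [Finset.mem_filter, Finset.mem_erase]
    constructor
    · rintro ⟨⟨_, h1⟩, h2⟩; exact ⟨h1, h2⟩
    · rintro ⟨h1, h2⟩; exact ⟨⟨h2.ne, h1⟩, h2⟩
  rw [sg, sg, h]

theorem sg_insert_self (i : Fin n) (S : Finset (Fin n)) : sg i (insert i S) = sg i S := by
  have h : (insert i S).filter (· < i) = S.filter (· < i) := by
    ext x
    simp only [Finset.mem_filter, Finset.mem_insert]
    constructor
    · rintro ⟨h1 | h1, h2⟩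
      · exact absurd h1 h2.ne
      · exact ⟨h1, h2⟩
    · rintro ⟨h1, h2⟩; exact ⟨Or.inr h1, h2⟩
  rw [sg, sg, h]

theorem wdf_insert {a j : Fin n} {S : Finset (Fin n)} (ha : a ∉ S) :
    sg j (insert a S) = (if a < j then (-1 : ℝ) else 1) * sg j S := by
  rw [sg, sg, Finset.filter_insert]
  split_ifs with h
  · rw [Finset.card_insert_of_notMem (by simp [ha]), pow_succ]; ring
  · rw [one_mul]

theorem wdf_erase {i j : Fin n} {S : Finset (Fin n)} (hi : i ∈ S) :
    sg j (S.erase i) = (if i < j then (-1 : ℝ) else 1) * sg j S := by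
  have h := wdf_insert (j := j) (Finset.notMem_erase i S)
  rw [Finset.insert_erase hi] at h
  rw [h, ← mul_assoc]
  split_ifs <;> norm_num

theorem wdf_eps {i j : Fin n} (hij : i ≠ j) :
    (if i < j then (-1 : ℝ) else 1) = - (if j < i then (-1 : ℝ) else 1) := by
  rcases lt_or_gt_of_ne hij with h | h
  · rw [if_pos h, if_neg (not_lt.2 h.le)]
  · rw [if_neg (not_lt.2 h.le), if_pos h]; norm_num

theorem sg_swap {i j : Fin n} {S : Finset (Fin n)} (hi : i ∈ S) (hj : j ∈ S) (hij : i ≠ j) :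
    sg i S * sg j (S.erase i) = - (sg j S * sg i (S.erase j)) := by
  rw [wdf_erase hi, wdf_erase hj, wdf_eps hij]; ring

/-- used in the homotopy formula: `a ∉ S`, `i ∈ S` -/
theorem sg_mix {i a : Fin n} {S : Finset (Fin n)} (hi : i ∈ S) (ha : a ∉ S) :
    sg i S * sg a (insert a (S.erase i)) = - (sg a (insert a S) * sg i (insert a S)) := by
  have hia : i ≠ a := fun h => ha (h ▸ hi)
  rw [sg_insert_self, sg_insert_self, wdf_erase hi, wdf_insert ha, wdf_eps hia]; ring

theorem wdf_int_congr {U : Set (Eu n)} (hU : MeasurableSet U) {f f' : Eu n → ℝ}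
    (hf : f =ᵐ[volume.restrict U] f') {φ : Eu n → ℝ} (hφ : tsupport φ ⊆ U) :
    ∫ x, f x * φ x = ∫ x, f' x * φ x := by
  have h0 : ∀ x, x ∉ U → φ x = 0 := fun x hx => image_eq_zero_of_notMem_tsupport (fun h => hx (hφ h))
  rw [← setIntegral_eq_integral_of_forall_compl_eq_zero (s := U) (f := fun x => f x * φ x)
      (fun x hx => by rw [h0 x hx, mul_zero]),
    ← setIntegral_eq_integral_of_forall_compl_eq_zero (s := U) (f := fun x => f' x * φ x)
      (fun x hx => by rw [h0 x hx, mul_zero])]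
  refine integral_congr_ae ?_
  filter_upwards [hf] with x hx
  rw [hx]

theorem WDF_congr {U : Set (Eu n)} (hU : MeasurableSet U) {w w' u u' : Finset (Fin n) → Eu n → ℝ}
    (hw : ∀ S, w S =ᵐ[volume.restrict U] w' S) (hu : ∀ S, u S =ᵐ[volume.restrict U] u' S)
    (h : WDF U w u) : WDF U w' u' := by
  intro φ hφ S
  rw [← wdf_int_congr hU (hu S) hφ.2.2, ← h φ hφ S]
  exact Finset.sum_congr rfl (fun i _ => by rw [wdf_int_congr hU (hw _) (hφ.pd i).2.2])

theorem WDF.mono {U V : Set (Eu n)} (hUV : U ⊆ V) {w u : Finset (Fin n) → Eu n → ℝ}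
    (h : WDF V w u) : WDF U w u := fun φ hφ => h φ (hφ.mono hUV)

theorem WDH_zero (U : Set (Eu n)) : WDH U (0 : FH n) 0 := by
  rw [wdf_iff]
  intro φ hφ S
  simp

theorem WDH_add {U : Set (Eu n)} {w w' u u' : FH n} (h : WDH U w u) (h' : WDH U w' u') :
    WDH U (w + w') (u + u') := by
  rw [wdf_iff] at h h' ⊢
  intro φ hφ S
  simp only [Pi.add_apply, map_add, mul_add, Finset.sum_add_distrib]
  rw [h φ hφ S, h' φ hφ S]; ring

theorem WDH_smul {U : Set (Eu n)} {w u : FH n} (c : ℝ) (h : WDH U w u) :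
    WDH U (c • w) (c • u) := by
  rw [wdf_iff] at h ⊢
  intro φ hφ S
  simp only [Pi.smul_apply, map_smul, smul_eq_mul]
  have h1 := h φ hφ S
  have h2 : ∑ i ∈ S, sg i S * (c * wdfI (pd i φ) (w (S.erase i))) =
      c * ∑ i ∈ S, sg i S * wdfI (pd i φ) (w (S.erase i)) := by
    rw [Finset.mul_sum]; exact Finset.sum_congr rfl (fun i _ => by ring)
  rw [h2, h1]; ring

theorem WDH_sub {U : Set (Eu n)} {w w' u u' : FH n} (h : WDH U w u) (h' : WDH U w' u') :
    WDH U (w - w') (u - u') := by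
  have h1 := WDH_add h (WDH_smul (-1) h')
  simpa [sub_eq_add_neg] using h1

theorem wdf_sum {ι : Type} {U : Set (Eu n)} (s : Finset ι) {w u : ι → FH n}
    (h : ∀ i ∈ s, WDH U (w i) (u i)) : WDH U (∑ i ∈ s, w i) (∑ i ∈ s, u i) := by
  classical
  induction s using Finset.induction_on with
  | empty => simpa using WDH_zero U
  | insert a s ha ih =>
    rw [Finset.sum_insert ha, Finset.sum_insert ha]
    exact WDH_add (h a (Finset.mem_insert_self a s))
      (ih (fun i hi => h i (Finset.mem_insert_of_mem hi)))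

theorem WDH_sum {U : Set (Eu n)} {N : ℕ} {w u : Fin N → FH n} (h : ∀ i, WDH U (w i) (u i)) :
    WDH U (∑ i, w i) (∑ i, u i) := wdf_sum Finset.univ (fun i _ => h i)

/-- an antisymmetric double sum off the diagonal vanishes -/
theorem wdf_antisym {ι : Type} [DecidableEq ι] (T : Finset ι) (F : ι → ι → ℝ)
    (hF : ∀ i ∈ T, ∀ j ∈ T, i ≠ j → F i j = - F j i) :
    ∑ i ∈ T, ∑ j ∈ T.erase i, F i j = 0 := by
  have h1 : ∀ i ∈ T, ∑ j ∈ T.erase i, F i j = ∑ j ∈ T, if j = i then 0 else F i j := by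
    intro i hi
    rw [← Finset.add_sum_erase T _ hi, if_pos rfl, zero_add]
    refine Finset.sum_congr rfl (fun j hj => ?_)
    rw [if_neg (Finset.ne_of_mem_erase hj)]
  rw [Finset.sum_congr rfl h1]
  have h2 : ∑ i ∈ T, ∑ j ∈ T, (if j = i then 0 else F i j) =
      - ∑ i ∈ T, ∑ j ∈ T, (if j = i then 0 else F i j) := by
    conv_lhs => rw [Finset.sum_comm]
    rw [← Finset.sum_neg_distrib]
    refine Finset.sum_congr rfl (fun i hi => ?_)
    rw [← Finset.sum_neg_distrib]
    refine Finset.sum_congr rfl (fun j hj => ?_)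
    by_cases hij : i = j
    · rw [if_pos hij, if_pos hij.symm, neg_zero]
    · rw [if_neg hij, if_neg (Ne.symm hij), hF j hj i hi (Ne.symm hij)]
  linarith

theorem WDH_dd {U : Set (Eu n)} {w u : FH n} (h : WDH U w u) : WDH U u 0 := by
  rw [wdf_iff] at h ⊢
  intro φ hφ T
  have h1 : ∀ i ∈ T, sg i T * wdfI (pd i φ) (u (T.erase i)) =
      - ∑ j ∈ T.erase i, sg i T * sg j (T.erase i) *
        wdfI (pd j (pd i φ)) (w ((T.erase i).erase j)) := by
    intro i _
    have h2 := h (pd i φ) (hφ.pd i) (T.erase i)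
    have h3 : wdfI (pd i φ) (u (T.erase i)) = - ∑ j ∈ T.erase i, sg j (T.erase i) *
        wdfI (pd j (pd i φ)) (w ((T.erase i).erase j)) := by rw [h2]; ring
    rw [h3, mul_neg, Finset.mul_sum]
    congr 1
    exact Finset.sum_congr rfl (fun j _ => by ring)
  rw [Finset.sum_congr rfl h1, Finset.sum_neg_distrib, wdf_antisym]
  · simp
  · intro i hi j hj hij
    rw [sg_swap hi hj hij, pd_comm hφ.1 i j, Finset.erase_right_comm]
    ring

theorem WDH_unique {U : Set (Eu n)} (hU : IsOpen U) {w u u' : FH n} (h : WDH U w u)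
    (h' : WDH U w u') (S : Finset (Fin n)) :
    (u S : Eu n → ℝ) =ᵐ[volume.restrict U] (u' S : Eu n → ℝ) := by
  refine ae_eq_of_test hU (u S) (u' S) (fun φ hφ => ?_)
  have h1 := h φ hφ S
  have h2 := h' φ hφ S
  rw [h1] at h2
  linarith

theorem WDH_closed (U : Set (Eu n)) : IsClosed {p : FH n × FH n | WDH U p.1 p.2} := by
  have h : {p : FH n × FH n | WDH U p.1 p.2} = ⋂ (φ : Eu n → ℝ) (_ : Test U φ) (S : Finset (Fin n)),
      {p : FH n × FH n | ∑ i ∈ S, sg i S * wdfI (pd i φ) (p.1 (S.erase i)) = - wdfI φ (p.2 S)} := by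
    ext p
    simp only [Set.mem_ofPred_eq, Set.mem_iInter, wdf_iff]
  rw [h]
  refine isClosed_iInter (fun φ => isClosed_iInter (fun _ => isClosed_iInter (fun S => ?_)))
  refine isClosed_eq ?_ ?_
  · refine continuous_finsetSum _ (fun i _ => continuous_const.mul ?_)
    exact (wdfI (pd i φ)).continuous.comp ((continuous_apply _).comp continuous_fst)
  · exact ((wdfI φ).continuous.comp ((continuous_apply _).comp continuous_snd)).neg

/-- part of degree `k` -/
noncomputable def dg (k : ℕ) (w : FH n) : FH n := fun S => if S.card = k then w S else 0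

theorem WDH_deg {U : Set (Eu n)} (k : ℕ) {w u : FH n} (h : WDH U w u) :
    WDH U (dg k w) (dg (k + 1) u) := by
  rw [wdf_iff] at h ⊢
  intro φ hφ S
  by_cases hS : S.card = k + 1
  · rw [dg, if_pos hS, ← h φ hφ S]
    refine Finset.sum_congr rfl (fun i hi => ?_)
    rw [dg, if_pos (by rw [Finset.card_erase_of_mem hi, hS]; rfl)]
  · rw [dg, if_neg hS, map_zero, neg_zero]
    refine Finset.sum_eq_zero (fun i hi => ?_)
    have h1 : (S.erase i).card ≠ k := by
      rw [Finset.card_erase_of_mem hi]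
      have := Finset.card_pos.2 ⟨i, hi⟩
      omega
    rw [dg, if_neg h1, map_zero, mul_zero]

end Pool.Agent.CochExt
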