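import Pool.Agent.CochExt.Kid
import Pool.Agent.CochExt.Cvb
import Pool.Agent.CochExt.Wdf

set_option autoImplicit false

/-! # Module HOM: the homotopy formula `w - S w - T u = d (T w)` on `D` (`u = d w`).
Test function `φ` in `D`; `φ_a = cc (kap ρ a) φ` is a test function in `D` (`cc_test`, `kap_cone`).
`∑_{i ∈ S} sg i S ∫ (T w)_{S \ i} ∂_i φ = ∑_{i ∈ S} ∑_{a ∉ S \ i} sg i S sg a ((S \ i) ∪ a) ∫ w_{(S \ i) ∪ a} ∂_i φ_a`
(the terms `a = i` give `∑_{i ∈ S} ∫ w_S ∂_i φ_i`), and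
`- ∫ (T u)_S φ = - ∑_{a ∉ S} sg a (S ∪ a) ∫ u_{S ∪ a} φ_a = ∑_{a ∉ S} sg a (S ∪ a) ∑_{i ∈ S ∪ a} sg i (S ∪ a) ∫ w_{(S ∪ a) \ i} ∂_i φ_a`
(the terms `i = a` give `∑_{a ∉ S} ∫ w_S ∂_a φ_a`).  The mixed terms cancel (`sg_mix`).  What remains is
`∫ w_S ∑_a ∂_a φ_a = ∫ w_S (cc ρ φ - φ) = ∫ (S w - w)_S φ` (`kap_id`). -/

open MeasureTheory
open scoped ContDiff

namespace Pool.Agent.CochExt

variable {n : ℕ}

/-- integration against a continuous compactly supported function, as a linear functional -/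
noncomputable def HOM_L (ψ : Eu n → ℝ) (hψ : CCS ψ) : H n →ₗ[ℝ] ℝ where
  toFun f := ∫ x, (f : Eu n → ℝ) x * ψ x
  map_add' f g := by
    rw [← integral_add (int_H f hψ) (int_H g hψ)]
    refine integral_congr_ae ?_
    filter_upwards [Lp.coeFn_add f g] with x hx
    rw [hx]
    simp only [Pi.add_apply]
    ring
  map_smul' c f := by
    rw [RingHom.id_apply, smul_eq_mul, ← integral_const_mul]
    refine integral_congr_ae ?_
    filter_upwards [Lp.coeFn_smul c f] with x hx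
    rw [hx]
    simp only [Pi.smul_apply, smul_eq_mul]
    ring

theorem HOM_L_apply (ψ : Eu n → ℝ) (hψ : CCS ψ) (f : H n) :
    HOM_L ψ hψ f = ∫ x, (f : Eu n → ℝ) x * ψ x := rfl

theorem HOM_ccs {ρ : Eu n → ℝ} (hρ : Test Set.univ ρ) : CCS ρ := ⟨hρ.1.continuous, hρ.2.1⟩

theorem HOM_int {ρ : Eu n → ℝ} (hρ : CCS ρ) : Integrable ρ :=
  hρ.1.integrable_of_hasCompactSupport hρ.2

/-- the test functions `φ_a` -/
theorem HOM_test {D : Set (Eu n)} {ρ : Eu n → ℝ} (hρ : Test Set.univ ρ)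
    (hcone : ∀ x ∈ D, ∀ v ∈ tsupport ρ, ∀ t ∈ Set.Icc (0 : ℝ) 1, x + t • v ∈ D)
    {φ : Eu n → ℝ} (hφ : Test D φ) (a : Fin n) : Test D (cc (kap ρ a) φ) :=
  cc_test (kap_integrable (HOM_ccs hρ) a) (kap_compact (HOM_ccs hρ) a)
    (kap_cone (HOM_ccs hρ) hcone a) hφ

theorem HOM_test_rho {ρ : Eu n → ℝ} (hρ : Test Set.univ ρ)
    {φ : Eu n → ℝ} (hφ : Test Set.univ φ) : Test Set.univ (cc ρ φ) :=
  cc_test (HOM_int (HOM_ccs hρ)) hρ.2.1 (fun _ _ _ _ => Set.mem_univ _) hφ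

/-- the diagonal terms -/
theorem HOM_diag {D : Set (Eu n)} {ρ : Eu n → ℝ} (hρ : Test Set.univ ρ) (h1 : ∫ x, ρ x = 1)
    (hcone : ∀ x ∈ D, ∀ v ∈ tsupport ρ, ∀ t ∈ Set.Icc (0 : ℝ) 1, x + t • v ∈ D)
    {φ : Eu n → ℝ} (hφ : Test D φ) (f : H n) :
    ∑ a, ∫ x, (f : Eu n → ℝ) x * pd a (cc (kap ρ a) φ) x =
      (∫ x, (f : Eu n → ℝ) x * cc ρ φ x) - ∫ x, (f : Eu n → ℝ) x * φ x := by
  have hφu : Test Set.univ φ := hφ.mono (Set.subset_univ _)
  rw [← integral_finsetSum _ (fun a _ => int_H f ((HOM_test hρ hcone hφ a).pd a).ccs),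
    ← integral_sub (int_H f (HOM_test_rho hρ hφu).ccs) (int_H f hφ.ccs)]
  refine integral_congr_ae ?_
  filter_upwards with x
  rw [← Finset.mul_sum, kap_id hρ h1 hφu x]
  ring

/-- the operator `TF` tested against a function -/
theorem HOM_TF {D : Set (Eu n)} {ρ : Eu n → ℝ} (hρ : Test Set.univ ρ)
    {ψ : Eu n → ℝ} (hψ : Test D ψ) (w : FH n) (S : Finset (Fin n)) :
    ∫ x, (TF ρ w S : Eu n → ℝ) x * ψ x =
      ∑ a ∈ Sᶜ, sg a (insert a S) * ∫ x, (w (insert a S) : Eu n → ℝ) x * cc (kap ρ a) ψ x := by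
  have h2 : ∫ x, (TF ρ w S : Eu n → ℝ) x * ψ x = HOM_L ψ hψ.ccs (TF ρ w S) := rfl
  rw [h2, TF_apply, map_sum]
  refine Finset.sum_congr rfl fun a _ => ?_
  rw [map_smul, smul_eq_mul, HOM_L_apply, cv_spec (kap_integrable (HOM_ccs hρ) a) _ hψ.ccs]

theorem hom {D : Set (Eu n)} {ρ : Eu n → ℝ} (hρ : Test Set.univ ρ) (h1 : ∫ x, ρ x = 1)
    (hcone : ∀ x ∈ D, ∀ v ∈ tsupport ρ, ∀ t ∈ Set.Icc (0 : ℝ) 1, x + t • v ∈ D)
    {w u : FH n} (h : WDH D w u) : WDH D (TF ρ w) (w - SF ρ w - TF ρ u) := by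
  intro φ hφ S
  have hφu : Test Set.univ φ := hφ.mono (Set.subset_univ _)
  -- the right-hand side
  have hR : ∫ x, ((w - SF ρ w - TF ρ u) S : Eu n → ℝ) x * φ x =
      (∫ x, (w S : Eu n → ℝ) x * φ x) - (∫ x, (w S : Eu n → ℝ) x * cc ρ φ x) -
        ∫ x, (TF ρ u S : Eu n → ℝ) x * φ x := by
    have h2 : ∫ x, ((w - SF ρ w - TF ρ u) S : Eu n → ℝ) x * φ x =
      HOM_L φ hφ.ccs (w S - cv ρ (w S) - TF ρ u S) := rfl
    rw [h2, map_sub, map_sub, HOM_L_apply, HOM_L_apply, HOM_L_apply,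
      cv_spec (HOM_int (HOM_ccs hρ)) _ hφ.ccs]
  -- `TF ρ u`
  have hTu : ∫ x, (TF ρ u S : Eu n → ℝ) x * φ x =
      ∑ a ∈ Sᶜ, (- (∫ x, (w S : Eu n → ℝ) x * pd a (cc (kap ρ a) φ) x) -
        ∑ i ∈ S, sg a (insert a S) * sg i (insert a S) *
          ∫ x, (w (insert a (S.erase i)) : Eu n → ℝ) x * pd i (cc (kap ρ a) φ) x) := by
    rw [HOM_TF hρ hφ u S]
    refine Finset.sum_congr rfl fun a ha => ?_
    have haS : a ∉ S := Finset.mem_compl.1 ha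
    have h3 := h (cc (kap ρ a) φ) (HOM_test hρ hcone hφ a) (insert a S)
    simp only at h3
    have h4 : ∫ x, (u (insert a S) : Eu n → ℝ) x * cc (kap ρ a) φ x =
        - ∑ i ∈ insert a S, sg i (insert a S) *
          ∫ x, (w ((insert a S).erase i) : Eu n → ℝ) x * pd i (cc (kap ρ a) φ) x := by
      rw [h3, neg_neg]
    rw [h4, Finset.sum_insert haS, Finset.erase_insert haS, mul_neg, mul_add, neg_add, sub_eq_add_neg]
    congr 1
    · rw [← mul_assoc, sg_mul_self, one_mul]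
    · rw [Finset.mul_sum]
      congr 1
      refine Finset.sum_congr rfl fun i hi => ?_
      have hia : a ≠ i := fun e => haS (e ▸ hi)
      rw [Finset.erase_insert_of_ne hia]
      ring
  -- the left-hand side
  have hL : ∀ i ∈ S, sg i S * ∫ x, (TF ρ w (S.erase i) : Eu n → ℝ) x * pd i φ x =
      (∫ x, (w S : Eu n → ℝ) x * pd i (cc (kap ρ i) φ) x) -
        ∑ a ∈ Sᶜ, sg a (insert a S) * sg i (insert a S) *
          ∫ x, (w (insert a (S.erase i)) : Eu n → ℝ) x * pd i (cc (kap ρ a) φ) x := by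
    intro i hi
    rw [HOM_TF hρ (hφ.pd i) w (S.erase i)]
    have hc : (S.erase i)ᶜ = insert i Sᶜ := by
      rw [Finset.compl_erase]
    rw [hc, Finset.sum_insert (by simpa using hi), mul_add, sub_eq_add_neg]
    congr 1
    · rw [Finset.insert_erase hi, ← mul_assoc, sg_mul_self, one_mul,
        pd_cc (kap_integrable (HOM_ccs hρ) i) hφu i]
    · rw [Finset.mul_sum, ← Finset.sum_neg_distrib]
      refine Finset.sum_congr rfl fun a ha => ?_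
      have haS : a ∉ S := Finset.mem_compl.1 ha
      rw [← mul_assoc, sg_mix hi haS, pd_cc (kap_integrable (HOM_ccs hρ) a) hφu i]
      ring
  show ∑ i ∈ S, sg i S * ∫ x, (TF ρ w (S.erase i) : Eu n → ℝ) x * pd i φ x =
    - ∫ x, ((w - SF ρ w - TF ρ u) S : Eu n → ℝ) x * φ x
  rw [Finset.sum_congr rfl hL, hR, hTu, Finset.sum_sub_distrib, Finset.sum_sub_distrib,
    Finset.sum_neg_distrib]
  have hd := HOM_diag hρ h1 hcone hφ (w S)
  rw [← Finset.sum_add_sum_compl S] at hd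
  rw [Finset.sum_comm (s := S) (t := Sᶜ)]
  linarith

/-- scalar case: if `f` has weak derivatives `g a` on `D` then `f = S f + ∑_a T_a (g a)` a.e. on `D` -/
theorem hom_scalar {D : Set (Eu n)} (hD : IsOpen D) {ρ : Eu n → ℝ} (hρ : Test Set.univ ρ)
    (h1 : ∫ x, ρ x = 1)
    (hcone : ∀ x ∈ D, ∀ v ∈ tsupport ρ, ∀ t ∈ Set.Icc (0 : ℝ) 1, x + t • v ∈ D)
    {f : H n} {g : Fin n → H n} (h : ∀ a, WD D a (f : Eu n → ℝ) (g a : Eu n → ℝ)) :
    (f : Eu n → ℝ) =ᵐ[volume.restrict D] ((cv ρ f + ∑ a, cv (kap ρ a) (g a) : H n) : Eu n → ℝ) := by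
  refine ae_eq_of_test hD _ _ fun φ hφ => ?_
  have h2 : ∫ x, ((cv ρ f + ∑ a, cv (kap ρ a) (g a) : H n) : Eu n → ℝ) x * φ x =
    HOM_L φ hφ.ccs (cv ρ f + ∑ a, cv (kap ρ a) (g a)) := rfl
  rw [h2, map_add, map_sum, HOM_L_apply, cv_spec (HOM_int (HOM_ccs hρ)) _ hφ.ccs]
  have h3 : ∀ a, HOM_L φ hφ.ccs (cv (kap ρ a) (g a)) =
      - ∫ x, (f : Eu n → ℝ) x * pd a (cc (kap ρ a) φ) x := by
    intro a
    rw [HOM_L_apply, cv_spec (kap_integrable (HOM_ccs hρ) a) _ hφ.ccs,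
      h a _ (HOM_test hρ hcone hφ a), neg_neg]
  rw [Finset.sum_congr rfl (fun a _ => h3 a), Finset.sum_neg_distrib, HOM_diag hρ h1 hcone hφ f]
  ring

end Pool.Agent.CochExt
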