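import Pool.Agent.CochExt.Bas

set_option autoImplicit false

/-! # Module KG: the kernel `KK g (z) = ∫_0^1 t^{-n} g(z/t) dt`.
For `t > 0`: `∫ |t^{-n} g(z/t)| dz = ∫ |g|` (`Measure.integral_comp_inv_smul` etc.), so
`(t,z) ↦ t^{-n} g(z/t)` is integrable on `(0,1) × ℝⁿ`; then Fubini. -/

open MeasureTheory
open scoped ContDiff

namespace Pool.Agent.CochExt

variable {n : ℕ}

theorem kg_scale {E' : Type*} [NormedAddCommGroup E'] [NormedSpace ℝ E'] (F : Eu n → E') {t : ℝ}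
    (ht : 0 < t) : ∫ z, (t ^ n)⁻¹ • F (t⁻¹ • z) = ∫ v, F v := by
  rw [integral_smul, Measure.integral_comp_inv_smul_of_nonneg volume F ht.le,
    finrank_euclideanSpace_fin, smul_smul, inv_mul_cancel₀ (pow_ne_zero _ ht.ne'), one_smul]

theorem kg_slice {g : Eu n → ℝ} (hg : CCS g) {t : ℝ} (ht : 0 < t) :
    Integrable (fun z : Eu n => (t ^ n)⁻¹ * g (t⁻¹ • z)) := by
  have h1 : Integrable g := hg.1.integrable_of_hasCompactSupport hg.2
  exact (h1.comp_smul (inv_ne_zero ht.ne')).const_mul _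

theorem KK_prod {g : Eu n → ℝ} (hg : CCS g) :
    Integrable (fun p : ℝ × Eu n => (p.1 ^ n)⁻¹ * g (p.1⁻¹ • p.2))
      ((volume.restrict (Set.Ioo (0 : ℝ) 1)).prod volume) := by
  have hmeas : Measurable (fun p : ℝ × Eu n => (p.1 ^ n)⁻¹ * g (p.1⁻¹ • p.2)) := by
    have h1 : Measurable (fun p : ℝ × Eu n => (p.1 ^ n)⁻¹) := (measurable_fst.pow_const n).inv
    have h2 : Measurable (fun p : ℝ × Eu n => p.1⁻¹ • p.2) := measurable_fst.inv.smul measurable_snd
    exact h1.mul (hg.1.measurable.comp h2)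
  rw [integrable_prod_iff hmeas.aestronglyMeasurable]
  refine ⟨?_, ?_⟩
  · filter_upwards [ae_restrict_mem measurableSet_Ioo] with t ht
    exact kg_slice hg ht.1
  · have h1 : (fun _ : ℝ => ∫ v, ‖g v‖) =ᵐ[volume.restrict (Set.Ioo (0 : ℝ) 1)]
        fun t => ∫ z : Eu n, ‖(t ^ n)⁻¹ * g (t⁻¹ • z)‖ := by
      filter_upwards [ae_restrict_mem measurableSet_Ioo] with t ht
      rw [← kg_scale (fun v => ‖g v‖) ht.1]
      congr 1
      ext z
      rw [norm_mul, Real.norm_of_nonneg (inv_nonneg.2 (pow_nonneg ht.1.le n)), smul_eq_mul]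
    exact (integrable_const _).congr h1

theorem KK_integrable {g : Eu n → ℝ} (hg : CCS g) : Integrable (KK g) :=
  (KK_prod hg).integral_prod_right

theorem kg_set_compact {g : Eu n → ℝ} (hg : CCS g) :
    IsCompact {z : Eu n | ∃ t ∈ Set.Icc (0 : ℝ) 1, ∃ v ∈ tsupport g, z = t • v} := by
  have h1 : IsCompact (Set.Icc (0 : ℝ) 1 ×ˢ tsupport g) := isCompact_Icc.prod hg.2
  have h2 := h1.image (continuous_fst.smul continuous_snd : Continuous fun p : ℝ × Eu n => p.1 • p.2)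
  convert h2 using 1
  ext z
  constructor
  · rintro ⟨t, ht, v, hv, rfl⟩
    exact ⟨(t, v), ⟨ht, hv⟩, rfl⟩
  · rintro ⟨⟨t, v⟩, ⟨ht, hv⟩, rfl⟩
    exact ⟨t, ht, v, hv, rfl⟩

theorem KK_tsupport {g : Eu n → ℝ} (hg : CCS g) :
    tsupport (KK g) ⊆ {z | ∃ t ∈ Set.Icc (0 : ℝ) 1, ∃ v ∈ tsupport g, z = t • v} := by
  apply closure_minimal _ (kg_set_compact hg).isClosed
  intro z hz
  have hz' : KK g z ≠ 0 := hz
  by_contra hc
  apply hz'
  rw [KK]
  apply setIntegral_eq_zero_of_forall_eq_zero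
  intro t ht
  by_contra hne
  apply hc
  refine ⟨t, ⟨ht.1.le, ht.2.le⟩, t⁻¹ • z, subset_tsupport g (right_ne_zero_of_mul hne), ?_⟩
  rw [smul_smul, mul_inv_cancel₀ ht.1.ne', one_smul]

theorem KK_compact {g : Eu n → ℝ} (hg : CCS g) : HasCompactSupport (KK g) :=
  (kg_set_compact hg).of_isClosed_subset (isClosed_tsupport _) (KK_tsupport hg)

theorem kg_fubini {E' : Type*} [NormedAddCommGroup E'] [NormedSpace ℝ E'] [CompleteSpace E']
    {g : Eu n → ℝ} (hg : CCS g) {e : Eu n → E'} (he : Continuous e)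
    (hb : ∃ C : ℝ, ∀ x, ‖e x‖ ≤ C) :
    ∫ z, KK g z • e z = ∫ t in Set.Ioo (0 : ℝ) 1, ∫ v, g v • e (t • v) := by
  obtain ⟨C, hC⟩ := hb
  have hint : Integrable (fun p : ℝ × Eu n => ((p.1 ^ n)⁻¹ * g (p.1⁻¹ • p.2)) • e p.2)
      ((volume.restrict (Set.Ioo (0 : ℝ) 1)).prod volume) := by
    apply Integrable.mono' ((KK_prod hg).norm.mul_const C)
      ((KK_prod hg).aestronglyMeasurable.smul (he.comp continuous_snd).aestronglyMeasurable)
    filter_upwards with p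
    show ‖((p.1 ^ n)⁻¹ * g (p.1⁻¹ • p.2)) • e p.2‖ ≤ _
    rw [norm_smul]
    exact mul_le_mul_of_nonneg_left (hC _) (norm_nonneg _)
  have hswap := integral_integral_swap
    (f := fun (t : ℝ) (z : Eu n) => ((t ^ n)⁻¹ * g (t⁻¹ • z)) • e z) hint
  have h1 : ∫ z, KK g z • e z = ∫ z, ∫ t in Set.Ioo (0 : ℝ) 1, ((t ^ n)⁻¹ * g (t⁻¹ • z)) • e z := by
    congr 1
    ext z
    rw [KK, integral_smul_const]
  rw [h1, ← hswap]
  apply setIntegral_congr_fun measurableSet_Ioo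
  intro t ht
  show ∫ z, ((t ^ n)⁻¹ * g (t⁻¹ • z)) • e z = ∫ v, g v • e (t • v)
  rw [← kg_scale (fun v => g v • e (t • v)) ht.1]
  congr 1
  ext z
  rw [smul_smul t t⁻¹ z, mul_inv_cancel₀ ht.1.ne', one_smul, smul_smul]

/-- convolution with `KK g` -/
theorem cc_KK {g φ : Eu n → ℝ} (hg : CCS g) (hφ : CCS φ) (x : Eu n) :
    cc (KK g) φ x = ∫ t in Set.Ioo (0 : ℝ) 1, ∫ v, g v * φ (x - t • v) := by
  obtain ⟨C, hC⟩ := hφ.1.bounded_above_of_compact_support hφ.2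
  exact kg_fubini hg (e := fun z => φ (x - z)) (hφ.1.comp (continuous_const.sub continuous_id))
    ⟨C, fun z => hC _⟩

/-- Fubini for a bounded continuous function, `e` complex valued (used with exponentials) -/
theorem integral_KK {g : Eu n → ℝ} (hg : CCS g) {e : Eu n → ℂ} (he : Continuous e)
    (hb : ∃ C : ℝ, ∀ x, ‖e x‖ ≤ C) :
    ∫ z, (KK g z : ℂ) * e z = ∫ t in Set.Ioo (0 : ℝ) 1, ∫ v, (g v : ℂ) * e (t • v) := by
  have := kg_fubini hg he hb
  simpa only [Complex.real_smul] using this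

end Pool.Agent.CochExt
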