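import Pool.Agent.CochExt.Defs

set_option autoImplicit false

/-!
# Operators: definitions.  Modules MUL (`exists_mu`) and CVO (`exists_cv`).
-/

open MeasureTheory
open scoped ContDiff

namespace Pool.Agent.CochExt

/-- continuous with compact support -/
def CCS {n : ℕ} (χ : Eu n → ℝ) : Prop := Continuous χ ∧ HasCompactSupport χ

/-- convolution `∫ k(z) φ(x - z) dz` (equal to Mathlib's convolution, `MeasureTheory.convolution_mul`) -/
noncomputable def cc {n : ℕ} (k φ : Eu n → ℝ) (x : Eu n) : ℝ := ∫ z, k z * φ (x - z)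

theorem MUL_bound {n : ℕ} (χ : Eu n → ℝ) (hχ : CCS χ) : ∃ C : ℝ, 0 ≤ C ∧ ∀ x, ‖χ x‖ ≤ C := by
  obtain ⟨C, hC⟩ := hχ.1.bounded_above_of_compact_support hχ.2
  exact ⟨C, (norm_nonneg _).trans (hC 0), hC⟩

theorem MUL_memLp {n : ℕ} {χ : Eu n → ℝ} (hχ : CCS χ) (f : H n) :
    MemLp (fun x => χ x * (f : Eu n → ℝ) x) 2 volume := by
  obtain ⟨C, hC0, hC⟩ := MUL_bound χ hχ
  refine ((Lp.memLp f).const_mul C).mono
    (hχ.1.aestronglyMeasurable.mul (Lp.aestronglyMeasurable f)) ?_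
  filter_upwards with x
  rw [norm_mul, norm_mul]
  refine mul_le_mul_of_nonneg_right ?_ (norm_nonneg _)
  rw [Real.norm_of_nonneg hC0]
  exact hC x

theorem exists_mu {n : ℕ} (χ : Eu n → ℝ) (hχ : CCS χ) :
    ∃ M : H n →L[ℝ] H n, ∀ f : H n, (M f : Eu n → ℝ) =ᵐ[volume] fun x => χ x * f x := by
  obtain ⟨C, hC0, hC⟩ := MUL_bound χ hχ
  refine ⟨LinearMap.mkContinuous
    { toFun := fun f => (MUL_memLp hχ f).toLp _
      map_add' := fun f g => by
        rw [← MemLp.toLp_add]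
        apply MemLp.toLp_congr
        filter_upwards [Lp.coeFn_add f g] with x hx
        rw [hx]
        simp only [Pi.add_apply]
        ring
      map_smul' := fun c f => by
        rw [RingHom.id_apply, ← MemLp.toLp_const_smul]
        apply MemLp.toLp_congr
        filter_upwards [Lp.coeFn_smul c f] with x hx
        rw [hx]
        simp only [Pi.smul_apply, smul_eq_mul]
        ring } C (fun f => ?_), fun f => ?_⟩
  · show ‖(MUL_memLp hχ f).toLp _‖ ≤ C * ‖f‖
    refine Lp.norm_le_mul_norm_of_ae_le_mul ?_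
    filter_upwards [(MUL_memLp hχ f).coeFn_toLp] with x hx
    rw [hx, norm_mul]
    exact mul_le_mul_of_nonneg_right (hC x) (norm_nonneg _)
  · exact (MUL_memLp hχ f).coeFn_toLp

open Classical in
/-- multiplication operator -/
noncomputable def mu {n : ℕ} (χ : Eu n → ℝ) : H n →L[ℝ] H n :=
  if h : CCS χ then (exists_mu χ h).choose else 0

theorem mu_ae {n : ℕ} {χ : Eu n → ℝ} (hχ : CCS χ) (f : H n) :
    (mu χ f : Eu n → ℝ) =ᵐ[volume] fun x => χ x * f x := by
  rw [mu, dif_pos hχ]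
  exact (exists_mu χ hχ).choose_spec f

theorem CVO_mp {n : ℕ} (z : Eu n) :
    MeasurePreserving (fun x : Eu n => x + z) volume volume :=
  measurePreserving_add_right volume z

/-- translation -/
noncomputable def CVO_tr {n : ℕ} (z : Eu n) : H n →ₗᵢ[ℝ] H n :=
  Lp.compMeasurePreservingₗᵢ ℝ (fun x : Eu n => x + z) (CVO_mp z)

theorem CVO_tr_ae {n : ℕ} (z : Eu n) (f : H n) :
    (CVO_tr z f : Eu n → ℝ) =ᵐ[volume] fun x => (f : Eu n → ℝ) (x + z) :=
  Lp.coeFn_compMeasurePreserving f (CVO_mp z)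

theorem CVO_tr_cont {n : ℕ} (f : H n) : Continuous (fun z : Eu n => CVO_tr z f) := by
  rw [continuous_iff_continuousAt]
  intro z0
  have hc : Continuous (fun z : Eu n => (⟨fun x : Eu n => x + z, by fun_prop⟩ : C(Eu n, Eu n))) := by
    apply ContinuousMap.continuous_of_continuous_uncurry
    show Continuous (fun p : Eu n × Eu n => p.2 + p.1)
    fun_prop
  exact Filter.Tendsto.compMeasurePreservingLp (μ := volume) (ν := volume) (p := 2)
    (f := fun _ : Eu n => f)
    (g := fun z : Eu n => (⟨fun x : Eu n => x + z, by fun_prop⟩ : C(Eu n, Eu n)))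
    tendsto_const_nhds (hc.tendsto z0) (fun z => CVO_mp z) (CVO_mp z0) (by norm_num)

theorem CVO_integrable {n : ℕ} (k : Eu n → ℝ) (hk : Integrable k) (f : H n) :
    Integrable (fun z => k z • CVO_tr z f) := by
  refine (hk.norm.mul_const ‖f‖).mono' (hk.1.smul (CVO_tr_cont f).aestronglyMeasurable) ?_
  filter_upwards with z
  rw [norm_smul, LinearIsometry.norm_map]

/-- the operator -/
noncomputable def CVO_T {n : ℕ} (k : Eu n → ℝ) (hk : Integrable k) : H n →L[ℝ] H n :=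
  LinearMap.mkContinuous
    { toFun := fun f => ∫ z, k z • CVO_tr z f
      map_add' := fun f g => by
        rw [← integral_add (CVO_integrable k hk f) (CVO_integrable k hk g)]
        congr 1
        ext1 z
        rw [map_add, smul_add]
      map_smul' := fun c f => by
        rw [RingHom.id_apply, ← integral_smul]
        congr 1
        ext1 z
        rw [map_smul, smul_comm] } (∫ x, |k x|) (fun f => by
    show ‖∫ z, k z • CVO_tr z f‖ ≤ _
    refine (norm_integral_le_integral_norm _).trans (le_of_eq ?_)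
    rw [← integral_mul_const]
    congr 1
    ext1 z
    rw [norm_smul, LinearIsometry.norm_map, Real.norm_eq_abs])

theorem CVO_memLp {n : ℕ} {φ : Eu n → ℝ} (hφ : CCS φ) : MemLp φ 2 volume :=
  hφ.1.memLp_of_hasCompactSupport hφ.2

theorem CVO_inner {n : ℕ} {φ : Eu n → ℝ} (hφ : MemLp φ 2 volume) (f : H n) :
    inner ℝ (hφ.toLp φ) f = ∫ x, (f : Eu n → ℝ) x * φ x := by
  rw [L2.inner_def]
  apply integral_congr_ae
  filter_upwards [hφ.coeFn_toLp] with x hx
  rw [hx]
  simp [mul_comm]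

theorem CVO_inner_tr {n : ℕ} {φ : Eu n → ℝ} (hφ : CCS φ) (f : H n) (z : Eu n) :
    inner ℝ ((CVO_memLp hφ).toLp φ) (CVO_tr z f) = ∫ x, (f : Eu n → ℝ) x * φ (x - z) := by
  rw [CVO_inner]
  rw [← integral_add_right_eq_self (μ := volume) (fun x => (f : Eu n → ℝ) x * φ (x - z)) z]
  apply integral_congr_ae
  filter_upwards [CVO_tr_ae z f] with x hx
  rw [hx, add_sub_cancel_right]

theorem CVO_fub {n : ℕ} (k : Eu n → ℝ) (hk : Integrable k) (f : H n) {φ : Eu n → ℝ}
    (hφ : CCS φ) :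
    Integrable (fun p : Eu n × Eu n => k p.1 * ((f : Eu n → ℝ) p.2 * φ (p.2 - p.1)))
      (volume.prod volume) := by
  have hm : AEStronglyMeasurable
      (fun p : Eu n × Eu n => k p.1 * ((f : Eu n → ℝ) p.2 * φ (p.2 - p.1)))
      (volume.prod volume) := by
    refine (hk.1.comp_fst).mul (((Lp.aestronglyMeasurable f).comp_snd).mul ?_)
    exact (hφ.1.comp (continuous_snd.sub continuous_fst)).aestronglyMeasurable
  have hLp : ∀ z : Eu n, MemLp (fun x => φ (x - z)) 2 volume := fun z =>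
    (CVO_memLp hφ).comp_measurePreserving (measurePreserving_sub_right volume z)
  have hint : ∀ z : Eu n, Integrable (fun x => (f : Eu n → ℝ) x * φ (x - z)) := fun z =>
    (Lp.memLp f).integrable_mul (hLp z)
  rw [integrable_prod_iff hm]
  refine ⟨Filter.Eventually.of_forall fun z => (hint z).const_mul (k z), ?_⟩
  refine (hk.norm.mul_const (‖f‖ * ‖(CVO_memLp hφ).toLp φ‖)).mono'
    (hm.norm.integral_prod_right') ?_
  filter_upwards with z
  have h1 : ∀ x, ‖k z * ((f : Eu n → ℝ) x * φ (x - z))‖ = ‖k z‖ * ‖(f : Eu n → ℝ) x * φ (x - z)‖ :=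
    fun x => norm_mul _ _
  simp only [h1]
  rw [integral_const_mul, norm_mul, norm_norm]
  refine mul_le_mul_of_nonneg_left ?_ (norm_nonneg _)
  have hle : ∫ x, ‖(f : Eu n → ℝ) x * φ (x - z)‖ ≤ ‖f‖ * ‖(hLp z).toLp _‖ := by
    have h2 : MemLp (fun x => ‖(f : Eu n → ℝ) x‖) 2 volume := (Lp.memLp f).norm
    have h3 : MemLp (fun x => ‖φ (x - z)‖) 2 volume := (hLp z).norm
    have h4 := real_inner_le_norm (h3.toLp _) (h2.toLp _)
    rw [CVO_inner h3] at h4
    have h5 : ‖h3.toLp _‖ = ‖(hLp z).toLp _‖ := by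
      rw [Lp.norm_toLp, Lp.norm_toLp, eLpNorm_norm]
    have h6 : ‖h2.toLp _‖ = ‖f‖ := by
      rw [Lp.norm_toLp, Lp.norm_def, eLpNorm_norm]
    rw [h5, h6, mul_comm] at h4
    refine le_trans (le_of_eq ?_) h4
    apply integral_congr_ae
    filter_upwards [h2.coeFn_toLp] with x hx
    rw [hx, norm_mul]
  rw [Real.norm_of_nonneg (integral_nonneg fun x => norm_nonneg _)]
  refine hle.trans (le_of_eq ?_)
  congr 1
  rw [Lp.norm_toLp, Lp.norm_toLp]
  congr 1
  exact eLpNorm_comp_measurePreserving (CVO_memLp hφ).1 (measurePreserving_sub_right volume z)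

theorem exists_cv {n : ℕ} (k : Eu n → ℝ) (hk : Integrable k) :
    ∃ T : H n →L[ℝ] H n, (∀ (f : H n) (φ : Eu n → ℝ), CCS φ →
      ∫ x, (T f : Eu n → ℝ) x * φ x = ∫ x, f x * cc k φ x) ∧ ‖T‖ ≤ ∫ x, |k x| := by
  refine ⟨CVO_T k hk, fun f φ hφ => ?_, LinearMap.mkContinuous_norm_le _
    (integral_nonneg fun x => abs_nonneg _) _⟩
  rw [← CVO_inner (CVO_memLp hφ)]
  have h1 : CVO_T k hk f = ∫ z, k z • CVO_tr z f := rfl
  rw [h1, ← integral_inner (CVO_integrable k hk f)]
  have h2 : ∀ z, inner ℝ ((CVO_memLp hφ).toLp φ) (k z • CVO_tr z f)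
      = ∫ x, k z * ((f : Eu n → ℝ) x * φ (x - z)) := by
    intro z
    rw [inner_smul_right, CVO_inner_tr hφ, integral_const_mul]
  simp only [h2]
  rw [integral_integral_swap (CVO_fub k hk f hφ)]
  congr 1
  ext1 x
  rw [cc, ← integral_const_mul]
  congr 1
  ext1 z
  ring

open Classical in
/-- correlation operator with kernel `k` -/
noncomputable def cv {n : ℕ} (k : Eu n → ℝ) : H n →L[ℝ] H n :=
  if h : Integrable k then (exists_cv k h).choose else 0

theorem cv_spec {n : ℕ} {k : Eu n → ℝ} (hk : Integrable k) (f : H n) {φ : Eu n → ℝ}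
    (hφ : CCS φ) : ∫ x, (cv k f : Eu n → ℝ) x * φ x = ∫ x, f x * cc k φ x := by
  rw [cv, dif_pos hk]
  exact (exists_cv k hk).choose_spec.1 f φ hφ

theorem cv_norm {n : ℕ} {k : Eu n → ℝ} (hk : Integrable k) : ‖cv k‖ ≤ ∫ x, |k x| := by
  rw [cv, dif_pos hk]
  exact (exists_cv k hk).choose_spec.2

/-- the kernel `∫_0^1 t^{-n} g(z/t) dt` -/
noncomputable def KK {n : ℕ} (g : Eu n → ℝ) (z : Eu n) : ℝ :=
  ∫ t in Set.Ioo (0 : ℝ) 1, (t ^ n)⁻¹ * g (t⁻¹ • z)

/-- the components of the homotopy kernel -/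
noncomputable def kap {n : ℕ} (ρ : Eu n → ℝ) (a : Fin n) : Eu n → ℝ :=
  KK (fun v => - (v a * ρ v))

/-- multiplication of forms by a function -/
noncomputable def muF {n : ℕ} (χ : Eu n → ℝ) : FH n →L[ℝ] FH n :=
  ContinuousLinearMap.pi (fun S => (mu χ).comp (ContinuousLinearMap.proj S))

/-- `w ↦ dχ ∧ w` -/
noncomputable def wdF {n : ℕ} (χ : Eu n → ℝ) : FH n →L[ℝ] FH n :=
  ContinuousLinearMap.pi (fun S => ∑ i ∈ S, sg i S •
    (mu (pd i χ)).comp (ContinuousLinearMap.proj (S.erase i)))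

/-- the smoothing operator on forms -/
noncomputable def SF {n : ℕ} (ρ : Eu n → ℝ) : FH n →L[ℝ] FH n :=
  ContinuousLinearMap.pi (fun S => (cv ρ).comp (ContinuousLinearMap.proj S))

/-- the homotopy operator on forms -/
noncomputable def TF {n : ℕ} (ρ : Eu n → ℝ) : FH n →L[ℝ] FH n :=
  ContinuousLinearMap.pi (fun S => ∑ a ∈ Sᶜ, sg a (insert a S) •
    (cv (kap ρ a)).comp (ContinuousLinearMap.proj (insert a S)))

theorem muF_apply {n : ℕ} (χ : Eu n → ℝ) (w : FH n) (S : Finset (Fin n)) :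
    muF χ w S = mu χ (w S) := rfl

theorem wdF_apply {n : ℕ} (χ : Eu n → ℝ) (w : FH n) (S : Finset (Fin n)) :
    wdF χ w S = ∑ i ∈ S, sg i S • mu (pd i χ) (w (S.erase i)) := by
  simp [wdF]

theorem SF_apply {n : ℕ} (ρ : Eu n → ℝ) (w : FH n) (S : Finset (Fin n)) :
    SF ρ w S = cv ρ (w S) := rfl

theorem TF_apply {n : ℕ} (ρ : Eu n → ℝ) (w : FH n) (S : Finset (Fin n)) :
    TF ρ w S = ∑ a ∈ Sᶜ, sg a (insert a S) • cv (kap ρ a) (w (insert a S)) := by
  simp [TF]

/-- the global homotopy operator -/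
noncomputable def Tt {n : ℕ} {Ω : Set (Eu n)} {N : ℕ} (P : Fin N → Patch Ω) :
    FH n →L[ℝ] FH n :=
  ∑ i, (muF (P i).ψ).comp ((TF (P i).ρ).comp (muF (P i).χ))

/-- the global smoothing operator -/
noncomputable def Kt {n : ℕ} {Ω : Set (Eu n)} {N : ℕ} (P : Fin N → Patch Ω) :
    FH n →L[ℝ] FH n :=
  ∑ i, ((muF (P i).ψ).comp ((SF (P i).ρ).comp (muF (P i).χ)) +
    (muF (P i).ψ).comp ((TF (P i).ρ).comp (wdF (P i).χ)) -
    (wdF (P i).ψ).comp ((TF (P i).ρ).comp (muF (P i).χ)))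

end Pool.Agent.CochExt
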