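import Pool.Agent.CochExt.Clr
import Pool.Agent.CochExt.Br

set_option autoImplicit false

/-! # Module ORT: orthogonality.
Work in `PiLp 2 (fun _ : Finset (Fin n) => LL Ω)` (inner product `∑_S ⟪·,·⟫`).  `R` = exact forms, a closed subspace (preimage of the set in `closed_range`
under zero extension, `WDF_zx`).  `ort1`: `z = r + h` with `r ∈ R`, `h ∈ R^⊥` closed; the degree `k` part of `h` is harmonic
(`WDH_deg`), so `0 = ⟪z, h_k⟫ = ⟪z, h⟫ = ‖h‖²`; take the degree `k - 1` part of the potential.  `ort2`: projection onto the closed subspace of harmonic forms. -/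

open MeasureTheory TopologicalSpace
open scoped ContDiff

namespace Pool.Agent.CochExt

variable {n : ℕ}

/-- the Hilbert space of forms on `Ω` -/
noncomputable abbrev OrtE {n : ℕ} (Ω : Set (Eu n)) := PiLp 2 (fun _ : Finset (Fin n) => LL Ω)

/-- weak exterior derivative for families in `LL Ω` -/
def OrtW {Ω : Set (Eu n)} (w u : Finset (Fin n) → LL Ω) : Prop :=
  WDF Ω (fun S => (w S : Eu n → ℝ)) (fun S => (u S : Eu n → ℝ))

theorem ortW_iff {Ω : Set (Eu n)} (hΩ : IsOpen Ω) (w u : Finset (Fin n) → LL Ω) :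
    OrtW w u ↔ WDH Ω (fun S => zx Ω (w S)) (fun S => zx Ω (u S)) :=
  (WDF_zx hΩ.measurableSet w u).symm

theorem ortW_add {Ω : Set (Eu n)} (hΩ : IsOpen Ω) {w w' u u' : Finset (Fin n) → LL Ω}
    (h : OrtW w u) (h' : OrtW w' u') : OrtW (w + w') (u + u') := by
  rw [ortW_iff hΩ] at h h' ⊢
  have := WDH_add h h'
  convert this using 1 <;> (funext S; simp [map_add])

theorem ortW_smul {Ω : Set (Eu n)} (hΩ : IsOpen Ω) {w u : Finset (Fin n) → LL Ω} (c : ℝ)
    (h : OrtW w u) : OrtW (c • w) (c • u) := by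
  rw [ortW_iff hΩ] at h ⊢
  have := WDH_smul c h
  convert this using 1 <;> (funext S; simp [map_smul])

theorem ortW_zero {Ω : Set (Eu n)} (hΩ : IsOpen Ω) :
    OrtW (0 : Finset (Fin n) → LL Ω) 0 := by
  rw [ortW_iff hΩ]
  convert WDH_zero Ω using 1 <;> (funext S; simp)

/-- degree `k` part -/
noncomputable def ortDg {Ω : Set (Eu n)} (k : ℕ) (w : Finset (Fin n) → LL Ω) :
    Finset (Fin n) → LL Ω := fun S => if S.card = k then w S else 0

theorem ortW_deg {Ω : Set (Eu n)} (hΩ : IsOpen Ω) (k : ℕ) {w u : Finset (Fin n) → LL Ω}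
    (h : OrtW w u) : OrtW (ortDg k w) (ortDg (k + 1) u) := by
  rw [ortW_iff hΩ] at h ⊢
  have := WDH_deg k h
  convert this using 1
  · funext S
    simp only [ortDg, dg]
    split_ifs <;> simp
  · funext S
    simp only [ortDg, dg]
    split_ifs <;> simp

theorem ortW_unique {Ω : Set (Eu n)} (hΩ : IsOpen Ω) {w u u' : Finset (Fin n) → LL Ω}
    (h : OrtW w u) (h' : OrtW w u') : u = u' := by
  rw [ortW_iff hΩ] at h h'
  funext S
  have h1 := WDH_unique hΩ h h' S
  rw [ll_eq_iff]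
  exact ((zx_ae hΩ.measurableSet (u S)).symm.trans h1).trans (zx_ae hΩ.measurableSet (u' S))

theorem ortW_dd {Ω : Set (Eu n)} (hΩ : IsOpen Ω) {w u : Finset (Fin n) → LL Ω}
    (h : OrtW w u) : OrtW u 0 := by
  rw [ortW_iff hΩ] at h ⊢
  have := WDH_dd h
  convert this using 1
  funext S; simp

/-- zero extension of a form -/
theorem ortZ_cont (Ω : Set (Eu n)) :
    Continuous (fun x : OrtE Ω => (fun S => zx Ω (x S) : FH n)) := by
  refine continuous_pi (fun S => (zx Ω).continuous.comp ?_)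
  exact (PiLp.continuous_apply 2 (fun _ : Finset (Fin n) => LL Ω) S)

/-- exact forms -/
noncomputable def ortR {Ω : Set (Eu n)} (hΩ : IsOpen Ω) : Submodule ℝ (OrtE Ω) where
  carrier := {x | ∃ y : Finset (Fin n) → LL Ω, OrtW y (fun S => x S)}
  zero_mem' := ⟨0, ortW_zero hΩ⟩
  add_mem' := by
    rintro a b ⟨y, hy⟩ ⟨y', hy'⟩
    exact ⟨y + y', ortW_add hΩ hy hy'⟩
  smul_mem' := by
    rintro c a ⟨y, hy⟩
    exact ⟨c • y, ortW_smul hΩ c hy⟩

theorem ortR_closed {Ω : Set (Eu n)} (hΩ : IsOpen Ω) {N : ℕ} (P : Fin N → Patch Ω)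
    (hP : ∀ x ∈ Ω, ∑ i, (P i).χ x = 1) : IsClosed (ortR hΩ : Set (OrtE Ω)) := by
  have h1 := (closed_range hΩ P hP).preimage (ortZ_cont Ω)
  convert h1 using 1
  ext x
  constructor
  · rintro ⟨y, hy⟩
    exact ⟨fun S => zx Ω (y S), (ortW_iff hΩ _ _).mp hy⟩
  · rintro ⟨w, hw⟩
    refine ⟨fun S => rs Ω (w S), ?_⟩
    have h2 := (WDF_rs hΩ.measurableSet w (fun S => zx Ω (x S))).mpr hw
    simp only [rs_zx hΩ.measurableSet] at h2
    exact h2

/-- the zero form as a raw family -/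
theorem ortW_of_raw {Ω : Set (Eu n)} (hΩ : IsOpen Ω) {w : Finset (Fin n) → LL Ω} :
    WDF Ω (fun S => (w S : Eu n → ℝ)) (fun _ _ => 0) ↔ OrtW w 0 := by
  have key : ∀ S : Finset (Fin n), ((0 : Finset (Fin n) → LL Ω) S : Eu n → ℝ)
      =ᵐ[volume.restrict Ω] (fun _ => 0) := fun S => Lp.coeFn_zero ℝ 2 _
  constructor
  · intro h
    exact WDF_congr hΩ.measurableSet (fun S => Filter.EventuallyEq.rfl)
      (fun S => (key S).symm) h
  · intro h
    exact WDF_congr hΩ.measurableSet (fun S => Filter.EventuallyEq.rfl)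
      (fun S => key S) h

theorem ort_inner_dg {Ω : Set (Eu n)} (k : ℕ) (a b : Finset (Fin n) → LL Ω) :
    ∑ S, inner ℝ (ortDg k a S) (b S) = ∑ S, inner ℝ (a S) (ortDg k b S) := by
  refine Finset.sum_congr rfl (fun S _ => ?_)
  simp only [ortDg]
  split_ifs <;> simp

/-- the part of degree `k` of `ζ` is exact if `η` is of degree `k - 1` and `ζ = dη` -/
theorem ort_exact_dg {Ω : Set (Eu n)} (hΩ : IsOpen Ω) (k : ℕ) {η ζ : Finset (Fin n) → LL Ω}
    (h : OrtW η ζ) : ∃ y, (∀ S : Finset (Fin n), S.card + 1 ≠ k → y S = 0) ∧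
      OrtW y (ortDg k ζ) := by
  rcases k with _ | k
  · refine ⟨0, fun _ _ => rfl, ?_⟩
    have h1 : ortDg 0 ζ = 0 := by
      -- the degree zero part of an exact form vanishes
      have h2 := (ortW_iff hΩ _ _).mp h
      funext S
      simp only [ortDg]
      split_ifs with hS
      · rw [Finset.card_eq_zero] at hS
        subst hS
        have h3 : (zx Ω (ζ ∅) : Eu n → ℝ) =ᵐ[volume.restrict Ω] ((0 : H n) : Eu n → ℝ) := by
          refine ae_eq_of_test hΩ _ _ (fun φ hφ => ?_)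
          have h4 := h2 φ hφ ∅
          simp only [Finset.sum_empty] at h4
          have h5 : ∫ x, ((0 : H n) : Eu n → ℝ) x * φ x = 0 := by
            have : (fun x => ((0 : H n) : Eu n → ℝ) x * φ x) =ᵐ[volume] fun _ => 0 := by
              filter_upwards [Lp.coeFn_zero ℝ 2 (volume : Measure (Eu n))] with x hx
              rw [hx]; simp
            rw [integral_congr_ae this]; simp
          rw [h5]
          linarith
        rw [Pi.zero_apply, ll_eq_iff]
        refine ((zx_ae hΩ.measurableSet (ζ ∅)).symm.trans h3).trans ?_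
        have e1 : ((0 : H n) : Eu n → ℝ) =ᵐ[volume.restrict Ω] (0 : Eu n → ℝ) :=
          ae_restrict_of_ae (Lp.coeFn_zero ℝ 2 (volume : Measure (Eu n)))
        exact e1.trans (Lp.coeFn_zero ℝ 2 ((volume : Measure (Eu n)).restrict Ω)).symm
      · rfl
    rw [h1]
    exact ortW_zero hΩ
  · refine ⟨ortDg k η, fun S hS => ?_, ortW_deg hΩ k h⟩
    simp only [ortDg]
    rw [if_neg (fun h => hS (by rw [h]))]

theorem ort1 {Ω : Set (Eu n)} (hΩ : IsOpen Ω) {N : ℕ} (P : Fin N → Patch Ω)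
    (hP : ∀ x ∈ Ω, ∑ i, (P i).χ x = 1) (k : ℕ) (z : Finset (Fin n) → LL Ω)
    (hdeg : ∀ S : Finset (Fin n), S.card ≠ k → z S = 0)
    (hz : WDF Ω (fun S => (z S : Eu n → ℝ)) (fun _ _ => 0))
    (hh : ∀ h : Finset (Fin n) → LL Ω, IsHarm k Ω h → ∑ S, inner ℝ (z S) (h S) = 0) :
    ∃ y : Finset (Fin n) → LL Ω, (∀ S : Finset (Fin n), S.card + 1 ≠ k → y S = 0) ∧
      WDF Ω (fun S => (y S : Eu n → ℝ)) (fun S => (z S : Eu n → ℝ)) := by
  have hz0 : OrtW z 0 := (ortW_of_raw hΩ).mp hz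
  have hzdg : ortDg k z = z := by
    funext S
    simp only [ortDg]
    split_ifs with hS
    · rfl
    · exact (hdeg S hS).symm
  have hcl := ortR_closed hΩ P hP
  have : CompleteSpace (ortR hΩ) := hcl.completeSpace_coe
  set z' : OrtE Ω := WithLp.toLp 2 z with hz'
  obtain ⟨r, hr, h, hh', hrh⟩ := (ortR hΩ).exists_add_mem_mem_orthogonal z'
  obtain ⟨y0, hy0⟩ := hr
  -- `h` is closed
  have hhc : OrtW (fun S => h S) 0 := by
    have e1 : OrtW (fun S => r S) 0 := ortW_dd hΩ hy0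
    have e2 := ortW_add hΩ hz0 (ortW_smul hΩ (-1) e1)
    have e3 : (z + (-1 : ℝ) • (fun S => r S) : Finset (Fin n) → LL Ω) = fun S => h S := by
      funext S
      have : z S = r S + h S := by
        have := congrArg (fun x : OrtE Ω => x S) hrh
        simpa [hz'] using this
      simp [this]
    rw [e3] at e2
    simpa using e2
  -- orthogonality to exact forms
  have horth : ∀ ζ : Finset (Fin n) → LL Ω, (∃ y, OrtW y ζ) → ∑ S, inner ℝ (h S) (ζ S) = 0 := by
    rintro ζ ⟨y, hy⟩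
    have h1 : (WithLp.toLp 2 ζ : OrtE Ω) ∈ ortR hΩ := ⟨y, hy⟩
    have h2 := (Submodule.mem_orthogonal' _ _).mp hh' _ h1
    rw [PiLp.inner_apply] at h2
    exact h2
  have hharm : IsHarm k Ω (ortDg k (fun S => h S)) := by
    refine ⟨fun S hS => ?_, ?_, fun η ζ hη hηζ => ?_⟩
    · simp only [ortDg]; rw [if_neg hS]
    · rw [ortW_of_raw hΩ]
      have e1 := ortW_deg hΩ k hhc
      have e2 : ortDg (k + 1) (0 : Finset (Fin n) → LL Ω) = 0 := by
        funext S; simp [ortDg]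
      rwa [e2] at e1
    · rw [ort_inner_dg]
      obtain ⟨y, _, hy⟩ := ort_exact_dg hΩ k (η := η) (ζ := ζ) hηζ
      exact horth _ ⟨y, hy⟩
  have h0 : ∑ S, inner ℝ (z S) (h S) = 0 := by
    have e1 := hh _ hharm
    rw [← ort_inner_dg, hzdg] at e1
    exact e1
  have hnorm : h = 0 := by
    have e1 : inner ℝ z' h = 0 := by
      rw [PiLp.inner_apply]; exact h0
    rw [hrh, inner_add_left] at e1
    have e2 : inner ℝ r h = 0 := (Submodule.mem_orthogonal _ _).mp hh' r ⟨y0, hy0⟩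
    rw [e2, zero_add] at e1
    exact inner_self_eq_zero.mp e1
  have hzr : OrtW y0 z := by
    have : (fun S => r S) = z := by
      funext S
      have := congrArg (fun x : OrtE Ω => x S) hrh
      simp [hz', hnorm] at this
      exact this.symm
    rw [← this]; exact hy0
  obtain ⟨y, hy1, hy2⟩ := ort_exact_dg hΩ k hzr
  rw [hzdg] at hy2
  exact ⟨y, hy1, hy2⟩

/-- harmonic forms as a submodule -/
noncomputable def ortHarm {Ω : Set (Eu n)} (hΩ : IsOpen Ω) (k : ℕ) : Submodule ℝ (OrtE Ω) where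
  carrier := {x | IsHarm k Ω (fun S => x S)}
  zero_mem' := by
    refine ⟨fun S _ => rfl, ?_, fun η ζ _ _ => ?_⟩
    · rw [ortW_of_raw hΩ]; exact ortW_zero hΩ
    · refine Finset.sum_eq_zero (fun S _ => ?_)
      exact inner_zero_left _
  add_mem' := by
    rintro a b ⟨a1, a2, a3⟩ ⟨b1, b2, b3⟩
    refine ⟨fun S hS => ?_, ?_, fun η ζ h1 h2 => ?_⟩
    · show a S + b S = 0
      have e1 : a S = 0 := a1 S hS
      have e2 : b S = 0 := b1 S hS
      rw [e1, e2, add_zero]
    · rw [ortW_of_raw hΩ] at a2 b2 ⊢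
      have := ortW_add hΩ a2 b2
      rw [add_zero] at this
      exact this
    · have e1 := a3 η ζ h1 h2
      have e2 := b3 η ζ h1 h2
      calc ∑ S, inner ℝ ((a + b) S) (ζ S) = ∑ S, (inner ℝ (a S) (ζ S) + inner ℝ (b S) (ζ S)) :=
            Finset.sum_congr rfl (fun S _ => inner_add_left _ _ _)
        _ = 0 := by rw [Finset.sum_add_distrib, e1, e2, add_zero]
  smul_mem' := by
    rintro c a ⟨a1, a2, a3⟩
    refine ⟨fun S hS => ?_, ?_, fun η ζ h1 h2 => ?_⟩
    · show c • a S = 0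
      have e1 : a S = 0 := a1 S hS
      rw [e1, smul_zero]
    · rw [ortW_of_raw hΩ] at a2 ⊢
      have := ortW_smul hΩ c a2
      rw [smul_zero] at this
      exact this
    · have e1 := a3 η ζ h1 h2
      calc ∑ S, inner ℝ ((c • a) S) (ζ S) = ∑ S, c * inner ℝ (a S) (ζ S) :=
            Finset.sum_congr rfl (fun S _ => real_inner_smul_left _ _ _)
        _ = 0 := by rw [← Finset.mul_sum, e1, mul_zero]

theorem ortHarm_closed {Ω : Set (Eu n)} (hΩ : IsOpen Ω) (k : ℕ) :
    IsClosed (ortHarm hΩ k : Set (OrtE Ω)) := by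
  have hco : ∀ S : Finset (Fin n), Continuous (fun x : OrtE Ω => x S) := fun S =>
    PiLp.continuous_apply 2 (fun _ : Finset (Fin n) => LL Ω) S
  have e : (ortHarm hΩ k : Set (OrtE Ω)) =
      (⋂ S : Finset (Fin n), ⋂ _ : S.card ≠ k, {x : OrtE Ω | x S = 0}) ∩
      ({x : OrtE Ω | WDH Ω (fun S => zx Ω (x S)) 0} ∩
      ⋂ η : Finset (Fin n) → LL Ω, ⋂ ζ : Finset (Fin n) → LL Ω,
        ⋂ _ : ∀ S : Finset (Fin n), S.card + 1 ≠ k → η S = 0,
        ⋂ _ : WDF Ω (fun S => (η S : Eu n → ℝ)) (fun S => (ζ S : Eu n → ℝ)),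
          {x : OrtE Ω | ∑ S, inner ℝ (x S) (ζ S) = 0}) := by
    ext x
    have h1 : WDF Ω (fun S => (x S : Eu n → ℝ)) (fun _ _ => 0) ↔
        WDH Ω (fun S => zx Ω (x S)) 0 := by
      rw [ortW_of_raw hΩ, ortW_iff hΩ]
      have : (fun S : Finset (Fin n) => zx Ω ((0 : Finset (Fin n) → LL Ω) S)) = 0 := by
        funext S; simp
      rw [this]
    simp only [ortHarm, Set.mem_inter_iff, Set.mem_iInter, Set.mem_ofPred_eq]
    constructor
    · rintro ⟨a1, a2, a3⟩
      exact ⟨a1, h1.mp a2, a3⟩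
    · rintro ⟨a1, a2, a3⟩
      exact ⟨a1, h1.mpr a2, a3⟩
  rw [e]
  refine IsClosed.inter ?_ (IsClosed.inter ?_ ?_)
  · exact isClosed_iInter (fun S => isClosed_iInter (fun _ => isClosed_eq (hco S) continuous_const))
  · have := (WDH_closed (n := n) Ω).preimage
      ((ortZ_cont Ω).prodMk (continuous_const (y := (0 : FH n))))
    exact this
  · refine isClosed_iInter (fun η => isClosed_iInter (fun ζ => isClosed_iInter (fun _ =>
      isClosed_iInter (fun _ => isClosed_eq ?_ continuous_const))))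
    exact continuous_finsetSum _ (fun S _ => (hco S).inner continuous_const)

theorem ort2 {Ω : Set (Eu n)} (hΩ : IsOpen Ω) (k : ℕ) (y : Finset (Fin n) → LL Ω) :
    ∃ h : Finset (Fin n) → LL Ω, IsHarm k Ω h ∧ ∀ h' : Finset (Fin n) → LL Ω, IsHarm k Ω h' →
      ∑ S, inner ℝ (y S - h S) (h' S) = 0 := by
  have : CompleteSpace (ortHarm hΩ k) := (ortHarm_closed hΩ k).completeSpace_coe
  obtain ⟨h, hh, g, hg, e⟩ := (ortHarm hΩ k).exists_add_mem_mem_orthogonal
    (WithLp.toLp 2 y : OrtE Ω)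
  refine ⟨fun S => h S, hh, fun h' hh' => ?_⟩
  have h1 : (WithLp.toLp 2 h' : OrtE Ω) ∈ ortHarm hΩ k := hh'
  have h2 := (Submodule.mem_orthogonal' _ _).mp hg _ h1
  rw [PiLp.inner_apply] at h2
  have e2 : ∀ S, y S - h S = g S := by
    intro S
    have := congrArg (fun x : OrtE Ω => x S) e
    simp at this
    rw [this]; abel
  calc ∑ S, inner ℝ (y S - h S) (h' S) = ∑ S, inner ℝ (g S) (h' S) :=
        Finset.sum_congr rfl (fun S _ => by rw [e2 S])
    _ = 0 := h2

end Pool.Agent.CochExt
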