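import Pool.Agent.CochExt.Hom
import Pool.Agent.CochExt.Reg

set_option autoImplicit false

/-! # Module PAR: the global parametrix.
For each patch: `WDH_cut` from `Ω` to `D` with `χ`, `hom` on `D`, `WDH_cut` from `D` to `Ω` with `ψ`;
`muF ψ (muF χ w) = muF χ w`; sum; `∑ muF χ_i w = w` a.e. on `Ω` (`WDF_congr`). -/

open MeasureTheory
open scoped ContDiff

namespace Pool.Agent.CochExt

variable {n : ℕ}

theorem PAR_tsupport {Ω : Set (Eu n)} (P : Patch Ω) : tsupport P.χ ⊆ tsupport P.ψ := by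
  apply closure_mono
  intro x hx
  rw [Function.mem_support] at hx ⊢
  intro h0
  apply hx
  rw [← P.hψχ x, h0, zero_mul]

theorem PAR_agχ {Ω : Set (Eu n)} (P : Patch Ω) : ∀ x ∈ tsupport P.χ, x ∈ P.D → x ∈ Ω :=
  fun x hx hD => (P.hagree x (PAR_tsupport P hx)).1 hD

theorem PAR_agψ {Ω : Set (Eu n)} (P : Patch Ω) : ∀ x ∈ tsupport P.ψ, x ∈ Ω → x ∈ P.D :=
  fun x hx hO => (P.hagree x hx).2 hO

theorem PAR_test {Ω : Set (Eu n)} (P : Patch Ω) : Test Set.univ P.ρ :=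
  ⟨P.hρ, P.hρc, Set.subset_univ _⟩

theorem PAR_sum_ae {ι : Type} (s : Finset ι) (f : ι → H n) :
    ((∑ i ∈ s, f i : H n) : Eu n → ℝ) =ᵐ[volume] fun x => ∑ i ∈ s, (f i : Eu n → ℝ) x := by
  classical
  induction s using Finset.induction_on with
  | empty =>
    simp only [Finset.sum_empty]
    filter_upwards [Lp.coeFn_zero ℝ 2 (volume : Measure (Eu n))] with x hx
    rw [hx]; rfl
  | insert a s ha ih =>
    rw [Finset.sum_insert ha]
    filter_upwards [Lp.coeFn_add (f a) (∑ i ∈ s, f i), ih] with x hx hx'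
    rw [hx, Pi.add_apply, hx', Finset.sum_insert ha]

/-- the partition of unity -/
theorem PAR_unit {Ω : Set (Eu n)} {N : ℕ} (P : Fin N → Patch Ω)
    (hP : ∀ x ∈ Ω, ∑ i, (P i).χ x = 1) (hΩ : MeasurableSet Ω) (w : FH n) (S : Finset (Fin n)) :
    (((∑ i, muF (P i).ψ (muF (P i).χ w)) S : H n) : Eu n → ℝ) =ᵐ[volume.restrict Ω] w S := by
  have e : (∑ i, muF (P i).ψ (muF (P i).χ w)) S = ∑ i, mu (P i).ψ (mu (P i).χ (w S)) := by
    rw [Finset.sum_apply]; rfl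
  rw [e]
  have h1 := PAR_sum_ae Finset.univ (fun i => mu (P i).ψ (mu (P i).χ (w S)))
  have h2 : ∀ᵐ x ∂(volume : Measure (Eu n)), ∀ i, (mu (P i).ψ (mu (P i).χ (w S)) : Eu n → ℝ) x =
      (P i).χ x * (w S : Eu n → ℝ) x := by
    rw [ae_all_iff]
    intro i
    filter_upwards [mu_ae (ccs_of_smooth (P i).hψ (P i).hψc) (mu (P i).χ (w S)),
      mu_ae (ccs_of_smooth (P i).hχ (P i).hχc) (w S)] with x hx hx'
    rw [hx, hx', ← mul_assoc, (P i).hψχ]
  rw [Filter.EventuallyEq, ae_restrict_iff' hΩ]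
  filter_upwards [h1, h2] with x hx hx' hxO
  rw [hx]
  simp only [hx']
  rw [← Finset.sum_mul, hP x hxO, one_mul]

theorem par {Ω : Set (Eu n)} (hΩ : IsOpen Ω) {N : ℕ} (P : Fin N → Patch Ω)
    (hP : ∀ x ∈ Ω, ∑ i, (P i).χ x = 1) {w u : FH n} (h : WDH Ω w u) :
    WDH Ω (Tt P w) (w - Kt P w - Tt P u) := by
  have h1 : ∀ i, WDH Ω (muF (P i).ψ (TF (P i).ρ (muF (P i).χ w)))
      (muF (P i).ψ (muF (P i).χ w - SF (P i).ρ (muF (P i).χ w) -
        TF (P i).ρ (muF (P i).χ u + wdF (P i).χ w)) +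
        wdF (P i).ψ (TF (P i).ρ (muF (P i).χ w))) := by
    intro i
    have a1 := WDH_cut (P i).hχ (P i).hχc (PAR_agχ (P i)) h
    have a2 := hom (PAR_test (P i)) (P i).hρ1 (P i).hcone a1
    exact WDH_cut (P i).hψ (P i).hψc (PAR_agψ (P i)) a2
  have h2 := WDH_sum h1
  have e1 : ∑ i, muF (P i).ψ (TF (P i).ρ (muF (P i).χ w)) = Tt P w := by
    simp [Tt]
  have e2 : ∑ i, (muF (P i).ψ (muF (P i).χ w - SF (P i).ρ (muF (P i).χ w) -
        TF (P i).ρ (muF (P i).χ u + wdF (P i).χ w)) +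
        wdF (P i).ψ (TF (P i).ρ (muF (P i).χ w))) =
      (∑ i, muF (P i).ψ (muF (P i).χ w)) - Kt P w - Tt P u := by
    simp only [Tt, Kt, ContinuousLinearMap.sum_apply, ContinuousLinearMap.add_apply,
      ContinuousLinearMap.sub_apply, ContinuousLinearMap.comp_apply]
    rw [← Finset.sum_sub_distrib, ← Finset.sum_sub_distrib]
    refine Finset.sum_congr rfl fun i _ => ?_
    simp only [map_sub, map_add]
    abel
  rw [e1, e2] at h2
  refine WDF_congr hΩ.measurableSet (fun S => Filter.EventuallyEq.rfl) (fun S => ?_) h2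
  have h3 := PAR_unit P hP hΩ.measurableSet w S
  have b1 : (((((∑ i, muF (P i).ψ (muF (P i).χ w)) - Kt P w - Tt P u) : FH n) S : H n) :
      Eu n → ℝ) =ᵐ[volume] fun x => (((∑ i, muF (P i).ψ (muF (P i).χ w)) S : H n) : Eu n → ℝ) x -
        (Kt P w S : Eu n → ℝ) x - (Tt P u S : Eu n → ℝ) x := by
    filter_upwards [Lp.coeFn_sub ((((∑ i, muF (P i).ψ (muF (P i).χ w)) - Kt P w : FH n)) S)
      (Tt P u S), Lp.coeFn_sub (((∑ i, muF (P i).ψ (muF (P i).χ w) : FH n)) S) (Kt P w S)]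
      with x hx hx'
    simp only [Pi.sub_apply] at hx hx' ⊢
    rw [hx, hx']
  have b2 : ((((w - Kt P w - Tt P u) : FH n) S : H n) :
      Eu n → ℝ) =ᵐ[volume] fun x => (w S : Eu n → ℝ) x -
        (Kt P w S : Eu n → ℝ) x - (Tt P u S : Eu n → ℝ) x := by
    filter_upwards [Lp.coeFn_sub ((w - Kt P w : FH n) S)
      (Tt P u S), Lp.coeFn_sub (w S) (Kt P w S)] with x hx hx'
    simp only [Pi.sub_apply] at hx hx' ⊢
    rw [hx, hx']
  filter_upwards [ae_restrict_of_ae b1, ae_restrict_of_ae b2, h3] with x c1 c2 c3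
  rw [c1, c2, c3]

theorem SOBF_sum {m N : ℕ} {U : Set (Eu n)} {w : Fin N → FH n} (h : ∀ i, SOBF m U (w i)) :
    SOBF m U (∑ i, w i) := by
  intro S
  rw [Finset.sum_apply]
  exact SOB_sum _ fun i _ => h i S

theorem SOBF_muF {m : ℕ} {U V : Set (Eu n)} {χ : Eu n → ℝ} (hχ : ContDiff ℝ ∞ χ)
    (hc : HasCompactSupport χ) (hag : ∀ x ∈ tsupport χ, x ∈ V → x ∈ U) {w : FH n}
    (h : SOBF m U w) : SOBF m V (muF χ w) := fun S => SOB_cut hχ hc hag (h S)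

theorem Tt_reg (m : ℕ) {Ω : Set (Eu n)} {N : ℕ} (P : Fin N → Patch Ω)
    {w : FH n} (h : SOBF m Ω w) : SOBF (m + 1) Ω (Tt P w) := by
  have e1 : Tt P w = ∑ i, muF (P i).ψ (TF (P i).ρ (muF (P i).χ w)) := by
    simp [Tt]
  rw [e1]
  refine SOBF_sum fun i => ?_
  refine SOBF_muF (P i).hψ (P i).hψc (PAR_agψ (P i)) ?_
  exact SOBF_TF m (PAR_test (P i)) (P i).hcone
    (SOBF_muF (P i).hχ (P i).hχc (PAR_agχ (P i)) h)

theorem Kt_reg (m : ℕ) {Ω : Set (Eu n)} {N : ℕ} (P : Fin N → Patch Ω)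
    {w : FH n} (h : SOBF m Ω w) : SOBF (m + 1) Ω (Kt P w) := by
  have e1 : Kt P w = ∑ i, (muF (P i).ψ (SF (P i).ρ (muF (P i).χ w)) +
      muF (P i).ψ (TF (P i).ρ (wdF (P i).χ w)) -
      wdF (P i).ψ (TF (P i).ρ (muF (P i).χ w))) := by
    simp [Kt]
  rw [e1]
  refine SOBF_sum fun i => ?_
  have a1 : SOBF (m + 1) Ω (muF (P i).ψ (SF (P i).ρ (muF (P i).χ w))) := by
    refine SOBF_muF (U := Set.univ) (P i).hψ (P i).hψc (fun x _ _ => Set.mem_univ x) ?_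
    intro S
    rw [SF_apply]
    exact SOB_smooth (m + 1) (PAR_test (P i)) _
  have a2 : SOBF (m + 1) Ω (muF (P i).ψ (TF (P i).ρ (wdF (P i).χ w))) := by
    refine SOBF_muF (P i).hψ (P i).hψc (PAR_agψ (P i)) ?_
    exact SOBF_TF m (PAR_test (P i)) (P i).hcone
      (SOBF_wdF (P i).hχ (P i).hχc (PAR_agχ (P i)) h)
  have a3 : SOBF (m + 1) Ω (wdF (P i).ψ (TF (P i).ρ (muF (P i).χ w))) := by
    refine SOBF_wdF (P i).hψ (P i).hψc (PAR_agψ (P i)) ?_
    exact SOBF_TF m (PAR_test (P i)) (P i).hcone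
      (SOBF_muF (P i).hχ (P i).hχc (PAR_agχ (P i)) h)
  intro S
  exact SOB_sub (SOB_add (a1 S) (a2 S)) (a3 S)

end Pool.Agent.CochExt
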