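import Pool.Agent.CochExt.Defs

set_option autoImplicit false

/-!
# The objects in the final statements

A form on an open set `U` is a family of real functions `w S` on `ℝⁿ` (`S` a finite subset of
`{1, ..., n}`, the coefficient of `dx_S`), considered on `U` up to sets of measure zero.
-/

open MeasureTheory

namespace Pool.Agent.CochExt

/-- families of coefficient functions -/
abbrev RF (n : ℕ) := Finset (Fin n) → Eu n → ℝ

/-- square integrable on `U` -/
def L2On {n : ℕ} (U : Set (Eu n)) (f : Eu n → ℝ) : Prop := MemLp f 2 (volume.restrict U)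

/-- equal almost everywhere on `U` -/
def AeOn {n : ℕ} (U : Set (Eu n)) (f g : Eu n → ℝ) : Prop := f =ᵐ[volume.restrict U] g

/-- `G J` is the weak derivative `D^J f` on `U` and is in `L²(U)`, for all words `J` of length at
most `m` in the letters `1, ..., n` -/
def Jets {n : ℕ} (m : ℕ) (U : Set (Eu n)) (f : Eu n → ℝ) (G : List (Fin n) → Eu n → ℝ) : Prop :=
  G [] = f ∧ (∀ J : List (Fin n), J.length ≤ m → L2On U (G J)) ∧
    ∀ (J : List (Fin n)) (j : Fin n), J.length < m → WD U j (G J) (G (j :: J))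

/-- the sum of the squares of the `L²(U)` norms of the `G J`, `J` a word of length at most `m` -/
noncomputable def jetSq {n : ℕ} (m : ℕ) (U : Set (Eu n)) (G : List (Fin n) → Eu n → ℝ) : ℝ :=
  ∑ l ∈ Finset.range (m + 1), ∑ J : Fin l → Fin n, ∫ x in U, (G (List.ofFn J) x) ^ 2

/-- `w ∈ H^{(m,m)}Λ^k(U)` and the square of its norm is `N`: `w` is a `k`-form, `w` and its weak
exterior derivative `u` have coefficients in `H^m(U)`, and `N = ‖w‖² + ‖u‖²` -/
def HNormSq {n : ℕ} (m k : ℕ) (U : Set (Eu n)) (w : RF n) (N : ℝ) : Prop :=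
  (∀ S : Finset (Fin n), S.card ≠ k → AeOn U (w S) 0) ∧
  ∃ (u : RF n) (G G' : Finset (Fin n) → List (Fin n) → Eu n → ℝ),
    WDF U w u ∧ (∀ S, Jets m U (w S) (G S)) ∧ (∀ S, Jets m U (u S) (G' S)) ∧
    N = ∑ S, (jetSq m U (G S) + jetSq m U (G' S))

/-- the `L²(U)` inner product of forms -/
noncomputable def ipOn {n : ℕ} (U : Set (Eu n)) (w v : RF n) : ℝ :=
  ∑ S, ∫ x in U, w S x * v S x

/-- harmonic `k`-forms on `U`: square integrable `k`-forms `h` with `dh = 0` which are orthogonal to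
`dη` for all `η ∈ HΛ^{k-1}(U)` (the weak form of `δh = 0` with vanishing normal trace) -/
def Harmonic {n : ℕ} (k : ℕ) (U : Set (Eu n)) (h : RF n) : Prop :=
  (∀ S, L2On U (h S)) ∧ (∀ S : Finset (Fin n), S.card ≠ k → AeOn U (h S) 0) ∧
  WDF U h (fun _ _ => 0) ∧
  ∀ η ζ : RF n, (∀ S, L2On U (η S)) → (∀ S, L2On U (ζ S)) →
    (∀ S : Finset (Fin n), S.card + 1 ≠ k → AeOn U (η S) 0) → WDF U η ζ → ipOn U h ζ = 0

/-- `w ∈ H^{(m,m)}Λ^k(U) ∩ 𝔥^k(U)^⊥` -/
def InDom {n : ℕ} (m k : ℕ) (U : Set (Eu n)) (w : RF n) : Prop :=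
  (∃ N : ℝ, HNormSq m k U w N) ∧ ∀ h : RF n, Harmonic k U h → ipOn U w h = 0

/-- `E 0, E 1, ...` is an admissible family from `Ω` to `K`: on `H^{(m,m)}Λ^k(Ω) ∩ 𝔥^k(Ω)^⊥` the
operator `E k` is linear, extends forms from `Ω` to `K`, is bounded into `H^{(m,m)}Λ^k(K)`, and
`d (E k w) = E (k+1) (dw)` in `K` -/
def AdmFam {n : ℕ} (m : ℕ) (Ω K : Set (Eu n)) (E : ℕ → RF n → RF n) : Prop :=
  (∀ (k : ℕ) (w v : RF n) (a b : ℝ), InDom m k Ω w → InDom m k Ω v → ∀ S : Finset (Fin n),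
    AeOn K (E k (fun T x => a * w T x + b * v T x) S)
      (fun x => a * E k w S x + b * E k v S x)) ∧
  (∀ (k : ℕ) (w : RF n), InDom m k Ω w → ∀ S : Finset (Fin n), AeOn Ω (E k w S) (w S)) ∧
  (∃ C : ℝ, ∀ (k : ℕ) (w : RF n) (N : ℝ), InDom m k Ω w → HNormSq m k Ω w N →
    ∃ N' : ℝ, HNormSq m k K (E k w) N' ∧ N' ≤ C * N) ∧
  ∀ (k : ℕ) (w u : RF n), InDom m k Ω w → (∀ S, L2On Ω (u S)) → WDF Ω w u →
    WDF K (E k w) (E (k + 1) u)

end Pool.Agent.CochExt
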