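import Pool.Agent.CochExt.Top
import Pool.Agent.CochExt.Stmt

set_option autoImplicit false

/-! # From the Hilbert space formulation to functions -/

open MeasureTheory TopologicalSpace
open scoped ContDiff

namespace Pool.Agent.CochExt

variable {n : ℕ}

/-- words of length at most `m`, sorted by their length -/
noncomputable def rawEquiv (n m : ℕ) :
    Word n m ≃ Σ l : Finset.range (m + 1), (Fin (l : ℕ) → Fin n) where
  toFun J := ⟨⟨J.1.length, Finset.mem_range.2 (Nat.lt_succ_of_le J.2)⟩, J.1.get⟩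
  invFun p := ⟨List.ofFn p.2, by
    rw [List.length_ofFn]
    have := p.1.2
    rw [Finset.mem_range] at this
    omega⟩
  left_inv J := Subtype.ext (List.ofFn_get J.1)
  right_inv p := by
    obtain ⟨⟨l, hl⟩, J⟩ := p
    have key : ∀ (l' : ℕ) (hl' : l' ∈ Finset.range (m + 1)) (J' : Fin l' → Fin n), l' = l →
        List.ofFn J' = List.ofFn J →
        (⟨⟨l', hl'⟩, J'⟩ : Σ l : Finset.range (m + 1), (Fin (l : ℕ) → Fin n)) = ⟨⟨l, hl⟩, J⟩ := by
      intro l' hl' J' h h'
      subst h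
      rw [List.ofFn_injective h']
    exact key _ _ _ (List.length_ofFn) (List.ofFn_get _)

/-- sums over words -/
theorem raw_word_sum (m : ℕ) (f : List (Fin n) → ℝ) :
    ∑ J : Word n m, f J.1 = ∑ l ∈ Finset.range (m + 1), ∑ J : Fin l → Fin n, f (List.ofFn J) := by
  classical
  have h1 : ∑ J : Word n m, f J.1 =
      ∑ p : (Σ l : Finset.range (m + 1), (Fin (l : ℕ) → Fin n)), f (List.ofFn p.2) := by
    refine Fintype.sum_equiv (rawEquiv n m) _ _ fun J => ?_
    show f J.1 = f (List.ofFn J.1.get)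
    rw [List.ofFn_get]
  rw [h1, Fintype.sum_sigma]
  exact Finset.sum_coe_sort (Finset.range (m + 1)) (fun l => ∑ J : Fin l → Fin n, f (List.ofFn J))

theorem raw_norm_sq {U : Set (Eu n)} (f : LL U) : ‖f‖ ^ 2 = ∫ x in U, ((f : Eu n → ℝ) x) ^ 2 := by
  rw [← real_inner_self_eq_norm_sq, L2.inner_def]
  congr 1
  ext x
  simp [sq]

theorem raw_inner {U : Set (Eu n)} (f g : LL U) :
    inner ℝ f g = ∫ x in U, (f : Eu n → ℝ) x * (g : Eu n → ℝ) x := by
  rw [L2.inner_def]
  congr 1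
  ext x
  simp [mul_comm]

theorem raw_amb_norm {m : ℕ} {U : Set (Eu n)} (F : Amb m U)
    (G G' : Finset (Fin n) → List (Fin n) → Eu n → ℝ)
    (h : ∀ (S : Finset (Fin n)) (J : Word n m), AeOn U (G S J.1) (F (false, S, J)))
    (h' : ∀ (S : Finset (Fin n)) (J : Word n m), AeOn U (G' S J.1) (F (true, S, J))) :
    ‖F‖ ^ 2 = ∑ S, (jetSq m U (G S) + jetSq m U (G' S)) := by
  rw [PiLp.norm_sq_eq_of_L2, Fintype.sum_prod_type, Fintype.sum_bool, Finset.sum_add_distrib]
  rw [Fintype.sum_prod_type, Fintype.sum_prod_type, add_comm]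
  have key : ∀ (b : Bool) (g : List (Fin n) → Eu n → ℝ) (S : Finset (Fin n)),
      (∀ J : Word n m, AeOn U (g J.1) (F (b, S, J))) →
      ∑ J : Word n m, ‖F (b, S, J)‖ ^ 2 = jetSq m U g := by
    intro b g S hg
    rw [jetSq, ← raw_word_sum m (fun J => ∫ x in U, (g J x) ^ 2)]
    refine Finset.sum_congr rfl fun J _ => ?_
    rw [raw_norm_sq]
    apply integral_congr_ae
    filter_upwards [hg J] with x hx
    rw [hx]
  congr 1
  · exact Finset.sum_congr rfl fun S _ => key false (G S) S (h S)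
  · exact Finset.sum_congr rfl fun S _ => key true (G' S) S (h' S)

/-- from functions to the Hilbert space -/
theorem raw_to {m k : ℕ} {U : Opens (Eu n)} {w : RF n} {N : ℝ}
    (h : HNormSq m k (U : Set (Eu n)) w N) :
    ∃ F : Amb m (U : Set (Eu n)), IsHmm m k (U : Set (Eu n)) F ∧
      (∀ S, AeOn (U : Set (Eu n)) (F (false, S, Word.nil)) (w S)) ∧ ‖F‖ ^ 2 = N := by
  obtain ⟨hdeg, u, G, G', hwu, hG, hG', hN⟩ := h
  have hU : MeasurableSet (U : Set (Eu n)) := U.isOpen.measurableSet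
  let F : Amb m (U : Set (Eu n)) := WithLp.toLp 2 (fun i : Ix n m =>
    if i.1 then ((hG' i.2.1).2.1 i.2.2.1 i.2.2.2).toLp (G' i.2.1 i.2.2.1)
    else ((hG i.2.1).2.1 i.2.2.1 i.2.2.2).toLp (G i.2.1 i.2.2.1))
  have hF0 : ∀ (S : Finset (Fin n)) (J : Word n m),
      (F (false, S, J) : Eu n → ℝ) =ᵐ[volume.restrict (U : Set (Eu n))] G S J.1 :=
    fun S J => ((hG S).2.1 J.1 J.2).coeFn_toLp
  have hF1 : ∀ (S : Finset (Fin n)) (J : Word n m),
      (F (true, S, J) : Eu n → ℝ) =ᵐ[volume.restrict (U : Set (Eu n))] G' S J.1 :=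
    fun S J => ((hG' S).2.1 J.1 J.2).coeFn_toLp
  have hG0 : ∀ S, G S (Word.nil : Word n m).1 = w S := fun S => (hG S).1
  have hG0' : ∀ S, G' S (Word.nil : Word n m).1 = u S := fun S => (hG' S).1
  refine ⟨F, ⟨?_, ?_, ?_⟩, ?_, ?_⟩
  · intro b S J j hJ
    cases b with
    | false =>
      exact WD_congr hU (hF0 S J).symm (hF0 S (J.cons j hJ)).symm ((hG S).2.2 J.1 j hJ)
    | true =>
      exact WD_congr hU (hF1 S J).symm (hF1 S (J.cons j hJ)).symm ((hG' S).2.2 J.1 j hJ)
  · intro S hS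
    rw [ll_eq_iff]
    have h1 := hF0 S Word.nil
    rw [hG0] at h1
    exact (h1.trans (hdeg S hS)).trans (Lp.coeFn_zero ℝ 2 _).symm
  · refine WDF_congr hU (fun S => ?_) (fun S => ?_) hwu
    · have h1 := hF0 S Word.nil
      rw [hG0] at h1
      exact h1.symm
    · have h1 := hF1 S Word.nil
      rw [hG0'] at h1
      exact h1.symm
  · intro S
    have h1 := hF0 S Word.nil
    rw [hG0] at h1
    exact h1
  · rw [hN]
    exact raw_amb_norm F G G' (fun S J => (hF0 S J).symm) (fun S J => (hF1 S J).symm)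

/-- from the Hilbert space to functions -/
theorem raw_from {m k : ℕ} {U : Opens (Eu n)} {F : Amb m (U : Set (Eu n))}
    (hF : IsHmm m k (U : Set (Eu n)) F) {w : RF n}
    (hw : ∀ S, AeOn (U : Set (Eu n)) (F (false, S, Word.nil)) (w S)) :
    HNormSq m k (U : Set (Eu n)) w (‖F‖ ^ 2) := by
  classical
  have hU : MeasurableSet (U : Set (Eu n)) := U.isOpen.measurableSet
  let G : Finset (Fin n) → List (Fin n) → Eu n → ℝ := fun S J =>
    if J = [] then w S else if h : J.length ≤ m then (F (false, S, ⟨J, h⟩) : Eu n → ℝ) else 0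
  let G' : Finset (Fin n) → List (Fin n) → Eu n → ℝ := fun S J =>
    if h : J.length ≤ m then (F (true, S, ⟨J, h⟩) : Eu n → ℝ) else 0
  have hG0 : ∀ S, G S [] = w S := fun S => if_pos rfl
  have hGF : ∀ (S : Finset (Fin n)) (J : Word n m),
      AeOn (U : Set (Eu n)) (G S J.1) (F (false, S, J)) := by
    intro S J
    by_cases hJ : J.1 = []
    · have hJ' : J = Word.nil := Subtype.ext hJ
      rw [hJ']
      show AeOn _ (G S []) _
      rw [hG0]
      exact (hw S).symm
    · have h1 : G S J.1 = (F (false, S, J) : Eu n → ℝ) := by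
        show (if J.1 = [] then w S else if h : J.1.length ≤ m then
          (F (false, S, ⟨J.1, h⟩) : Eu n → ℝ) else 0) = _
        rw [if_neg hJ, dif_pos J.2]
        rfl
      rw [h1]
      exact Filter.EventuallyEq.refl _ _
  have hGF' : ∀ (S : Finset (Fin n)) (J : Word n m), G' S J.1 = (F (true, S, J) : Eu n → ℝ) := by
    intro S J
    show (if h : J.1.length ≤ m then (F (true, S, ⟨J.1, h⟩) : Eu n → ℝ) else 0) = _
    rw [dif_pos J.2]
    rfl
  refine ⟨fun S hS => ?_, fun S => (F (true, S, Word.nil) : Eu n → ℝ), G, G', ?_, ?_, ?_, ?_⟩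
  · have h1 := hw S
    rw [hF.2.1 S hS] at h1
    exact h1.symm.trans (Lp.coeFn_zero ℝ 2 _)
  · exact WDF_congr hU (fun S => hw S) (fun S => Filter.EventuallyEq.refl _ _) hF.2.2
  · intro S
    refine ⟨hG0 S, fun J hJ => ?_, fun J j hJ => ?_⟩
    · exact (Lp.memLp (F (false, S, ⟨J, hJ⟩))).ae_eq (hGF S ⟨J, hJ⟩).symm
    · have h1 := hF.1 false S ⟨J, hJ.le⟩ j hJ
      exact WD_congr hU (hGF S ⟨J, hJ.le⟩).symm
        (hGF S (Word.cons j ⟨J, hJ.le⟩ hJ)).symm h1
  · intro S
    refine ⟨hGF' S Word.nil, fun J hJ => ?_, fun J j hJ => ?_⟩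
    · have h1 := hGF' S ⟨J, hJ⟩
      show L2On _ (G' S J)
      rw [show G' S J = _ from h1]
      exact Lp.memLp _
    · have h1 := hF.1 true S ⟨J, hJ.le⟩ j hJ
      rw [show G' S J = _ from hGF' S ⟨J, hJ.le⟩,
        show G' S (j :: J) = _ from hGF' S (Word.cons j ⟨J, hJ.le⟩ hJ)]
      exact h1
  · exact raw_amb_norm F G G' hGF (fun S J => by
      rw [hGF' S J]
      exact Filter.EventuallyEq.refl _ _)

/-- an element of `Hmm` is determined by the coefficients of the form -/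
theorem raw_unique {m k k' : ℕ} {U : Opens (Eu n)} {F F' : Amb m (U : Set (Eu n))}
    (hF : IsHmm m k (U : Set (Eu n)) F) (hF' : IsHmm m k' (U : Set (Eu n)) F')
    (h : ∀ S, F (false, S, Word.nil) = F' (false, S, Word.nil)) : F = F' := by
  have hU : MeasurableSet (U : Set (Eu n)) := U.isOpen.measurableSet
  have h1 := hF.2.2
  have h2 := hF'.2.2
  rw [← WDF_zx hU] at h1 h2
  have h3 : (fun S => zx (U : Set (Eu n)) (F (false, S, Word.nil))) =
      (fun S => zx (U : Set (Eu n)) (F' (false, S, Word.nil))) := by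
    ext1 S
    rw [h S]
  rw [h3] at h1
  have h4 : ∀ S, F (true, S, Word.nil) = F' (true, S, Word.nil) := by
    intro S
    have h5 := WDH_unique U.isOpen h1 h2 S
    rw [← rs_eq_iff, rs_zx hU, rs_zx hU] at h5
    exact h5
  ext1 i
  obtain ⟨b, S, J⟩ := i
  rw [ll_eq_iff]
  have h0 : (F (b, S, Word.nil) : Eu n → ℝ) =ᵐ[volume.restrict (U : Set (Eu n))]
      F' (b, S, Word.nil) := by
    cases b with
    | false => rw [h S]
    | true => rw [h4 S]
  exact jet_unique m U.isOpen hU hU (le_refl _) (le_refl _) (fun J => F (b, S, J))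
    (fun J => F' (b, S, J)) (fun J j h => hF.1 b S J j h) (fun J j h => hF'.1 b S J j h) h0 J

/-- harmonic forms as functions -/
theorem raw_harm {k : ℕ} {U : Opens (Eu n)} {h : Finset (Fin n) → LL (U : Set (Eu n))}
    (hh : IsHarm k (U : Set (Eu n)) h) :
    Harmonic k (U : Set (Eu n)) (fun S => (h S : Eu n → ℝ)) := by
  have hU : MeasurableSet (U : Set (Eu n)) := U.isOpen.measurableSet
  refine ⟨fun S => Lp.memLp _, fun S hS => ?_, hh.2.1, ?_⟩
  · show (h S : Eu n → ℝ) =ᵐ[volume.restrict (U : Set (Eu n))] 0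
    rw [hh.1 S hS]
    exact Lp.coeFn_zero ℝ 2 _
  · intro η ζ hη hζ hdeg hd
    have h1 := hh.2.2 (fun S => (hη S).toLp (η S)) (fun S => (hζ S).toLp (ζ S))
      (fun S hS => by
        rw [ll_eq_iff]
        exact ((hη S).coeFn_toLp.trans (hdeg S hS)).trans (Lp.coeFn_zero ℝ 2 _).symm)
      (WDF_congr hU (fun S => (hη S).coeFn_toLp.symm) (fun S => (hζ S).coeFn_toLp.symm) hd)
    rw [ipOn, ← h1]
    refine Finset.sum_congr rfl fun S _ => ?_
    rw [raw_inner]
    apply integral_congr_ae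
    filter_upwards [(hζ S).coeFn_toLp] with x hx
    rw [hx]

theorem raw_dom {m k : ℕ} {U : Opens (Eu n)} {w : RF n}
    (h : InDom m k (U : Set (Eu n)) w) :
    ∃ F : Dom m k U, ∀ S, AeOn (U : Set (Eu n))
      ((F : Amb m (U : Set (Eu n))) (false, S, Word.nil)) (w S) := by
  obtain ⟨⟨N, hN⟩, hort⟩ := h
  obtain ⟨F, hF, hFw, -⟩ := raw_to hN
  refine ⟨⟨F, hF, fun h hh => ?_⟩, hFw⟩
  rw [← hort _ (raw_harm hh), ipOn]
  refine Finset.sum_congr rfl fun S _ => ?_
  rw [raw_inner]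
  apply integral_congr_ae
  filter_upwards [hFw S] with x hx
  rw [hx]

theorem raw_dom_unique {m k : ℕ} {U : Opens (Eu n)} {w : RF n} {F F' : Dom m k U}
    (h : ∀ S, AeOn (U : Set (Eu n))
      ((F : Amb m (U : Set (Eu n))) (false, S, Word.nil)) (w S))
    (h' : ∀ S, AeOn (U : Set (Eu n))
      ((F' : Amb m (U : Set (Eu n))) (false, S, Word.nil)) (w S)) : F = F' := by
  apply Subtype.ext
  apply raw_unique F.2.1 F'.2.1
  intro S
  rw [ll_eq_iff]
  exact (h S).trans (h' S).symm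

theorem raw_ae_comb {U : Set (Eu n)} (a b : ℝ) (A B : LL U) :
    AeOn U (a • A + b • B : LL U) (fun x => a * A x + b * B x) := by
  show ((a • A + b • B : LL U) : Eu n → ℝ) =ᵐ[volume.restrict U] _
  filter_upwards [Lp.coeFn_add (a • A) (b • B), Lp.coeFn_smul a A, Lp.coeFn_smul b B] with
    x h1 h2 h3
  rw [h1, Pi.add_apply, h2, h3, Pi.smul_apply, Pi.smul_apply, smul_eq_mul, smul_eq_mul]

theorem raw_coe_comb {m : ℕ} {U : Set (Eu n)} (W : Submodule ℝ (Amb m U)) (a b : ℝ) (F F' : W)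
    (S : Finset (Fin n)) :
    ((a • F + b • F' : W) : Amb m U) (false, S, Word.nil) =
      a • (F : Amb m U) (false, S, Word.nil) + b • (F' : Amb m U) (false, S, Word.nil) := rfl

theorem raw_map_comb {m : ℕ} {U U' : Set (Eu n)} (W : Submodule ℝ (Amb m U))
    (W' : Submodule ℝ (Amb m U')) (T : W →L[ℝ] W') (a b : ℝ) (F F' : W) (S : Finset (Fin n)) :
    ((T (a • F + b • F') : W') : Amb m U') (false, S, Word.nil) =
      a • (T F : Amb m U') (false, S, Word.nil) + b • (T F' : Amb m U') (false, S, Word.nil) := by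
  have h : T (a • F + b • F') = a • T F + b • T F' := by
    rw [map_add, map_smul, map_smul]
  rw [h]
  exact raw_coe_comb W' a b _ _ S

/-- restriction to a smaller open set -/
theorem raw_restrict {m : ℕ} {Ω K : Set (Eu n)} {E : ℕ → RF n → RF n}
    (h : AdmFam m Ω Set.univ E) : AdmFam m Ω K E := by
  obtain ⟨h1, h2, ⟨C, h3⟩, h4⟩ := h
  refine ⟨fun k w v a b hw hv S => ?_, h2, ⟨C, fun k w N hw hN => ?_⟩, fun k w u hw hu hd => ?_⟩
  · exact ae_restrict_of_ae_restrict_of_subset (Set.subset_univ _) (h1 k w v a b hw hv S)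
  · obtain ⟨N', hN', hle⟩ := h3 k w N hw hN
    obtain ⟨hdeg, u, G, G', hwu, hG, hG', hN''⟩ := hN'
    refine ⟨∑ S, (jetSq m K (G S) + jetSq m K (G' S)), ⟨fun S hS => ?_, u, G, G', ?_, ?_, ?_, rfl⟩, ?_⟩
    · exact ae_restrict_of_ae_restrict_of_subset (Set.subset_univ _) (hdeg S hS)
    · exact hwu.mono (Set.subset_univ _)
    · exact fun S => ⟨(hG S).1, fun J hJ => ((hG S).2.1 J hJ).mono_measure
        (Measure.restrict_mono (Set.subset_univ _) le_rfl),
        fun J j hJ => ((hG S).2.2 J j hJ).mono (Set.subset_univ _)⟩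
    · exact fun S => ⟨(hG' S).1, fun J hJ => ((hG' S).2.1 J hJ).mono_measure
        (Measure.restrict_mono (Set.subset_univ _) le_rfl),
        fun J j hJ => ((hG' S).2.2 J j hJ).mono (Set.subset_univ _)⟩
    · refine le_trans ?_ hle
      rw [hN'']
      have key : ∀ g : List (Fin n) → Eu n → ℝ,
          (∀ J : List (Fin n), J.length ≤ m → L2On Set.univ (g J)) →
          jetSq m K g ≤ jetSq m Set.univ g := by
        intro g hg
        apply Finset.sum_le_sum
        intro l hl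
        apply Finset.sum_le_sum
        intro J _
        rw [Finset.mem_range] at hl
        have hg' := hg (List.ofFn J) (by rw [List.length_ofFn]; omega)
        exact setIntegral_mono_set hg'.integrable_sq
          (Filter.Eventually.of_forall fun x => sq_nonneg _)
          (Set.subset_univ K).eventuallyLE
      apply Finset.sum_le_sum
      intro S _
      exact add_le_add (key _ (hG S).2.1) (key _ (hG' S).2.1)
  · exact (h4 k w u hw hu hd).mono (Set.subset_univ _)

theorem raw_core (m : ℕ) {Ω : Set (Eu n)} (hΩ : IsLip Ω) {V : Set (Eu n)}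
    (hV : IsOpen V) (hΩV : closure Ω ⊆ V) :
    ∃ (E : ℕ → RF n → RF n) (C : Set (Eu n)), IsCompact C ∧ C ⊆ V ∧ AdmFam m Ω Set.univ E ∧
      ∀ (k : ℕ) (w : RF n), InDom m k Ω w → ∀ S : Finset (Fin n), AeOn Cᶜ (E k w S) 0 := by
  classical
  let Ωo : Opens (Eu n) := ⟨Ω, hΩ.isOpen⟩
  have hΩm : MeasurableSet Ω := hΩ.isOpen.measurableSet
  obtain ⟨C, hC, hCV, E, hE1, hE2⟩ := top_core m Ωo hΩ hV hΩV
  let Er : ℕ → RF n → RF n := fun k w =>
    if h : ∃ F : Dom m k Ωo, ∀ S, AeOn Ω ((F : Amb m Ω) (false, S, Word.nil)) (w S) then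
      fun S => ((E k h.choose : Amb m ((⊤ : Opens (Eu n)) : Set (Eu n))) (false, S, Word.nil) :
        Eu n → ℝ)
    else 0
  have hEr : ∀ (k : ℕ) (w : RF n) (F : Dom m k Ωo),
      (∀ S, AeOn Ω ((F : Amb m Ω) (false, S, Word.nil)) (w S)) →
      ∀ S, Er k w S = ((E k F : Amb m ((⊤ : Opens (Eu n)) : Set (Eu n))) (false, S, Word.nil) :
        Eu n → ℝ) := by
    intro k w F hF S
    have h : ∃ F : Dom m k Ωo, ∀ S, AeOn Ω ((F : Amb m Ω) (false, S, Word.nil)) (w S) := ⟨F, hF⟩
    have h1 : h.choose = F := raw_dom_unique h.choose_spec hF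
    show (if h : ∃ F : Dom m k Ωo, ∀ S, AeOn Ω ((F : Amb m Ω) (false, S, Word.nil)) (w S) then
      (fun S => ((E k h.choose : Amb m ((⊤ : Opens (Eu n)) : Set (Eu n))) (false, S, Word.nil) :
        Eu n → ℝ)) else 0) S = _
    rw [dif_pos h, h1]
  refine ⟨Er, C, hC, hCV, ⟨?_, ?_, ?_, ?_⟩, ?_⟩
  · -- linear
    intro k w v a b hw hv S
    obtain ⟨F, hF⟩ := raw_dom (U := Ωo) hw
    obtain ⟨F', hF'⟩ := raw_dom (U := Ωo) hv
    have h1 : ∀ S, AeOn Ω (((a • F + b • F' : Dom m k Ωo) : Amb m Ω) (false, S, Word.nil))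
        (fun x => a * w S x + b * v S x) := by
      intro S
      have e1 : ((a • F + b • F' : Dom m k Ωo) : Amb m Ω) (false, S, Word.nil) =
          a • (F : Amb m Ω) (false, S, Word.nil) + b • (F' : Amb m Ω) (false, S, Word.nil) := rfl
      rw [e1]
      refine (raw_ae_comb a b _ _).trans ?_
      filter_upwards [hF S, hF' S] with x h4 h5
      rw [h4, h5]
    rw [hEr k _ _ h1 S, hEr k w F hF S, hEr k v F' hF' S]
    have e2 : (E k (a • F + b • F') : Amb m ((⊤ : Opens (Eu n)) : Set (Eu n)))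
        (false, S, Word.nil) =
        a • (E k F : Amb m ((⊤ : Opens (Eu n)) : Set (Eu n))) (false, S, Word.nil) +
          b • (E k F' : Amb m ((⊤ : Opens (Eu n)) : Set (Eu n))) (false, S, Word.nil) :=
      raw_map_comb (Dom m k Ωo) (HmC m k C) (E k) a b F F' S
    rw [e2]
    exact raw_ae_comb a b _ _
  · -- extension
    intro k w hw S
    obtain ⟨F, hF⟩ := raw_dom (U := Ωo) hw
    rw [hEr k w F hF S]
    exact (top_agree (hE1 k F) (false, S, Word.nil)).trans (hF S)
  · -- bounded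
    refine ⟨∑ k ∈ Finset.range (n + 1), ‖E k‖ ^ 2, fun k w N hw hN => ?_⟩
    obtain ⟨F, hF⟩ := raw_dom (U := Ωo) hw
    obtain ⟨F1, hF1, hF1w, hF1N⟩ := raw_to (U := Ωo) hN
    have hFF : (F : Amb m Ω) = F1 := by
      apply raw_unique F.2.1 hF1
      intro S
      rw [ll_eq_iff]
      exact (hF S).trans (hF1w S).symm
    have hNF : ‖F‖ ^ 2 = N := by
      rw [← hF1N, ← hFF]
      rfl
    refine ⟨‖(E k F : Amb m ((⊤ : Opens (Eu n)) : Set (Eu n)))‖ ^ 2, ?_, ?_⟩
    · exact raw_from (U := ⊤) (E k F).2.1 (fun S => by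
        rw [hEr k w F hF S]
        exact Filter.EventuallyEq.refl _ _)
    · rw [← hNF]
      by_cases hk : k ≤ n
      · have h1 : ‖(E k F : Amb m ((⊤ : Opens (Eu n)) : Set (Eu n)))‖ ≤ ‖E k‖ * ‖F‖ :=
          (E k).le_opNorm F
        have h2 : ‖(E k F : Amb m ((⊤ : Opens (Eu n)) : Set (Eu n)))‖ ^ 2 ≤ (‖E k‖ * ‖F‖) ^ 2 :=
          pow_le_pow_left₀ (norm_nonneg _) h1 2
        have h3 : ‖E k‖ ^ 2 ≤ ∑ k ∈ Finset.range (n + 1), ‖E k‖ ^ 2 :=
          Finset.single_le_sum (f := fun k => ‖E k‖ ^ 2) (fun i _ => sq_nonneg _)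
            (Finset.mem_range.2 (by omega))
        calc _ ≤ (‖E k‖ * ‖F‖) ^ 2 := h2
          _ = ‖E k‖ ^ 2 * ‖F‖ ^ 2 := mul_pow _ _ _
          _ ≤ _ := mul_le_mul_of_nonneg_right h3 (sq_nonneg _)
      · have hF0 : F = 0 := by
          apply Subtype.ext
          apply raw_unique F.2.1 (IsHmm_zero m k Ωo)
          intro S
          have hS : S.card ≤ n := by
            have := Finset.card_le_univ S
            rwa [Fintype.card_fin] at this
          rw [F.2.1.2.1 S (by omega)]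
          rfl
        rw [hF0, map_zero]
        simp
  · -- commutes with d
    intro k w u hw hu hd
    obtain ⟨F, hF⟩ := raw_dom (U := Ωo) hw
    have hu' : ∀ S, AeOn Ω ((dDom m k Ωo F : Amb m Ω) (false, S, Word.nil)) (u S) := by
      intro S
      have e1 : (dDom m k Ωo F : Amb m Ω) (false, S, Word.nil) =
          (F : Amb m Ω) (true, S, Word.nil) := sh_false m Ω (F : Amb m Ω) S Word.nil
      rw [e1]
      have h1 : WDH Ω (fun S => zx Ω ((F : Amb m Ω) (false, S, Word.nil)))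
          (fun S => zx Ω ((F : Amb m Ω) (true, S, Word.nil))) := (WDF_zx hΩm _ _).2 F.2.1.2.2
      have h2 : WDH Ω (fun S => zx Ω ((F : Amb m Ω) (false, S, Word.nil)))
          (fun S => zx Ω ((hu S).toLp (u S))) := by
        refine WDF_congr hΩm (fun S => ?_) (fun S => ?_) hd
        · exact (hF S).symm.trans (zx_ae hΩm _).symm
        · exact (hu S).coeFn_toLp.symm.trans (zx_ae hΩm _).symm
      have h3 := WDH_unique hΩ.isOpen h1 h2 S
      exact ((zx_ae hΩm _).symm.trans h3).trans ((zx_ae hΩm _).trans (hu S).coeFn_toLp)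
    have h1 : ∀ S, Er (k + 1) u S =
        ((E k F : Amb m ((⊤ : Opens (Eu n)) : Set (Eu n))) (true, S, Word.nil) : Eu n → ℝ) := by
      intro S
      rw [hEr (k + 1) u (dDom m k Ωo F) hu' S, ← hE2 k F, sh_false]
    have h2 : Er k w = fun S =>
        ((E k F : Amb m ((⊤ : Opens (Eu n)) : Set (Eu n))) (false, S, Word.nil) : Eu n → ℝ) := by
      ext1 S
      exact hEr k w F hF S
    have h3 : Er (k + 1) u = fun S =>
        ((E k F : Amb m ((⊤ : Opens (Eu n)) : Set (Eu n))) (true, S, Word.nil) : Eu n → ℝ) := by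
      ext1 S
      exact h1 S
    rw [h2, h3]
    exact (E k F).2.1.2.2
  · intro k w hw S
    obtain ⟨F, hF⟩ := raw_dom (U := Ωo) hw
    rw [hEr k w F hF S]
    exact (E k F).2.2 (false, S, Word.nil)

end Pool.Agent.CochExt
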