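import Pool.Agent.CochExt.Spc

set_option autoImplicit false

/-! # Module RST: restriction of forms to smaller open sets -/

open MeasureTheory TopologicalSpace
open scoped ContDiff

namespace Pool.Agent.CochExt

variable {n : ℕ}

/-- restriction of all components from `V` to `U` -/
noncomputable def RS (m : ℕ) (V U : Set (Eu n)) : Amb m V →L[ℝ] Amb m U :=
  (PiLp.continuousLinearEquiv 2 ℝ (fun _ : Ix n m => LL U)).symm.toContinuousLinearMap.comp
    ((ContinuousLinearMap.pi (fun i : Ix n m => (re V U).comp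
      (ContinuousLinearMap.proj (R := ℝ) (φ := fun _ : Ix n m => LL V) i))).comp
      (PiLp.continuousLinearEquiv 2 ℝ (fun _ : Ix n m => LL V)).toContinuousLinearMap)

theorem RS_apply (m : ℕ) (V U : Set (Eu n)) (F : Amb m V) (i : Ix n m) :
    RS m V U F i = re V U (F i) := by
  simp [RS]

theorem RS_sh (m : ℕ) (V U : Set (Eu n)) (F : Amb m V) :
    RS m V U (sh m V F) = sh m U (RS m V U F) := by
  ext1 i
  obtain ⟨b, S, J⟩ := i
  cases b with
  | false => rw [RS_apply, sh_false, sh_false, RS_apply]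
  | true => rw [RS_apply, sh_true, sh_true, map_zero]

theorem RS_Hmm {m k : ℕ} {V U : Opens (Eu n)} (hUV : U ≤ V) {F : Amb m (V : Set (Eu n))}
    (hF : IsHmm m k (V : Set (Eu n)) F) : IsHmm m k (U : Set (Eu n)) (RS m (V : Set (Eu n)) (U : Set (Eu n)) F) := by
  have hU : MeasurableSet (U : Set (Eu n)) := U.isOpen.measurableSet
  have hV : MeasurableSet (V : Set (Eu n)) := V.isOpen.measurableSet
  have hsub : (U : Set (Eu n)) ⊆ (V : Set (Eu n)) := hUV
  refine ⟨fun b S J j h => ?_, fun S hS => ?_, ?_⟩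
  · rw [RS_apply, RS_apply]
    exact WD_congr hU (re_ae hV hsub _).symm (re_ae hV hsub _).symm ((hF.1 b S J j h).mono hsub)
  · rw [RS_apply, hF.2.1 S hS, map_zero]
  · exact WDF_congr hU (fun S => by rw [RS_apply]; exact (re_ae hV hsub _).symm)
      (fun S => by rw [RS_apply]; exact (re_ae hV hsub _).symm) (hF.2.2.mono hsub)

end Pool.Agent.CochExt
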