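import Pool.Agent.CochExt.Extf
import Pool.Agent.CochExt.Jet
import Pool.Agent.CochExt.Rst

set_option autoImplicit false

/-! # Module SUR: restriction from `ℝⁿ` (support in `C`) to `Ω` is surjective.
`ext_form` for `w S = zx (F (false, S, nil))`, `u S = zx (F (true, S, nil))` (`SOB_of_jet`, `WDF_zx`); degree `k` part of `w'` and degree `k+1`
part of `u'` (`WDH_deg`, they still agree with `w`, `u` on `Ω`); jets by `jet_of_SOB`; `jet_unique` on `Ω` and on the open set `Cᶜ`. -/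

open MeasureTheory TopologicalSpace
open scoped ContDiff

namespace Pool.Agent.CochExt

variable {n : ℕ}

/-- a form in `H^{(m,m)}(ℝⁿ)` gives an element of `Hmm m k ⊤` -/
theorem sur_build (m k : ℕ) {w u : FH n} (hw : SOBF m Set.univ w) (hu : SOBF m Set.univ u)
    (h : WDH Set.univ w u) : ∃ F' : Amb m ((⊤ : Opens (Eu n)) : Set (Eu n)),
      IsHmm m k ((⊤ : Opens (Eu n)) : Set (Eu n)) F' ∧
      (∀ S, F' (false, S, Word.nil) = rs ((⊤ : Opens (Eu n)) : Set (Eu n)) (dg k w S)) ∧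
      (∀ S, F' (true, S, Word.nil) = rs ((⊤ : Opens (Eu n)) : Set (Eu n)) (dg (k + 1) u S)) := by
  have hdw : ∀ S, SOB m Set.univ (dg k w S) := by
    intro S
    rw [dg]
    split_ifs
    · exact hw S
    · exact SOB_zero m _
  have hdu : ∀ S, SOB m Set.univ (dg (k + 1) u S) := by
    intro S
    rw [dg]
    split_ifs
    · exact hu S
    · exact SOB_zero m _
  choose G hG0 hG using fun S => jet_of_SOB m (isOpen_univ (X := Eu n)) (hdw S)
  choose G' hG0' hG' using fun S => jet_of_SOB m (isOpen_univ (X := Eu n)) (hdu S)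
  refine ⟨WithLp.toLp 2 (fun i : Ix n m => if i.1 then G' i.2.1 i.2.2 else G i.2.1 i.2.2),
    ⟨?_, ?_, ?_⟩, ?_, ?_⟩
  · intro b S J j hJ
    cases b with
    | false => exact hG S J j hJ
    | true => exact hG' S J j hJ
  · intro S hS
    show G S Word.nil = 0
    rw [hG0 S, dg, if_neg hS, map_zero]
  · have h1 := WDH_deg k h
    have h2 := (WDF_rs (U := ((⊤ : Opens (Eu n)) : Set (Eu n))) MeasurableSet.univ _ _).2 h1
    show WDF _ (fun S => (G S Word.nil : Eu n → ℝ)) (fun S => (G' S Word.nil : Eu n → ℝ))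
    simp only [hG0, hG0']
    exact h2
  · intro S
    exact hG0 S
  · intro S
    exact hG0' S

theorem surj_res {Ω : Opens (Eu n)} (hb : Bornology.IsBounded (Ω : Set (Eu n))) {N : ℕ}
    (P : Fin N → Patch (Ω : Set (Eu n))) (hP : ∀ x ∈ (Ω : Set (Eu n)), ∑ i, (P i).χ x = 1)
    {V : Set (Eu n)} (hV : IsOpen V) (hΩV : closure (Ω : Set (Eu n)) ⊆ V) :
    ∃ C : Set (Eu n), IsCompact C ∧ C ⊆ V ∧ ∀ (m k : ℕ) (F : Amb m (Ω : Set (Eu n))),
      IsHmm m k (Ω : Set (Eu n)) F → ∃ F' : Amb m ((⊤ : Opens (Eu n)) : Set (Eu n)),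
        F' ∈ HmC m k C ∧ RS m ((⊤ : Opens (Eu n)) : Set (Eu n)) (Ω : Set (Eu n)) F' = F := by
  obtain ⟨C, hC, hCV, hext⟩ := ext_form Ω.isOpen hb P hP hV hΩV
  refine ⟨C, hC, hCV, fun m k F hF => ?_⟩
  have hΩm : MeasurableSet (Ω : Set (Eu n)) := Ω.isOpen.measurableSet
  have hTm : MeasurableSet (((⊤ : Opens (Eu n)) : Set (Eu n))) := MeasurableSet.univ
  have hCo : IsOpen Cᶜ := hC.isClosed.isOpen_compl
  -- the forms on Ω
  set w : FH n := fun S => zx (Ω : Set (Eu n)) (F (false, S, Word.nil)) with hw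
  set u : FH n := fun S => zx (Ω : Set (Eu n)) (F (true, S, Word.nil)) with hu
  have hwu : WDH (Ω : Set (Eu n)) w u := (WDF_zx hΩm _ _).2 hF.2.2
  obtain ⟨w', u', hw', hu', hwu', hwΩ, huΩ, hwC, huC⟩ := hext m w u
    (fun S => SOB_of_jet m Ω.isOpen (fun J => F (false, S, J)) (fun J j h => hF.1 false S J j h))
    (fun S => SOB_of_jet m Ω.isOpen (fun J => F (true, S, J)) (fun J j h => hF.1 true S J j h)) hwu
  obtain ⟨F', hF', hF0, hF1⟩ := sur_build m k hw' hu' hwu'
  -- degrees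
  have hudeg : ∀ S : Finset (Fin n), S.card ≠ k + 1 → F (true, S, Word.nil) = 0 :=
    fun S hS => spc_true_deg hF S hS
  -- agreement of the zeroth components on Ω
  have hsubT : (Ω : Set (Eu n)) ⊆ ((⊤ : Opens (Eu n)) : Set (Eu n)) := Set.subset_univ _
  have hagF : ∀ S, (F' (false, S, Word.nil) : Eu n → ℝ) =ᵐ[volume.restrict (Ω : Set (Eu n))]
      F (false, S, Word.nil) := by
    intro S
    have h1 : (F' (false, S, Word.nil) : Eu n → ℝ) =ᵐ[volume.restrict (Ω : Set (Eu n))]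
        dg k w' S := by
      rw [hF0 S]
      exact ae_restrict_of_ae_restrict_of_subset hsubT (rs_ae _ _)
    refine h1.trans ?_
    rw [dg]
    split_ifs with hS
    · exact (hwΩ S).trans (zx_ae hΩm _)
    · rw [hF.2.1 S hS]
      have h2 := zx_ae hΩm (0 : LL (Ω : Set (Eu n)))
      rwa [map_zero] at h2
  have hagT : ∀ S, (F' (true, S, Word.nil) : Eu n → ℝ) =ᵐ[volume.restrict (Ω : Set (Eu n))]
      F (true, S, Word.nil) := by
    intro S
    have h1 : (F' (true, S, Word.nil) : Eu n → ℝ) =ᵐ[volume.restrict (Ω : Set (Eu n))]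
        dg (k + 1) u' S := by
      rw [hF1 S]
      exact ae_restrict_of_ae_restrict_of_subset hsubT (rs_ae _ _)
    refine h1.trans ?_
    rw [dg]
    split_ifs with hS
    · exact (huΩ S).trans (zx_ae hΩm _)
    · rw [hudeg S hS]
      have h2 := zx_ae hΩm (0 : LL (Ω : Set (Eu n)))
      rwa [map_zero] at h2
  -- vanishing outside C
  have hzeroH : (((0 : H n) : H n) : Eu n → ℝ) =ᵐ[volume.restrict Cᶜ] 0 :=
    ae_restrict_of_ae (Lp.coeFn_zero ℝ 2 volume)
  have hvF : ∀ S, (F' (false, S, Word.nil) : Eu n → ℝ) =ᵐ[volume.restrict Cᶜ] 0 := by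
    intro S
    have h1 : (F' (false, S, Word.nil) : Eu n → ℝ) =ᵐ[volume.restrict Cᶜ] dg k w' S := by
      rw [hF0 S]
      exact ae_restrict_of_ae_restrict_of_subset (Set.subset_univ _) (rs_ae _ _)
    refine h1.trans ?_
    rw [dg]
    split_ifs with hS
    · exact hwC S
    · exact hzeroH
  have hvT : ∀ S, (F' (true, S, Word.nil) : Eu n → ℝ) =ᵐ[volume.restrict Cᶜ] 0 := by
    intro S
    have h1 : (F' (true, S, Word.nil) : Eu n → ℝ) =ᵐ[volume.restrict Cᶜ] dg (k + 1) u' S := by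
      rw [hF1 S]
      exact ae_restrict_of_ae_restrict_of_subset (Set.subset_univ _) (rs_ae _ _)
    refine h1.trans ?_
    rw [dg]
    split_ifs with hS
    · exact huC S
    · exact hzeroH
  -- the zero jet
  have hz0 : ∀ (J : Word n m) (j : Fin n) (h : J.1.length < m),
      WD ((⊤ : Opens (Eu n)) : Set (Eu n)) j
        ((0 : LL ((⊤ : Opens (Eu n)) : Set (Eu n))) : Eu n → ℝ)
        ((0 : LL ((⊤ : Opens (Eu n)) : Set (Eu n))) : Eu n → ℝ) := fun J j h => spc_WD_zero ⊤ j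
  have hzc : (((0 : LL ((⊤ : Opens (Eu n)) : Set (Eu n)))) : Eu n → ℝ) =ᵐ[volume.restrict Cᶜ] 0 :=
    ae_restrict_of_ae_restrict_of_subset (Set.subset_univ _)
      (Lp.coeFn_zero ℝ 2 (volume.restrict ((⊤ : Opens (Eu n)) : Set (Eu n))))
  refine ⟨F', ⟨hF', ?_⟩, ?_⟩
  · rintro ⟨b, S, J⟩
    have h0 : (F' (b, S, Word.nil) : Eu n → ℝ) =ᵐ[volume.restrict Cᶜ]
        ((0 : LL ((⊤ : Opens (Eu n)) : Set (Eu n))) : Eu n → ℝ) := by
      cases b with
      | false => exact (hvF S).trans hzc.symm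
      | true => exact (hvT S).trans hzc.symm
    have h1 := jet_unique m hCo hTm hTm (Set.subset_univ _) (Set.subset_univ _)
      (fun J => F' (b, S, J)) (fun _ => (0 : LL ((⊤ : Opens (Eu n)) : Set (Eu n))))
      (fun J j h => hF'.1 b S J j h) hz0 h0 J
    exact h1.trans hzc
  · ext1 i
    obtain ⟨b, S, J⟩ := i
    rw [RS_apply, ll_eq_iff]
    refine (re_ae hTm hsubT _).trans ?_
    have h0 : (F' (b, S, Word.nil) : Eu n → ℝ) =ᵐ[volume.restrict (Ω : Set (Eu n))]
        F (b, S, Word.nil) := by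
      cases b with
      | false => exact hagF S
      | true => exact hagT S
    exact jet_unique m Ω.isOpen hTm hΩm hsubT (le_refl _) (fun J => F' (b, S, J))
      (fun J => F (b, S, J)) (fun J j h => hF'.1 b S J j h) (fun J j h => hF.1 b S J j h) h0 J

end Pool.Agent.CochExt
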