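import Pool.Agent.CochExt.Abs
import Pool.Agent.CochExt.Sur
import Pool.Agent.CochExt.Exa
import Pool.Agent.CochExt.Geo

set_option autoImplicit false

/-! # Module TOP: the theorem.
`geo` for `Ω`; `surj_res` for `V = K` (Q2) or `V = univ` (Q1); `abs_assembly` with `D k = Dom m k Ω`, `Y k = Hmm m k Ω`, `X k = HmC m k C`;
`E'` = inclusion into `Hmm m k ⊤`, `E` = restriction to `K` (`RS_Hmm`). -/

open MeasureTheory TopologicalSpace
open scoped ContDiff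

namespace Pool.Agent.CochExt

variable {n : ℕ}

/-- the operators extend forms from `Ω` to `K` and commute with the exterior derivative -/
def Admissible {m : ℕ} {Ω K : Opens (Eu n)} (E : (k : ℕ) → Dom m k Ω →L[ℝ] Hmm m k K) : Prop :=
  (∀ (k : ℕ) (F : Dom m k Ω) (S : Finset (Fin n)),
    ((E k F : Amb m (K : Set (Eu n))) (false, S, Word.nil) : Eu n → ℝ)
      =ᵐ[volume.restrict (Ω : Set (Eu n))]
    ((F : Amb m (Ω : Set (Eu n))) (false, S, Word.nil) : Eu n → ℝ)) ∧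
  ∀ (k : ℕ) (F : Dom m k Ω), dHmm m k K (E k F) = E (k + 1) (dDom m k Ω F)

theorem top_sh_HmC {m k : ℕ} {C : Set (Eu n)}
    {F : Amb m ((⊤ : Opens (Eu n)) : Set (Eu n))} (hF : F ∈ HmC m k C) :
    sh m ((⊤ : Opens (Eu n)) : Set (Eu n)) F ∈ HmC m (k + 1) C := by
  refine ⟨sh_Hmm hF.1, ?_⟩
  rintro ⟨b, S, J⟩
  cases b with
  | false =>
    rw [sh_false]
    exact hF.2 (true, S, J)
  | true =>
    rw [sh_true, spc_hmc_iff, map_zero, map_zero]

theorem top_sh_sh (m : ℕ) (U : Set (Eu n)) (F : Amb m U) : sh m U (sh m U F) = 0 := by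
  ext1 i
  obtain ⟨b, S, J⟩ := i
  cases b with
  | false => rw [sh_false, sh_true]; rfl
  | true => rw [sh_true]; rfl

/-- the exterior derivative on `HmC` -/
noncomputable def dHmC (m k : ℕ) (C : Set (Eu n)) : HmC m k C →L[ℝ] HmC m (k + 1) C :=
  ((sh m ((⊤ : Opens (Eu n)) : Set (Eu n))).comp (HmC m k C).subtypeL).codRestrict _
    (fun F => top_sh_HmC F.2)

/-- inclusion -/
noncomputable def incD (m k : ℕ) (Ω : Opens (Eu n)) : Dom m k Ω →L[ℝ] Hmm m k Ω :=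
  (Dom m k Ω).subtypeL.codRestrict _ (fun F => F.2.1)

/-- inclusion -/
noncomputable def incC (m k : ℕ) (C : Set (Eu n)) : HmC m k C →L[ℝ] Hmm m k (⊤ : Opens (Eu n)) :=
  (HmC m k C).subtypeL.codRestrict _ (fun F => F.2.1)

/-- restriction -/
noncomputable def rHmm (m k : ℕ) {V U : Opens (Eu n)} (hUV : U ≤ V) : Hmm m k V →L[ℝ] Hmm m k U :=
  ((RS m (V : Set (Eu n)) (U : Set (Eu n))).comp (Hmm m k V).subtypeL).codRestrict _
    (fun F => RS_Hmm hUV F.2)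

theorem top_core (m : ℕ) (Ω : Opens (Eu n)) (hΩ : IsLip (Ω : Set (Eu n))) {V : Set (Eu n)}
    (hV : IsOpen V) (hΩV : closure (Ω : Set (Eu n)) ⊆ V) :
    ∃ C : Set (Eu n), IsCompact C ∧ C ⊆ V ∧ ∃ E : (k : ℕ) → Dom m k Ω →L[ℝ] HmC m k C,
      (∀ k F, RS m ((⊤ : Opens (Eu n)) : Set (Eu n)) (Ω : Set (Eu n))
        (E k F : Amb m ((⊤ : Opens (Eu n)) : Set (Eu n))) = F) ∧
      ∀ k F, sh m ((⊤ : Opens (Eu n)) : Set (Eu n))
        (E k F : Amb m ((⊤ : Opens (Eu n)) : Set (Eu n))) = E (k + 1) (dDom m k Ω F) := by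
  obtain ⟨N, P, hP⟩ := geo hΩ
  obtain ⟨C, hC, hCV, hsurj⟩ := surj_res hΩ.bdd P hP hV hΩV
  refine ⟨C, hC, hCV, ?_⟩
  have hdd : ∀ (k : ℕ) (x : Dom m k Ω), dDom m (k + 1) Ω (dDom m k Ω x) = 0 :=
    fun k x => Subtype.ext (top_sh_sh m _ _)
  have hddX : ∀ (k : ℕ) (x : HmC m k C), dHmC m (k + 1) C (dHmC m k C x) = 0 :=
    fun k x => Subtype.ext (top_sh_sh m _ _)
  have hι : ∀ (k : ℕ) (x : Dom m k Ω), incD m (k + 1) Ω (dDom m k Ω x) =
      dHmm m k Ω (incD m k Ω x) := fun k x => Subtype.ext rfl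
  have hr : ∀ (k : ℕ) (x : HmC m k C),
      ((rHmm m (k + 1) (le_top : Ω ≤ ⊤)).comp (incC m (k + 1) C)) (dHmC m k C x) =
      dHmm m k Ω (((rHmm m k (le_top : Ω ≤ ⊤)).comp (incC m k C)) x) :=
    fun k x => Subtype.ext (RS_sh m _ _ _)
  have hs : ∀ k : ℕ, Function.Surjective
      ((rHmm m k (le_top : Ω ≤ ⊤)).comp (incC m k C) : HmC m k C →L[ℝ] Hmm m k Ω) := by
    intro k y
    obtain ⟨F', hF', hRS⟩ := hsurj m k y.1 y.2
    exact ⟨⟨F', hF'⟩, Subtype.ext hRS⟩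
  have hex : ∀ (k : ℕ) (z : Dom m (k + 1) Ω), dDom m (k + 1) Ω z = 0 →
      ∃ x : Dom m k Ω, dDom m k Ω x = z := by
    intro k z hz
    have hz' : sh m (Ω : Set (Eu n)) (z : Amb m (Ω : Set (Eu n))) = 0 := congrArg Subtype.val hz
    obtain ⟨x, hx, hxz⟩ := exact_succ m k P hP z.2 hz'
    exact ⟨⟨x, hx⟩, Subtype.ext hxz⟩
  have h0 : ∀ z : Dom m 0 Ω, dDom m 0 Ω z = 0 → z = 0 := by
    intro z hz
    have hz' : sh m (Ω : Set (Eu n)) (z : Amb m (Ω : Set (Eu n))) = 0 := congrArg Subtype.val hz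
    exact Subtype.ext (exact_zero m z.2 hz')
  obtain ⟨E, hE1, hE2⟩ := abs_assembly (fun k => Dom m k Ω) (fun k => Hmm m k Ω)
    (fun k => HmC m k C) (fun k => dDom m k Ω) (fun k => dHmm m k Ω) (fun k => dHmC m k C)
    (fun k => incD m k Ω) (fun k => (rHmm m k (le_top : Ω ≤ ⊤)).comp (incC m k C))
    hdd hddX hι hr hs hex h0
  exact ⟨E, fun k F => congrArg Subtype.val (hE1 k F), fun k F => congrArg Subtype.val (hE2 k F)⟩

theorem top_agree {m : ℕ} {Ω : Opens (Eu n)} {F' : Amb m ((⊤ : Opens (Eu n)) : Set (Eu n))}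
    {F : Amb m (Ω : Set (Eu n))}
    (h : RS m ((⊤ : Opens (Eu n)) : Set (Eu n)) (Ω : Set (Eu n)) F' = F) (i : Ix n m) :
    (F' i : Eu n → ℝ) =ᵐ[volume.restrict (Ω : Set (Eu n))] (F i : Eu n → ℝ) := by
  rw [← h, RS_apply]
  exact (re_ae (V := ((⊤ : Opens (Eu n)) : Set (Eu n))) MeasurableSet.univ
    (Set.subset_univ _) _).symm

theorem main (n m : ℕ) (Ω : Opens (Eu n)) (hΩ : IsLip (Ω : Set (Eu n))) :
    (∀ K : Opens (Eu n), Ω ≤ K →
      ∃ E : (k : ℕ) → Dom m k Ω →L[ℝ] Hmm m k K, Admissible E) ∧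
    (∀ K : Opens (Eu n), closure (Ω : Set (Eu n)) ⊆ (K : Set (Eu n)) →
      ∃ (E : (k : ℕ) → Dom m k Ω →L[ℝ] Hmm m k K)
        (E' : (k : ℕ) → Dom m k Ω →L[ℝ] Hmm m k (⊤ : Opens (Eu n))) (C : Set (Eu n)),
        Admissible E ∧ Admissible E' ∧ IsCompact C ∧ C ⊆ (K : Set (Eu n)) ∧
        ∀ (k : ℕ) (F : Dom m k Ω) (i : Ix n m),
          ((E' k F : Amb m ((⊤ : Opens (Eu n)) : Set (Eu n))) i : Eu n → ℝ)
            =ᵐ[volume.restrict (K : Set (Eu n))] ((E k F : Amb m (K : Set (Eu n))) i : Eu n → ℝ) ∧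
          ((E' k F : Amb m ((⊤ : Opens (Eu n)) : Set (Eu n))) i : Eu n → ℝ)
            =ᵐ[volume.restrict Cᶜ] 0) := by
  have hadm : ∀ (K : Opens (Eu n)), Ω ≤ K → ∀ (C : Set (Eu n))
      (E : (k : ℕ) → Dom m k Ω →L[ℝ] HmC m k C),
      (∀ k F, RS m ((⊤ : Opens (Eu n)) : Set (Eu n)) (Ω : Set (Eu n))
        (E k F : Amb m ((⊤ : Opens (Eu n)) : Set (Eu n))) = F) →
      (∀ k F, sh m ((⊤ : Opens (Eu n)) : Set (Eu n))
        (E k F : Amb m ((⊤ : Opens (Eu n)) : Set (Eu n))) = E (k + 1) (dDom m k Ω F)) →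
      Admissible (fun k => (rHmm m k (le_top : K ≤ ⊤)).comp ((incC m k C).comp (E k))) := by
    intro K hK C E h1 h2
    refine ⟨fun k F S => ?_, fun k F => ?_⟩
    · have h3 : (RS m ((⊤ : Opens (Eu n)) : Set (Eu n)) (K : Set (Eu n))
          (E k F : Amb m ((⊤ : Opens (Eu n)) : Set (Eu n)))) (false, S, Word.nil) =
          re ((⊤ : Opens (Eu n)) : Set (Eu n)) (K : Set (Eu n))
            ((E k F : Amb m ((⊤ : Opens (Eu n)) : Set (Eu n))) (false, S, Word.nil)) :=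
        RS_apply _ _ _ _ _
      have h4 : (re ((⊤ : Opens (Eu n)) : Set (Eu n)) (K : Set (Eu n))
            ((E k F : Amb m ((⊤ : Opens (Eu n)) : Set (Eu n))) (false, S, Word.nil)) : Eu n → ℝ)
          =ᵐ[volume.restrict (Ω : Set (Eu n))]
          ((E k F : Amb m ((⊤ : Opens (Eu n)) : Set (Eu n))) (false, S, Word.nil) : Eu n → ℝ) :=
        ae_restrict_of_ae_restrict_of_subset hK
          (re_ae (V := ((⊤ : Opens (Eu n)) : Set (Eu n))) MeasurableSet.univ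
            (Set.subset_univ _) _)
      have h5 := top_agree (h1 k F) (false, S, Word.nil)
      show ((RS m ((⊤ : Opens (Eu n)) : Set (Eu n)) (K : Set (Eu n))
          (E k F : Amb m ((⊤ : Opens (Eu n)) : Set (Eu n)))) (false, S, Word.nil) : Eu n → ℝ)
          =ᵐ[volume.restrict (Ω : Set (Eu n))] _
      rw [h3]
      exact h4.trans h5
    · apply Subtype.ext
      show sh m (K : Set (Eu n)) (RS m ((⊤ : Opens (Eu n)) : Set (Eu n)) (K : Set (Eu n))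
          (E k F : Amb m ((⊤ : Opens (Eu n)) : Set (Eu n)))) =
        RS m ((⊤ : Opens (Eu n)) : Set (Eu n)) (K : Set (Eu n))
          (E (k + 1) (dDom m k Ω F) : Amb m ((⊤ : Opens (Eu n)) : Set (Eu n)))
      rw [← RS_sh, h2]
  have hadm' : ∀ (C : Set (Eu n))
      (E : (k : ℕ) → Dom m k Ω →L[ℝ] HmC m k C),
      (∀ k F, RS m ((⊤ : Opens (Eu n)) : Set (Eu n)) (Ω : Set (Eu n))
        (E k F : Amb m ((⊤ : Opens (Eu n)) : Set (Eu n))) = F) →
      (∀ k F, sh m ((⊤ : Opens (Eu n)) : Set (Eu n))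
        (E k F : Amb m ((⊤ : Opens (Eu n)) : Set (Eu n))) = E (k + 1) (dDom m k Ω F)) →
      Admissible (fun k => (incC m k C).comp (E k)) := by
    intro C E h1 h2
    refine ⟨fun k F S => ?_, fun k F => ?_⟩
    · exact top_agree (h1 k F) (false, S, Word.nil)
    · apply Subtype.ext
      exact h2 k F
  constructor
  · intro K hK
    obtain ⟨C, -, -, E, h1, h2⟩ := top_core m Ω hΩ isOpen_univ (Set.subset_univ _)
    exact ⟨_, hadm K hK C E h1 h2⟩
  · intro K hK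
    obtain ⟨C, hC, hCK, E, h1, h2⟩ := top_core m Ω hΩ K.isOpen hK
    have hΩK : Ω ≤ K := fun x hx => hK (subset_closure hx)
    refine ⟨_, _, C, hadm K hΩK C E h1 h2, hadm' C E h1 h2, hC, hCK, fun k F i => ⟨?_, ?_⟩⟩
    · have h3 : (RS m ((⊤ : Opens (Eu n)) : Set (Eu n)) (K : Set (Eu n))
          (E k F : Amb m ((⊤ : Opens (Eu n)) : Set (Eu n)))) i =
          re ((⊤ : Opens (Eu n)) : Set (Eu n)) (K : Set (Eu n))
            ((E k F : Amb m ((⊤ : Opens (Eu n)) : Set (Eu n))) i) :=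
        RS_apply _ _ _ _ _
      show ((E k F : Amb m ((⊤ : Opens (Eu n)) : Set (Eu n))) i : Eu n → ℝ)
        =ᵐ[volume.restrict (K : Set (Eu n))]
        ((RS m ((⊤ : Opens (Eu n)) : Set (Eu n)) (K : Set (Eu n))
          (E k F : Amb m ((⊤ : Opens (Eu n)) : Set (Eu n)))) i : Eu n → ℝ)
      rw [h3]
      exact (re_ae (V := ((⊤ : Opens (Eu n)) : Set (Eu n))) MeasurableSet.univ
        (Set.subset_univ _) _).symm
    · exact (E k F).2.2 i

end Pool.Agent.CochExt
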